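import Mathlib

/-!
# Project PGZ (MP_039d94_nt): Q1 for surfaces with `p_g = 0`: definitions

`G` is a finite group, later `Gal(F/ℚ)`; `Λ` is a lattice with a linear action of `G`.
-/

set_option autoImplicit false

noncomputable section

namespace Pool.Agent.PGZ

open Module

section act

variable {G : Type*} [Group G] {Λ : Type*} [AddCommGroup Λ] [DistribMulAction G Λ]

/-- The additive map `x ↦ g • x`. -/
def act (Λ : Type*) [AddCommGroup Λ] [DistribMulAction G Λ] (g : G) : Λ →ₗ[ℤ] Λ :=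
  (DistribSMul.toAddMonoidHom Λ g).toIntLinearMap

@[simp] theorem act_apply (g : G) (x : Λ) : act Λ g x = g • x := rfl

/-- The elements fixed by the subgroup `S`. -/
def fixS (Λ : Type*) [AddCommGroup Λ] [DistribMulAction G Λ] (S : Subgroup G) : Submodule ℤ Λ where
  carrier := {x | ∀ g ∈ S, g • x = x}
  zero_mem' := fun g _ => smul_zero g
  add_mem' := by
    intro x y hx hy g hg
    rw [smul_add, hx g hg, hy g hg]
  smul_mem' := by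
    intro c x hx g hg
    rw [smul_comm g c x, hx g hg]

theorem mem_fixS (S : Subgroup G) (x : Λ) : x ∈ fixS Λ S ↔ ∀ g ∈ S, g • x = x := Iff.rfl

/-- `det (1 - T f)` for an endomorphism of a complex vector space. -/
def detC {V : Type*} [AddCommGroup V] [Module ℂ V] (f : V →ₗ[ℂ] V) (T : ℂ) : ℂ :=
  LinearMap.det (LinearMap.id - T • f)

/-- `det (1 - T f | M ⊗ ℂ)`. -/
def det1 {M : Type*} [AddCommGroup M] (f : M →ₗ[ℤ] M) (T : ℂ) : ℂ :=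
  detC (f.baseChange ℂ) T

/-- `det (1 - T g | Λ^S ⊗ ℂ)` for an element `g` which maps `Λ^S` to itself. -/
def locDet (Λ : Type*) [AddCommGroup Λ] [DistribMulAction G Λ] (S : Subgroup G) (g : G)
    (h : ∀ x ∈ fixS Λ S, act Λ g x ∈ fixS Λ S) (T : ℂ) : ℂ :=
  det1 ((act Λ g).restrict h) T

/-- `exp (∑_{k ≥ 1} |S|⁻¹ ∑_{s ∈ S} f (g ^ k s) T ^ k / k)`. -/
def EE [Finite G] (S : Subgroup G) (g : G) (f : G → ℂ) (T : ℂ) : ℂ :=
  Complex.exp (∑' k : ℕ, ((Nat.card S : ℂ)⁻¹ * ∑ᶠ s : S, f (g ^ (k + 1) * s)) *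
    T ^ (k + 1) / ((k : ℂ) + 1))

/-- The permutation character of `G / H`. -/
def fH (H : Subgroup G) (g : G) : ℂ := (Nat.card {x : G ⧸ H // g • x = x} : ℂ)

end act

section form

/-- `L` with the form `B` is an even positive definite lattice. -/
structure PD {L : Type*} [AddCommGroup L] (B : L →ₗ[ℤ] L →ₗ[ℤ] ℤ) : Prop where
  symm : ∀ x y, B x y = B y x
  pos : ∀ x, x ≠ 0 → 0 < B x x
  even : ∀ x, (2 : ℤ) ∣ B x x

/-- `g` is an isometry. -/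
def Iso {L : Type*} [AddCommGroup L] (B : L →ₗ[ℤ] L →ₗ[ℤ] ℤ) (g : L ≃ₗ[ℤ] L) : Prop :=
  ∀ x y, B (g x) (g y) = B x y

/-- `g` acts trivially on the discriminant group: `φ ∘ g - φ` is represented by an element of `L`
for every linear functional `φ`. -/
def Tri {L : Type*} [AddCommGroup L] (B : L →ₗ[ℤ] L →ₗ[ℤ] ℤ) (g : L ≃ₗ[ℤ] L) : Prop :=
  ∀ φ : L →ₗ[ℤ] ℤ, ∃ v : L, ∀ x, φ (g x) - φ x = B v x

/-- The reflections in the elements of `Δ`. -/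
def Refl {L : Type*} [AddCommGroup L] (B : L →ₗ[ℤ] L →ₗ[ℤ] ℤ) (Δ : Finset L) :
    Set (L ≃ₗ[ℤ] L) := {f | ∃ α ∈ Δ, ∀ x, f x = x - B x α • α}

/-- `Δ` is the base of the root system `{x | B x x = 2}` defined by the generic vector `ρ`. -/
structure IsBase {L : Type*} [AddCommGroup L] (B : L →ₗ[ℤ] L →ₗ[ℤ] ℤ) (ρ : L) (Δ : Finset L) :
    Prop where
  two : ∀ α ∈ Δ, B α α = 2
  pos : ∀ α ∈ Δ, 0 < B ρ α
  nonpos : ∀ α ∈ Δ, ∀ β ∈ Δ, α ≠ β → B α β = 0 ∨ B α β = -1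
  indep : LinearIndependent ℤ (fun α : Δ => (α : L))
  gen : ∀ x, B x x = 2 → B ρ x ≠ 0
  comb : ∀ x, B x x = 2 → 0 < B ρ x → ∃ c : L → ℕ, x = ∑ α ∈ Δ, c α • α

/-- A frame for the Gram matrix `C`: weights `wt` (`1` or `2`) and rows `X i` of the form
`± e_a ± e_b` (`a ≠ b`, weights `1`) or `e_a` (weight `2`), with `C = X wt Xᵗ`. -/
structure IsFrame {n N : ℕ} (C : Matrix (Fin n) (Fin n) ℤ) (wt : Fin N → ℤ)
    (X : Fin n → Fin N → ℤ) : Prop where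
  wt12 : ∀ a, wt a = 1 ∨ wt a = 2
  row : ∀ i, (∃ a b, a ≠ b ∧ wt a = 1 ∧ wt b = 1 ∧ (X i a = 1 ∨ X i a = -1) ∧
      (X i b = 1 ∨ X i b = -1) ∧ ∀ c, c ≠ a → c ≠ b → X i c = 0) ∨
    (∃ a, wt a = 2 ∧ X i a = 1 ∧ ∀ c, c ≠ a → X i c = 0)
  gram : ∀ i j, C i j = ∑ a, wt a * X i a * X j a

end form

section lattice

variable (G : Type*) [Group G] {Λ : Type*} [AddCommGroup Λ] [DistribMulAction G Λ]

/-- The lattice data: `B` is a symmetric unimodular form on `Λ` invariant under `G`, `w` is a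
`G`-invariant characteristic vector, and `ε B` is positive definite on the orthogonal complement of
the `G`-invariants (`ε = 1` or `ε = -1`). -/
structure IsCyc (B : Λ →ₗ[ℤ] Λ →ₗ[ℤ] ℤ) (w : Λ) (ε : ℤ) : Prop where
  eps : ε = 1 ∨ ε = -1
  symm : ∀ x y, B x y = B y x
  inv : ∀ (g : G) (x y : Λ), B (g • x) (g • y) = B x y
  unimod : Function.Bijective B
  fixw : ∀ g : G, g • w = w
  char : ∀ x, (2 : ℤ) ∣ B x x - B w x
  defn : ∀ x, x ≠ 0 → (∀ y, (∀ g : G, g • y = y) → B x y = 0) → 0 < ε * B x x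

/-- The rank condition: the invariants have corank at most `5`, and either rank at least `2`, or
`Λ` has the numerical invariants of a surface with `p_g = 0` (`K² + b₂ = 10 - 8 q`, `w = K`, there
is an invariant class of positive square, and `ε = -1`). -/
def RankOK (B : Λ →ₗ[ℤ] Λ →ₗ[ℤ] ℤ) (w : Λ) (ε : ℤ) : Prop :=
  finrank ℤ Λ ≤ finrank ℤ (fixS Λ (⊤ : Subgroup G)) + 5 ∧
  (2 ≤ finrank ℤ (fixS Λ (⊤ : Subgroup G)) ∨
    (ε = -1 ∧ (∃ h : Λ, (∀ g : G, g • h = h) ∧ 0 < B h h) ∧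
      ∃ q : ℕ, B w w + finrank ℤ Λ = 10 - 8 * (q : ℤ)))

/-- The orthogonal complement of the invariants. -/
def MM (B : Λ →ₗ[ℤ] Λ →ₗ[ℤ] ℤ) : Submodule ℤ Λ where
  carrier := {x | ∀ y, (∀ g : G, g • y = y) → B x y = 0}
  zero_mem' := by
    intro y _
    rw [map_zero, LinearMap.zero_apply]
  add_mem' := by
    intro a b ha hb y hy
    rw [map_add, LinearMap.add_apply, ha y hy, hb y hy, add_zero]
  smul_mem' := by
    intro c x hx y hy
    rw [map_smul, LinearMap.smul_apply, hx y hy, smul_zero]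

theorem mem_MM (B : Λ →ₗ[ℤ] Λ →ₗ[ℤ] ℤ) (x : Λ) :
    x ∈ MM G B ↔ ∀ y, (∀ g : G, g • y = y) → B x y = 0 := Iff.rfl

/-- The form `ε B` on `MM`. -/
def BM (B : Λ →ₗ[ℤ] Λ →ₗ[ℤ] ℤ) (ε : ℤ) : MM G B →ₗ[ℤ] MM G B →ₗ[ℤ] ℤ :=
  ε • (B.domRestrict₁₂ (MM G B) (MM G B))

theorem BM_apply (B : Λ →ₗ[ℤ] Λ →ₗ[ℤ] ℤ) (ε : ℤ) (x y : MM G B) :
    BM G B ε x y = ε * B (x : Λ) (y : Λ) := rfl

end lattice

/-- The trace of `g` on `Λ` is that of a sum of `c` trivial modules and a signed permutation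
module: `S` is a finite `G`-set with a free involution `τ`. -/
structure IsSgn (G : Type*) [Group G] (Λ : Type*) [AddCommGroup Λ] [DistribMulAction G Λ]
    (S : Type) [MulAction G S] (τ : S → S) (c : ℕ) : Prop where
  fin : Finite S
  free : ∀ s, τ s ≠ s
  invol : ∀ s, τ (τ s) = s
  comm : ∀ (g : G) (s : S), g • τ s = τ (g • s)
  trace : ∀ g : G, 2 * LinearMap.trace ℤ Λ (act Λ g) =
    2 * (c : ℤ) + (Nat.card {s : S // g • s = s} : ℤ) - (Nat.card {s : S // g • s = τ s} : ℤ)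

section arith

open scoped Pointwise

open NumberField

variable {F : Type} [Field F] [NumberField F]

/-- The fixed field of `H`. -/
abbrev KH (H : Subgroup (F ≃ₐ[ℚ] F)) : Type := ↥(IntermediateField.fixedField H)

variable (Λ : Type*) [AddCommGroup Λ] [DistribMulAction (F ≃ₐ[ℚ] F) Λ]

theorem conj_inertia {P : Ideal (𝓞 F)} (hP : P.IsPrime) {σ : F ≃ₐ[ℚ] F}
    (hσ : IsArithFrobAt ℤ σ P) (s : F ≃ₐ[ℚ] F) (hs : s ∈ P.inertia (F ≃ₐ[ℚ] F)) :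
    σ * s * σ⁻¹ ∈ P.inertia (F ≃ₐ[ℚ] F) ∧ σ⁻¹ * s * σ ∈ P.inertia (F ≃ₐ[ℚ] F) := by
  have hst : σ ∈ MulAction.stabilizer (F ≃ₐ[ℚ] F) P := hσ.mem_stabilizer
  have key : ∀ τ : F ≃ₐ[ℚ] F, τ ∈ MulAction.stabilizer (F ≃ₐ[ℚ] F) P →
      τ * s * τ⁻¹ ∈ P.inertia (F ≃ₐ[ℚ] F) := by
    intro τ hτ x
    have h1 := hs (τ⁻¹ • x)
    have h2 : τ • (s • (τ⁻¹ • x) - τ⁻¹ • x) ∈ τ • P := Ideal.smul_mem_pointwise_smul _ _ _ h1
    rw [MulAction.mem_stabilizer_iff.1 hτ] at h2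
    have h3 : τ • (s • (τ⁻¹ • x) - τ⁻¹ • x) = (τ * s * τ⁻¹) • x - x := by
      rw [smul_sub, smul_smul, smul_smul, smul_smul, mul_inv_cancel, one_smul]
    rw [h3] at h2
    exact h2
  refine ⟨key σ hst, ?_⟩
  have := key σ⁻¹ (inv_mem hst)
  rwa [inv_inv] at this

theorem frob_fix {P : Ideal (𝓞 F)} (hP : P.IsPrime) {σ : F ≃ₐ[ℚ] F}
    (hσ : IsArithFrobAt ℤ σ P) : ∀ x ∈ fixS Λ (P.inertia (F ≃ₐ[ℚ] F)),
      act Λ σ⁻¹ x ∈ fixS Λ (P.inertia (F ≃ₐ[ℚ] F)) := by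
  intro x hx g hg
  have h1 := hx (σ * g * σ⁻¹) (conj_inertia hP hσ g hg).1
  rw [act_apply, smul_smul]
  have h2 : g * σ⁻¹ = σ⁻¹ * (σ * g * σ⁻¹) := by group
  rw [h2, ← smul_smul, h1]

/-- The Euler factor `det (1 - T σ⁻¹ | Λ^I ⊗ ℂ)⁻¹`: `P` is a prime ideal of the ring of integers of
`F`, `I` its inertia group, `σ` an arithmetic Frobenius element at `P`, so `σ⁻¹` is a geometric
one. -/
def euler {P : Ideal (𝓞 F)} (hP : P.IsPrime) {σ : F ≃ₐ[ℚ] F} (hσ : IsArithFrobAt ℤ σ P)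
    (T : ℂ) : ℂ :=
  (locDet Λ (P.inertia (F ≃ₐ[ℚ] F)) σ⁻¹ (frob_fix Λ hP hσ) T)⁻¹

end arith

end Pool.Agent.PGZ
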