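import Pool.Agent.PGZ.Defs

/-! # PGZ, module EEL: the functions `EE` -/

set_option autoImplicit false

noncomputable section

namespace Pool.Agent.PGZ

open Module

variable {G : Type*} [Group G] [Finite G]

private theorem eel_summable (S : Subgroup G) (g : G) (f : G → ℂ) (T : ℂ) (hT : ‖T‖ < 1) :
    Summable (fun k : ℕ => ((Nat.card S : ℂ)⁻¹ * ∑ᶠ s : S, f (g ^ (k + 1) * s)) *
      T ^ (k + 1) / ((k : ℂ) + 1)) := by
  classical
  haveI : Fintype G := Fintype.ofFinite G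
  haveI : Fintype S := Fintype.ofFinite S
  obtain ⟨C, hC⟩ : ∃ C : ℝ, ∀ x : G, ‖f x‖ ≤ C := by
    refine ⟨∑ x : G, ‖f x‖, ?_⟩
    intro x
    exact Finset.single_le_sum (f := fun x => ‖f x‖) (fun y _ => norm_nonneg (f y))
      (Finset.mem_univ x)
  have hC0 : 0 ≤ C := (norm_nonneg _).trans (hC 1)
  set A : ℝ := ‖(Nat.card S : ℂ)⁻¹‖ * ((Fintype.card S : ℝ) * C) with hA
  have hA0 : 0 ≤ A := by positivity
  have hgeo : Summable (fun k : ℕ => A * ‖T‖ ^ (k + 1)) := by
    have h1 : Summable (fun k : ℕ => ‖T‖ ^ k) :=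
      summable_geometric_of_lt_one (norm_nonneg _) hT
    have h2 : Summable (fun k : ℕ => (A * ‖T‖) * ‖T‖ ^ k) := h1.mul_left _
    refine h2.congr ?_
    intro k
    rw [pow_succ]
    ring
  refine Summable.of_norm_bounded hgeo ?_
  intro k
  rw [norm_div, norm_mul, norm_mul, norm_pow, finsum_eq_sum_of_fintype]
  have h3 : ‖∑ s : S, f (g ^ (k + 1) * s)‖ ≤ (Fintype.card S : ℝ) * C := by
    refine (norm_sum_le _ _).trans ?_
    refine (Finset.sum_le_sum (fun s _ => hC _)).trans ?_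
    rw [Finset.sum_const, Finset.card_univ, nsmul_eq_mul]
  have h4 : (1 : ℝ) ≤ ‖((k : ℂ) + 1)‖ := by
    have h5 : ((k : ℂ) + 1) = ((k + 1 : ℕ) : ℂ) := by push_cast; ring
    rw [h5, Complex.norm_natCast]
    have : (1 : ℝ) ≤ ((k + 1 : ℕ) : ℝ) := by
      exact_mod_cast Nat.succ_le_succ (Nat.zero_le k)
    exact this
  have h6 : ‖(Nat.card S : ℂ)⁻¹‖ * ‖∑ s : S, f (g ^ (k + 1) * s)‖ * ‖T‖ ^ (k + 1) ≤
      A * ‖T‖ ^ (k + 1) := by
    refine mul_le_mul_of_nonneg_right ?_ (by positivity)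
    exact mul_le_mul_of_nonneg_left h3 (norm_nonneg _)
  refine (div_le_self (by positivity) h4).trans h6

theorem EE_add (S : Subgroup G) (g : G) (f₁ f₂ : G → ℂ) (T : ℂ) (hT : ‖T‖ < 1) :
    EE S g (fun x => f₁ x + f₂ x) T = EE S g f₁ T * EE S g f₂ T := by
  classical
  haveI : Fintype S := Fintype.ofFinite S
  unfold EE
  rw [← Complex.exp_add, ← (eel_summable S g f₁ T hT).tsum_add (eel_summable S g f₂ T hT)]
  congr 1
  refine tsum_congr ?_
  intro k
  simp only [finsum_eq_sum_of_fintype, Finset.sum_add_distrib]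
  ring

theorem EE_sub (S : Subgroup G) (g : G) (f₁ f₂ : G → ℂ) (T : ℂ) (hT : ‖T‖ < 1) :
    EE S g (fun x => f₁ x - f₂ x) T = EE S g f₁ T * (EE S g f₂ T)⁻¹ := by
  classical
  haveI : Fintype S := Fintype.ofFinite S
  unfold EE
  rw [← Complex.exp_neg, ← Complex.exp_add, ← sub_eq_add_neg,
    ← (eel_summable S g f₁ T hT).tsum_sub (eel_summable S g f₂ T hT)]
  congr 1
  refine tsum_congr ?_
  intro k
  simp only [finsum_eq_sum_of_fintype, Finset.sum_sub_distrib]
  ring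

theorem EE_sum {J : Type*} [Fintype J] (S : Subgroup G) (g : G) (f : J → G → ℂ) (T : ℂ)
    (hT : ‖T‖ < 1) : EE S g (fun x => ∑ j, f j x) T = ∏ j, EE S g (f j) T := by
  classical
  have h : ∀ t : Finset J, EE S g (fun x => ∑ j ∈ t, f j x) T = ∏ j ∈ t, EE S g (f j) T := by
    intro t
    induction t using Finset.induction_on with
    | empty =>
      simp [EE]
    | insert a t ha ih =>
      rw [Finset.prod_insert ha, ← ih]
      have h1 : (fun x => ∑ j ∈ insert a t, f j x) = fun x => f a x + ∑ j ∈ t, f j x := by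
        funext x
        rw [Finset.sum_insert ha]
      rw [h1]
      exact EE_add S g (f a) (fun x => ∑ j ∈ t, f j x) T hT
  exact h Finset.univ

theorem EE_inv (S : Subgroup G) (g : G) (hg : ∀ s ∈ S, g * s * g⁻¹ ∈ S ∧ g⁻¹ * s * g ∈ S)
    (f : G → ℂ) (hinv : ∀ x, f x⁻¹ = f x) (hconj : ∀ x y, f (x * y) = f (y * x)) (T : ℂ) :
    EE S g⁻¹ f T = EE S g f T := by
  classical
  haveI : Fintype S := Fintype.ofFinite S
  unfold EE
  congr 1
  refine tsum_congr ?_
  intro k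
  have h1 : ∑ᶠ s : S, f (g⁻¹ ^ (k + 1) * s) = ∑ᶠ s : S, f (g ^ (k + 1) * s) := by
    rw [finsum_eq_sum_of_fintype, finsum_eq_sum_of_fintype]
    refine Fintype.sum_equiv (Equiv.inv S) _ _ ?_
    intro s
    rw [Equiv.inv_apply, Subgroup.coe_inv, hconj (g ^ (k + 1)), ← hinv (g⁻¹ ^ (k + 1) * s)]
    rw [mul_inv_rev, inv_pow, inv_inv]
  rw [h1]

theorem fH_inv (H : Subgroup G) (x : G) : fH H x⁻¹ = fH H x := by
  unfold fH
  congr 1
  refine Nat.card_congr (Equiv.subtypeEquivRight ?_)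
  intro y
  rw [inv_smul_eq_iff]
  exact eq_comm

theorem fH_comm (H : Subgroup G) (x y : G) : fH H (x * y) = fH H (y * x) := by
  unfold fH
  congr 1
  refine Nat.card_congr ?_
  refine
    { toFun := fun z => ⟨y • z.1, ?_⟩
      invFun := fun z => ⟨x • z.1, ?_⟩
      left_inv := ?_
      right_inv := ?_ }
  · rw [mul_smul, ← mul_smul x y, z.2]
  · rw [mul_smul, ← mul_smul y x, z.2]
  · intro z
    apply Subtype.ext
    change x • y • z.1 = z.1
    rw [← mul_smul, z.2]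
  · intro z
    apply Subtype.ext
    change y • x • z.1 = z.1
    rw [← mul_smul, z.2]

end Pool.Agent.PGZ
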