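import Pool.Agent.PGZ.Defs
import Pool.Agent.helper4.LocalFactor

/-! # PGZ, module HOMB: counting homomorphisms fixed by a power of Frobenius -/

set_option autoImplicit false

noncomputable section

namespace Pool.Agent.PGZ

open Module NumberField

section hombaux

open Polynomial in
/-- Two homomorphisms to a domain which agree on the invariants of a finite group are
conjugate. -/
private theorem homb_conj {A : Type*} [CommRing A] {G : Type*} [Group G] [Finite G]
    [MulSemiringAction G A] {Ω : Type*} [CommRing Ω] [IsDomain Ω] (ψ π : A →+* Ω)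
    (h : ∀ a : A, (∀ g : G, g • a = a) → ψ a = π a) : ∃ g : G, ∀ a, ψ a = π (g • a) := by
  classical
  have := Fintype.ofFinite G
  by_contra hcon
  push Not at hcon
  choose a ha using hcon
  obtain ⟨e, he⟩ : ∃ e : G → ℕ, Function.Injective e :=
    ⟨fun g => ((Fintype.equivFin G) g : ℕ), fun x y hxy =>
      (Fintype.equivFin G).injective (Fin.ext hxy)⟩
  set Q : A[X] := ∑ g : G, C (a g) * X ^ (e g) with hQ
  have hcoef : ∀ g, Q.coeff (e g) = a g := by
    intro g
    rw [hQ, Polynomial.finsetSum_coeff, Finset.sum_eq_single g]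
    · rw [Polynomial.coeff_C_mul, Polynomial.coeff_X_pow, if_pos rfl, mul_one]
    · intro b _ hb
      rw [Polynomial.coeff_C_mul, Polynomial.coeff_X_pow, if_neg, mul_zero]
      exact fun h => hb (he h.symm)
    · intro h
      exact absurd (Finset.mem_univ g) h
  set R : A[X][X] := MulSemiringAction.charpoly G Q with hR
  have hinv : ∀ n m, ψ ((R.coeff n).coeff m) = π ((R.coeff n).coeff m) := by
    intro n m
    apply h
    intro g
    have h1 := MulSemiringAction.smul_coeff_charpoly (G := G) Q n g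
    have h2 := congrArg (fun q => Polynomial.coeff q m) h1
    simpa [Polynomial.coeff_smul] using h2
  have hmap : R.map (Polynomial.mapRingHom ψ) = R.map (Polynomial.mapRingHom π) := by
    ext n m
    rw [Polynomial.coeff_map, Polynomial.coeff_map, Polynomial.coe_mapRingHom,
      Polynomial.coe_mapRingHom, Polynomial.coeff_map, Polynomial.coeff_map]
    exact hinv n m
  have h0 : (R.map (Polynomial.mapRingHom ψ)).eval (Q.map ψ) = 0 := by
    have := MulSemiringAction.eval_charpoly (G := G) Q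
    rw [← hR] at this
    rw [← Polynomial.coe_mapRingHom, Polynomial.eval_map_apply, this, map_zero]
  rw [hmap, hR, MulSemiringAction.charpoly_eq, Polynomial.map_prod, Polynomial.eval_prod,
    Finset.prod_eq_zero_iff] at h0
  obtain ⟨g, -, hg⟩ := h0
  rw [Polynomial.map_sub, Polynomial.map_X, Polynomial.map_C, Polynomial.eval_sub,
    Polynomial.eval_X, Polynomial.eval_C, sub_eq_zero, Polynomial.coe_mapRingHom] at hg
  have := congrArg (fun q => Polynomial.coeff q (e g)) hg
  simp only [Polynomial.coeff_map, hcoef] at this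
  rw [Polynomial.coeff_smul, hcoef] at this
  exact ha g this

/-- A homomorphism to an algebraically closed field extends to an integral extension. -/
private theorem homb_ext {A B : Type*} [CommRing A] [CommRing B] [Algebra A B]
    [Algebra.IsIntegral A B] [FaithfulSMul A B] {Ω : Type*} [Field Ω] [IsAlgClosed Ω]
    (φ : A →+* Ω) : ∃ ψ : B →+* Ω, ψ.comp (algebraMap A B) = φ := by
  have hq : (RingHom.ker φ).IsPrime := RingHom.ker_isPrime φ
  obtain ⟨⟨Q, hQ1, hQ2⟩⟩ := (RingHom.ker φ).nonempty_primesOver (S := B)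
  let : Algebra (A ⧸ RingHom.ker φ) Ω := (RingHom.kerLift φ).toAlgebra
  have : Module.IsTorsionFree (A ⧸ RingHom.ker φ) Ω :=
    Module.isTorsionFree_iff_algebraMap_injective.2 (RingHom.kerLift_injective φ)
  have : Module.IsTorsionFree (A ⧸ RingHom.ker φ) (B ⧸ Q) :=
    Module.isTorsionFree_iff_algebraMap_injective.2
      (FaithfulSMul.algebraMap_injective _ _)
  let l : (B ⧸ Q) →ₐ[A ⧸ RingHom.ker φ] Ω := IsAlgClosed.lift
  refine ⟨(l : (B ⧸ Q) →+* Ω).comp (Ideal.Quotient.mk Q), ?_⟩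
  ext x
  have h1 := l.commutes (Ideal.Quotient.mk _ x)
  exact h1

/-- The elements fixed by the power of Frobenius are in the image of the finite field. -/
private theorem homb_fix {K Ω : Type*} [Field K] [Finite K] [Field Ω] (ι : K →+* Ω) (y : Ω)
    (hy : y ^ Nat.card K = y) : ∃ a, ι a = y := by
  classical
  have := Fintype.ofFinite K
  rw [Nat.card_eq_fintype_card] at hy
  have hq : 1 < Fintype.card K := Fintype.one_lt_card
  set f : Polynomial Ω := Polynomial.X ^ Fintype.card K - Polynomial.X with hf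
  have hf0 : f ≠ 0 := FiniteField.X_pow_card_sub_X_ne_zero Ω hq
  have hdeg : f.natDegree = Fintype.card K := FiniteField.X_pow_card_sub_X_natDegree_eq Ω hq
  have hmem : ∀ z : Ω, z ∈ f.roots.toFinset ↔ z ^ Fintype.card K = z := by
    intro z
    rw [Multiset.mem_toFinset, Polynomial.mem_roots hf0, Polynomial.IsRoot.def, hf,
      Polynomial.eval_sub, Polynomial.eval_pow, Polynomial.eval_X, sub_eq_zero]
  have hsub : Finset.univ.image ι ⊆ f.roots.toFinset := by
    intro z hz
    obtain ⟨a, -, rfl⟩ := Finset.mem_image.1 hz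
    rw [hmem, ← map_pow, FiniteField.pow_card]
  have hcard : f.roots.toFinset.card ≤ (Finset.univ.image ι).card := by
    rw [Finset.card_image_of_injective _ ι.injective, Finset.card_univ, ← hdeg]
    exact (Multiset.toFinset_card_le _).trans (Polynomial.card_roots' f)
  have heq := Finset.eq_of_subset_of_card_le hsub hcard
  have h1 : y ∈ Finset.univ.image ι := by
    rw [heq, hmem]
    exact hy
  obtain ⟨a, -, ha⟩ := Finset.mem_image.1 h1
  exact ⟨a, ha⟩

end hombaux

variable {F : Type} [Field F] [NumberField F] [IsGalois ℚ F] {P : Ideal (𝓞 F)} (hP : P.IsPrime)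
  {p : ℕ} [hp : Fact p.Prime] (hpP : ((p : ℕ) : 𝓞 F) ∈ P)

private theorem homb_int (a : 𝓞 F) (ha : ∀ g : F ≃ₐ[ℚ] F, g • a = a) : ∃ n : ℤ, (n : 𝓞 F) = a := by
  have h1 : (a : F) ∈ (⊥ : IntermediateField ℚ F) := by
    rw [← IsGalois.fixedField_top (F := ℚ) (E := F)]
    intro g
    exact congrArg (fun x : 𝓞 F => (x : F)) (ha g)
  obtain ⟨q, hq⟩ := IntermediateField.mem_bot.1 h1
  have h2 : IsIntegral ℤ q := by
    have h3 : IsIntegral ℤ (algebraMap ℚ F q) := hq ▸ a.isIntegral_coe
    exact (isIntegral_algebraMap_iff (algebraMap ℚ F).injective).1 h3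
  obtain ⟨n, hn⟩ := IsIntegrallyClosed.isIntegral_iff.1 h2
  refine ⟨n, ?_⟩
  ext
  rw [← hq, ← hn]
  simp

/-- Every homomorphism to an algebraically closed extension of the residue field has values in the
residue field. -/
private theorem homb_range [Field (𝓞 F ⧸ P)] (π' : 𝓞 F →+* 𝓞 F ⧸ P) {Ω : Type*} [Field Ω]
    [IsAlgClosed Ω] (j : 𝓞 F ⧸ P →+* Ω) (H : Subgroup (F ≃ₐ[ℚ] F)) (φ : 𝓞 (KH H) →+* Ω) :
    ∃ φ' : 𝓞 (KH H) →+* 𝓞 F ⧸ P, j.comp φ' = φ := by
  obtain ⟨ψ, hψ⟩ := homb_ext (B := 𝓞 F) φ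
  obtain ⟨g, hg⟩ := homb_conj (G := F ≃ₐ[ℚ] F) ψ (j.comp π') (by
      intro a ha
      obtain ⟨n, rfl⟩ := homb_int a ha
      rw [← eq_intCast (algebraMap ℤ (𝓞 F)), ← RingHom.comp_apply, ← RingHom.comp_apply]
      congr 1
      exact RingHom.ext_int _ _)
  refine ⟨π'.comp ((MulSemiringAction.toRingHom (F ≃ₐ[ℚ] F) (𝓞 F) g).comp
    (algebraMap (𝓞 (KH H)) (𝓞 F))), ?_⟩
  ext x
  have h1 := DFunLike.congr_fun hψ x
  have h2 := hg (algebraMap (𝓞 (KH H)) (𝓞 F) x)
  exact h2.symm.trans h1

include hP hpP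

theorem card_hom_frob (H : Subgroup (F ≃ₐ[ℚ] F)) (k : ℕ) (hk : 0 < k) :
    Nat.card {φ : 𝓞 (KH H) →+* 𝓞 F ⧸ P // ∀ x, φ x ^ p ^ k = φ x} =
      Nat.card (𝓞 (KH H) →+* GaloisField p k) := by
  classical
  have hP0 : P ≠ ⊥ := by
    rintro rfl
    rw [Ideal.mem_bot, Nat.cast_eq_zero] at hpP
    exact hp.out.ne_zero hpP
  have hmax : P.IsMaximal := hP.isMaximal hP0
  have hcharP : CharP (𝓞 F ⧸ P) p := by
    have : Nontrivial (𝓞 F ⧸ P) := Ideal.Quotient.nontrivial_iff.mpr hP.ne_top
    rw [CharP.charP_iff_prime_eq_zero hp.out]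
    have := Ideal.Quotient.eq_zero_iff_mem.mpr hpP
    simpa using this
  let π' : 𝓞 F →+* 𝓞 F ⧸ P := Ideal.Quotient.mk P
  let : Field (𝓞 F ⧸ P) := Ideal.Quotient.field P
  let Ω := AlgebraicClosure (𝓞 F ⧸ P)
  let j : 𝓞 F ⧸ P →+* Ω := algebraMap _ _
  have : CharP Ω p := charP_of_injective_ringHom j.injective p
  let : Algebra (ZMod p) Ω := ZMod.algebra Ω p
  let ι : GaloisField p k →+* Ω := (IsAlgClosed.lift : GaloisField p k →ₐ[ZMod p] Ω)
  have hcard : Nat.card (GaloisField p k) = p ^ k := GaloisField.card p k hk.ne'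
  have hfix : ∀ y : Ω, y ^ p ^ k = y → ∃ a, ι a = y := by
    intro y hy
    rw [← hcard] at hy
    exact homb_fix ι y hy
  have hpow : ∀ a : GaloisField p k, a ^ p ^ k = a := by
    intro a
    have := Fintype.ofFinite (GaloisField p k)
    rw [← hcard, Nat.card_eq_fintype_card]
    exact FiniteField.pow_card a
  have e1 : Nat.card {φ : 𝓞 (KH H) →+* 𝓞 F ⧸ P // ∀ x, φ x ^ p ^ k = φ x} =
      Nat.card {φ : 𝓞 (KH H) →+* Ω // ∀ x, φ x ^ p ^ k = φ x} := by
    refine Nat.card_eq_of_bijective (fun φ => ⟨j.comp φ.1, fun x => ?_⟩) ⟨?_, ?_⟩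
    · rw [RingHom.comp_apply, ← map_pow, φ.2]
    · rintro ⟨φ, h⟩ ⟨φ', h'⟩ heq
      have h1 : j.comp φ = j.comp φ' := congrArg Subtype.val heq
      apply Subtype.ext
      ext x
      apply j.injective
      exact DFunLike.congr_fun h1 x
    · rintro ⟨φ, h⟩
      obtain ⟨φ', hφ'⟩ := homb_range (P := P) π' j H φ
      refine ⟨⟨φ', fun x => ?_⟩, Subtype.ext hφ'⟩
      apply j.injective
      have h1 := DFunLike.congr_fun hφ' x
      rw [RingHom.comp_apply] at h1
      rw [map_pow, h1, h x]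
  have e2 : Nat.card (𝓞 (KH H) →+* GaloisField p k) =
      Nat.card {φ : 𝓞 (KH H) →+* Ω // ∀ x, φ x ^ p ^ k = φ x} := by
    refine Nat.card_eq_of_bijective (fun φ => ⟨ι.comp φ, fun x => ?_⟩) ⟨?_, ?_⟩
    · rw [RingHom.comp_apply, ← map_pow, hpow]
    · intro φ φ' heq
      have h1 : ι.comp φ = ι.comp φ' := congrArg Subtype.val heq
      ext x
      apply ι.injective
      exact DFunLike.congr_fun h1 x
    · rintro ⟨φ, h⟩
      have h1 : ∀ x, φ x ∈ ι.fieldRange := fun x => by
        obtain ⟨a, ha⟩ := hfix _ (h x)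
        exact ⟨a, ha⟩
      let φ1 : 𝓞 (KH H) →+* ι.fieldRange := φ.codRestrict ι.fieldRange h1
      let e : GaloisField p k ≃+* ι.fieldRange :=
        RingEquiv.ofBijective ι.rangeRestrictField
          ⟨ι.rangeRestrictField.injective, by
            rintro ⟨_, a, rfl⟩
            exact ⟨a, rfl⟩⟩
      refine ⟨(e.symm : ι.fieldRange →+* GaloisField p k).comp φ1, Subtype.ext ?_⟩
      ext x
      have h2 : e (e.symm (φ1 x)) = φ1 x := e.apply_symm_apply _
      exact congrArg Subtype.val h2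
  rw [e1, e2]

end Pool.Agent.PGZ
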