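import Pool.Agent.PGZ.HOMA
import Pool.Agent.PGZ.HOMB

/-! # PGZ, module HOMC: double cosets and homomorphisms to finite fields -/

set_option autoImplicit false

noncomputable section

namespace Pool.Agent.PGZ

open Module NumberField

/-- The counting argument: `I` acts on `X`, the fibres of `Ψ` are the orbits, and `t` induces the
injective map `fr`. -/
private theorem HOMC_count {I X Y : Type*} [Group I] [Finite I] [Finite X] [MulAction I X]
    (t : Equiv.Perm X) (Ψ : X → Y) (hsurj : Function.Surjective Ψ)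
    (hfib : ∀ x y, Ψ x = Ψ y ↔ ∃ i : I, y = i • x) (fr : Y → Y) (hinj : Function.Injective fr)
    (ht : ∀ x, Ψ (t x) = fr (Ψ x)) :
    ∑ᶠ i : I, Nat.card {x : X // t (i • x) = x} = Nat.card I * Nat.card {y : Y // fr y = y} := by
  classical
  have fI : Fintype I := Fintype.ofFinite I
  have fX : Fintype X := Fintype.ofFinite X
  have hY : Finite Y := Finite.of_surjective Ψ hsurj
  have fY : Fintype Y := Fintype.ofFinite Y
  rw [finsum_eq_sum_of_fintype]
  simp_rw [Nat.card_eq_fintype_card, Fintype.card_subtype, Finset.card_filter]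
  rw [Finset.sum_comm, ← Finset.sum_fiberwise Finset.univ Ψ, Finset.mul_sum]
  refine Finset.sum_congr rfl fun y _ => ?_
  by_cases hy : fr y = y
  · rw [if_pos hy, mul_one]
    set S : Finset X := {x | Ψ x = y} with hS
    have hpos : 0 < S.card := by
      obtain ⟨x, hx⟩ := hsurj y
      exact Finset.card_pos.2 ⟨x, by simp [hS, hx]⟩
    have key : ∀ x ∈ S, (∑ i : I, if t (i • x) = x then 1 else 0) * S.card = Fintype.card I := by
      intro x hx
      have hx' : Ψ x = y := by simpa [hS] using hx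
      have h1 : Ψ (t.symm x) = Ψ x := by
        apply hinj
        rw [← ht, Equiv.apply_symm_apply, hx', hy]
      obtain ⟨j, hj⟩ := (hfib x (t.symm x)).1 h1.symm
      rw [← MulAction.card_orbit_mul_card_stabilizer_eq_card_group I x, mul_comm]
      congr 1
      · rw [← Set.toFinset_card]
        congr 1
        ext z
        rw [Set.mem_toFinset, hS, Finset.mem_filter, MulAction.mem_orbit_iff, ← hx', eq_comm,
          hfib x z]
        simp only [Finset.mem_univ, true_and]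
        constructor
        · rintro ⟨i, rfl⟩
          exact ⟨i, rfl⟩
        · rintro ⟨i, hi⟩
          exact ⟨i, hi.symm⟩
      · rw [← Finset.card_filter, ← Fintype.card_subtype]
        refine Fintype.card_congr ⟨fun i => ⟨j⁻¹ * i.1, ?_⟩, fun i => ⟨j * i.1, ?_⟩, ?_, ?_⟩
        · rw [MulAction.mem_stabilizer_iff, mul_smul]
          have h2 : i.1 • x = t.symm x := by
            rw [Equiv.eq_symm_apply]
            exact i.2
          rw [h2, hj, inv_smul_smul]
        · have h2 : i.1 • x = x := i.2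
          rw [mul_smul, h2, ← hj, Equiv.apply_symm_apply]
        · intro i
          simp
        · intro i
          simp
    have h2 : (∑ x ∈ S, ∑ i : I, if t (i • x) = x then 1 else 0) * S.card
        = Fintype.card I * S.card := by
      rw [Finset.sum_mul, Finset.sum_congr rfl key, Finset.sum_const, smul_eq_mul, mul_comm]
    exact Nat.eq_of_mul_eq_mul_right hpos h2
  · rw [if_neg hy, mul_zero]
    refine Finset.sum_eq_zero fun x hx => Finset.sum_eq_zero fun i _ => ?_
    have hx' : Ψ x = y := by simpa using hx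
    rw [if_neg]
    intro h
    apply hy
    rw [← hx']
    conv_rhs => rw [← h]
    rw [ht]
    congr 1
    exact (hfib x (i • x)).2 ⟨i, rfl⟩

variable {F : Type} [Field F] [NumberField F] [IsGalois ℚ F] {P : Ideal (𝓞 F)} (hP : P.IsPrime)
  {p : ℕ} [hp : Fact p.Prime] (hpP : ((p : ℕ) : 𝓞 F) ∈ P)

include hP hpP

theorem hom_count {σ : F ≃ₐ[ℚ] F} (hσ : IsArithFrobAt ℤ σ P) (H : Subgroup (F ≃ₐ[ℚ] F)) (k : ℕ)
    (hk : 0 < k) :
    (Nat.card (P.inertia (F ≃ₐ[ℚ] F)) : ℂ) * (Nat.card (𝓞 (KH H) →+* GaloisField p k) : ℂ) =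
      ∑ᶠ i : P.inertia (F ≃ₐ[ℚ] F), fH H (σ ^ k * i) := by
  classical
  have hdom : IsDomain (𝓞 F ⧸ P) := Ideal.Quotient.isDomain P
  have hchar : CharP (𝓞 F ⧸ P) p := by
    rw [CharP.charP_iff_prime_eq_zero hp.out]
    have := Ideal.Quotient.eq_zero_iff_mem.2 hpP
    rwa [map_natCast] at this
  -- the map on cosets
  have hwd : ∀ g g' : F ≃ₐ[ℚ] F, QuotientGroup.leftRel H g g' → Phi P H g = Phi P H g' := by
    intro g g' hgg
    rw [QuotientGroup.leftRel_apply] at hgg
    refine (Phi_fiber hP hp.out hpP H g g').2 ⟨1, one_mem _, g⁻¹ * g', hgg, by group⟩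
  let Ψ : (F ≃ₐ[ℚ] F) ⧸ H → (𝓞 (KH H) →+* 𝓞 F ⧸ P) := Quotient.lift (Phi P H) hwd
  have hΨ : ∀ g : F ≃ₐ[ℚ] F, Ψ (g : (F ≃ₐ[ℚ] F) ⧸ H) = Phi P H g := fun g => rfl
  have hsurj : Function.Surjective Ψ := by
    intro φ
    obtain ⟨g, hg⟩ := Phi_surj hP hp.out hpP H φ
    exact ⟨(g : (F ≃ₐ[ℚ] F) ⧸ H), by rw [hΨ, hg]⟩
  have hfib : ∀ x y, Ψ x = Ψ y ↔ ∃ i : P.inertia (F ≃ₐ[ℚ] F), y = i • x := by
    intro x y
    induction x using QuotientGroup.induction_on with
    | H g =>
      induction y using QuotientGroup.induction_on with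
      | H g' =>
        rw [hΨ, hΨ, Phi_fiber hP hp.out hpP H g g']
        constructor
        · rintro ⟨i, hi, h, hh, rfl⟩
          refine ⟨⟨i, hi⟩, ?_⟩
          change ((i * g * h : F ≃ₐ[ℚ] F) : (F ≃ₐ[ℚ] F) ⧸ H) = ((i * g : F ≃ₐ[ℚ] F) : _ ⧸ H)
          rw [QuotientGroup.eq]
          have : (i * g * h)⁻¹ * (i * g) = h⁻¹ := by group
          rw [this]
          exact inv_mem hh
        · rintro ⟨i, hi⟩
          change ((g' : F ≃ₐ[ℚ] F) : (F ≃ₐ[ℚ] F) ⧸ H) = ((i.1 * g : F ≃ₐ[ℚ] F) : _ ⧸ H) at hi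
          rw [eq_comm, QuotientGroup.eq] at hi
          exact ⟨i.1, i.2, _, hi, by group⟩
  let fr : (𝓞 (KH H) →+* 𝓞 F ⧸ P) → (𝓞 (KH H) →+* 𝓞 F ⧸ P) := fun φ =>
    (iterateFrobenius (𝓞 F ⧸ P) p k).comp φ
  have hinj : Function.Injective fr := by
    intro φ ψ h
    refine RingHom.ext fun x => ?_
    have h1 := RingHom.congr_fun h x
    exact iterateFrobenius_inj (𝓞 F ⧸ P) p k h1
  have ht : ∀ x, Ψ (MulAction.toPerm (σ ^ k) x) = fr (Ψ x) := by
    intro x
    induction x using QuotientGroup.induction_on with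
    | H g =>
      refine RingHom.ext fun x => ?_
      have h1 := Phi_frob hP hp.out hpP hσ H k g x
      exact h1
  have key := HOMC_count (I := P.inertia (F ≃ₐ[ℚ] F)) (MulAction.toPerm (σ ^ k)) Ψ hsurj hfib fr
    hinj ht
  have h1 : Nat.card {y : 𝓞 (KH H) →+* 𝓞 F ⧸ P // fr y = y} =
      Nat.card (𝓞 (KH H) →+* GaloisField p k) := by
    rw [← card_hom_frob hP hpP H k hk]
    refine Nat.card_congr (Equiv.subtypeEquivRight fun φ => ?_)
    constructor
    · intro h x
      exact RingHom.congr_fun h x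
    · intro h
      exact RingHom.ext h
  rw [h1] at key
  have h2 := congrArg (Nat.cast : ℕ → ℂ) key
  rw [Nat.cast_mul] at h2
  rw [← h2]
  rw [finsum_eq_sum_of_fintype, finsum_eq_sum_of_fintype, Nat.cast_sum]
  refine Finset.sum_congr rfl fun i _ => ?_
  unfold fH
  congr 1
  refine Nat.card_congr (Equiv.subtypeEquivRight fun x => ?_)
  induction x using QuotientGroup.induction_on with
  | H g =>
    change ((σ ^ k * (i.1 * g) : F ≃ₐ[ℚ] F) : (F ≃ₐ[ℚ] F) ⧸ H) = (g : _ ⧸ H) ↔
      ((σ ^ k * i.1 * g : F ≃ₐ[ℚ] F) : (F ≃ₐ[ℚ] F) ⧸ H) = (g : _ ⧸ H)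
    rw [mul_assoc]

end Pool.Agent.PGZ
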