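import Pool.Agent.PGZ.HOMC
import Pool.Agent.helper4.QuadData

/-! # PGZ, module DEDL: Euler factors of Dedekind zeta functions -/

set_option autoImplicit false

noncomputable section

namespace Pool.Agent.PGZ

open Module NumberField

private theorem dedl_hasSum {z : ℂ} (hz : ‖z‖ < 1) :
    HasSum (fun k : ℕ => z ^ (k + 1) / ((k : ℂ) + 1)) (-Complex.log (1 - z)) := by
  have h1 := Complex.hasSum_taylorSeries_neg_log hz
  have h2 := (hasSum_nat_add_iff' (f := fun n : ℕ => z ^ n / (n : ℂ)) 1).2 h1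
  simpa using h2

private theorem dedl_multiset (S : Multiset ℂ) (T : ℂ) (hT : ‖T‖ < 1) (hS : ∀ α ∈ S, ‖α‖ = 1) :
    ∃ a : ℂ, HasSum (fun k : ℕ => (S.map (fun α => α ^ (k + 1))).sum * T ^ (k + 1) / ((k : ℂ) + 1))
      a ∧ (S.map (fun α => (1 - α * T)⁻¹)).prod = Complex.exp a := by
  induction S using Multiset.induction_on with
  | empty =>
    refine ⟨0, ?_, by simp⟩
    simp only [Multiset.map_zero, Multiset.sum_zero, zero_mul, zero_div]
    exact hasSum_zero
  | cons α S ih =>
    obtain ⟨a, ha, he⟩ := ih (fun β hβ => hS β (Multiset.mem_cons_of_mem hβ))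
    have hα : ‖α‖ = 1 := hS α (Multiset.mem_cons_self α S)
    have hz : ‖α * T‖ < 1 := by rw [norm_mul, hα, one_mul]; exact hT
    refine ⟨-Complex.log (1 - α * T) + a, ?_, ?_⟩
    · have h1 := (dedl_hasSum hz).add ha
      refine h1.congr_fun ?_ |> id
      intro k
      simp only [Multiset.map_cons, Multiset.sum_cons]
      rw [mul_pow]
      ring
    · have h0 : (1 : ℂ) - α * T ≠ 0 := by
        intro h
        have : α * T = 1 := (sub_eq_zero.1 h).symm
        rw [this, norm_one] at hz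
        exact lt_irrefl _ hz
      rw [Multiset.map_cons, Multiset.prod_cons, he, Complex.exp_add, Complex.exp_neg,
        Complex.exp_log h0]

variable {F : Type} [Field F] [NumberField F] [IsGalois ℚ F] {P : Ideal (𝓞 F)} (hP : P.IsPrime)
  {p : ℕ} (hp : p.Prime) (hpP : ((p : ℕ) : 𝓞 F) ∈ P)

include hP hp hpP

/-- For every prime `p` (ramified or not) the Euler factor at `p` of the zeta function of the
fixed field of `H` is that of the permutation character of `G / H`. -/
theorem zl_eq_EE {σ : F ≃ₐ[ℚ] F} (hσ : IsArithFrobAt ℤ σ P) (H : Subgroup (F ≃ₐ[ℚ] F)) {s : ℂ}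
    (hs : 0 < s.re) :
    Helper4.zl (KH H) s p = EE (P.inertia (F ≃ₐ[ℚ] F)) σ (fH H) ((p : ℂ) ^ (-s)) := by
  have hpf : Fact p.Prime := ⟨hp⟩
  have hT : ‖(p : ℂ) ^ (-s)‖ < 1 := by
    rw [Complex.norm_natCast_cpow_of_pos hp.pos, Complex.neg_re]
    exact Real.rpow_lt_one_of_one_lt_of_neg (by exact_mod_cast hp.one_lt) (by linarith)
  obtain ⟨a, ha, he⟩ := dedl_multiset (Helper4.specF (KH H) p (fun _ => 1)) ((p : ℂ) ^ (-s)) hT
    (fun α hα => Helper4.norm_of_mem_specF hp (fun _ _ => norm_one) hα)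
  have h1 : Helper4.zl (KH H) s p = Complex.exp a := by
    rw [← he, Helper4.prod_specF hp]
    unfold Helper4.zl
    congr 1
    funext q
    rw [one_mul]
  rw [h1, EE]
  congr 1
  rw [← ha.tsum_eq]
  apply tsum_congr
  intro k
  have hc : (Nat.card (P.inertia (F ≃ₐ[ℚ] F)) : ℂ) ≠ 0 := by
    exact_mod_cast Nat.card_pos.ne'
  have h2 := hom_count (p := p) hP hpP hσ H (k + 1) (Nat.succ_pos k)
  have h3 := Helper4.sum_pow_specF_one (K := KH H) hp (GaloisField p (k + 1)) (k + 1)
    (GaloisField.card p (k + 1) (Nat.succ_ne_zero k))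
  rw [h3, ← h2]
  field_simp

end Pool.Agent.PGZ
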