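import Pool.Agent.PGZ.Defs

/-! # PGZ, module INVT: traces on invariants -/

set_option autoImplicit false

noncomputable section

namespace Pool.Agent.PGZ

open Module

theorem trace_fixS {G : Type*} [Group G] [Finite G] {Λ : Type*} [AddCommGroup Λ]
    [DistribMulAction G Λ] [Module.Free ℤ Λ] [Module.Finite ℤ Λ] (S : Subgroup G) (g : G)
    (h : ∀ x ∈ fixS Λ S, act Λ g x ∈ fixS Λ S) :
    (Nat.card S : ℤ) * LinearMap.trace ℤ (fixS Λ S) ((act Λ g).restrict h) =
      ∑ᶠ s : S, LinearMap.trace ℤ Λ (act Λ (g * s)) := by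
  classical
  haveI : Fintype S := Fintype.ofFinite S
  rw [finsum_eq_sum_of_fintype]
  let E : Λ →ₗ[ℤ] Λ := ∑ s : S, act Λ (s : G)
  have hE : ∀ x, E x = ∑ s : S, (s : G) • x := by
    intro x
    simp [E]
  have hEf : ∀ x, E x ∈ fixS Λ S := by
    intro x t ht
    rw [hE, Finset.smul_sum]
    have h1 : ∀ s : S, t • ((s : G) • x) = (((⟨t, ht⟩ : S) * s : S) : G) • x := by
      intro s
      rw [smul_smul]
      rfl
    simp only [h1]
    exact Fintype.sum_equiv (Equiv.mulLeft (⟨t, ht⟩ : S)) _ _ (fun s => rfl)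
  let E' : Λ →ₗ[ℤ] fixS Λ S := E.codRestrict (fixS Λ S) hEf
  have hA : (fixS Λ S).subtype ∘ₗ E' = E := by
    ext x
    rfl
  have hB : E' ∘ₗ (act Λ g ∘ₗ (fixS Λ S).subtype) =
      (Nat.card S : ℤ) • (act Λ g).restrict h := by
    ext x
    have h1 : ∀ s : S, (s : G) • (g • (x : Λ)) = g • (x : Λ) := by
      intro s
      exact (h x.1 x.2) s.1 s.2
    simp only [LinearMap.comp_apply, LinearMap.smul_apply, Submodule.coe_smul]
    change E (act Λ g (x : Λ)) = (Nat.card S : ℤ) • (act Λ g (x : Λ))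
    rw [hE, act_apply]
    simp only [h1, Finset.sum_const, Finset.card_univ, Nat.card_eq_fintype_card]
    simp
  have hC : LinearMap.trace ℤ Λ ((act Λ g ∘ₗ (fixS Λ S).subtype) ∘ₗ E') =
      LinearMap.trace ℤ (fixS Λ S) (E' ∘ₗ (act Λ g ∘ₗ (fixS Λ S).subtype)) :=
    LinearMap.trace_comp_comm' _ _
  rw [hB, map_smul, smul_eq_mul, LinearMap.comp_assoc, hA] at hC
  rw [← hC]
  have hD : act Λ g ∘ₗ E = ∑ s : S, act Λ (g * (s : G)) := by
    ext x
    simp only [LinearMap.comp_apply, hE, act_apply, LinearMap.sum_apply, Finset.smul_sum]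
    refine Finset.sum_congr rfl ?_
    intro s _
    rw [smul_smul]
  rw [hD, map_sum]

end Pool.Agent.PGZ
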