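import Pool.Agent.PGZ.TRD
import Pool.Agent.PGZ.INVT

/-! # PGZ, module LOC: the Euler factor of a lattice in terms of its character -/

set_option autoImplicit false

noncomputable section

namespace Pool.Agent.PGZ

open Module

private theorem LOC_act_pow {G : Type*} [Group G] {Λ : Type*} [AddCommGroup Λ]
    [DistribMulAction G Λ] (g : G) (n : ℕ) : (act Λ g) ^ n = act Λ (g ^ n) := by
  induction n with
  | zero =>
    ext x
    simp
  | succ n ih =>
    ext x
    rw [pow_succ', ih, Module.End.mul_apply, act_apply, act_apply, act_apply, smul_smul, pow_succ']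

private theorem LOC_mem {G : Type*} [Group G] {Λ : Type*} [AddCommGroup Λ]
    [DistribMulAction G Λ] (S : Subgroup G) (g : G)
    (h : ∀ x ∈ fixS Λ S, act Λ g x ∈ fixS Λ S) (n : ℕ) :
    ∀ x ∈ fixS Λ S, act Λ (g ^ n) x ∈ fixS Λ S := by
  induction n with
  | zero =>
    intro x hx
    rw [pow_zero, act_apply, one_smul]
    exact hx
  | succ n ih =>
    intro x hx
    rw [pow_succ', act_apply, ← smul_smul]
    exact h _ (ih x hx)

private theorem LOC_restrict_pow {G : Type*} [Group G] {Λ : Type*} [AddCommGroup Λ]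
    [DistribMulAction G Λ] (S : Subgroup G) (g : G)
    (h : ∀ x ∈ fixS Λ S, act Λ g x ∈ fixS Λ S) (n : ℕ) :
    ((act Λ g).restrict h) ^ n = (act Λ (g ^ n)).restrict (LOC_mem S g h n) := by
  ext x
  rw [Module.End.pow_restrict, LinearMap.coe_restrict_apply, LinearMap.coe_restrict_apply,
    LOC_act_pow]

theorem locDet_eq {G : Type*} [Group G] [Finite G] {Λ : Type*} [AddCommGroup Λ]
    [DistribMulAction G Λ] [Module.Free ℤ Λ] [Module.Finite ℤ Λ] (S : Subgroup G) (g : G)
    (h : ∀ x ∈ fixS Λ S, act Λ g x ∈ fixS Λ S) (T : ℂ) (hT : ‖T‖ < 1) :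
    (locDet Λ S g h T)⁻¹ =
      EE S g (fun x => ((LinearMap.trace ℤ Λ (act Λ x) : ℤ) : ℂ)) T := by
  have hpow : ∀ n : ℕ, (((act Λ g).restrict h).baseChange ℂ) ^ n =
      ((act Λ (g ^ n)).restrict (LOC_mem S g h n)).baseChange ℂ := by
    intro n
    rw [← LOC_restrict_pow, LinearMap.baseChange_pow]
  have h1 : (((act Λ g).restrict h).baseChange ℂ) ^ (Nat.card G) = 1 := by
    rw [← LinearMap.baseChange_pow]
    have : ((act Λ g).restrict h) ^ (Nat.card G) = 1 := by
      rw [LOC_restrict_pow]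
      ext x
      rw [LinearMap.coe_restrict_apply, act_apply, pow_card_eq_one', one_smul]
      rfl
    rw [this, Module.End.one_eq_id, LinearMap.baseChange_id]
    rfl
  rw [locDet, det1, detC, det_exp _ (Nat.card G) Nat.card_pos h1 T hT, EE]
  congr 1
  refine tsum_congr fun k => ?_
  congr 2
  rw [hpow, LinearMap.trace_baseChange]
  have h2 := trace_fixS S (g ^ (k + 1)) (LOC_mem S g h (k + 1))
  have h3 : ((Nat.card S : ℤ) : ℂ) ≠ 0 := by
    have : Nat.card S ≠ 0 := Nat.card_pos.ne'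
    exact_mod_cast this
  have h4 := congrArg (fun z : ℤ => (z : ℂ)) h2
  simp only [Int.cast_mul] at h4
  have h5 : ((∑ᶠ s : S, LinearMap.trace ℤ Λ (act Λ (g ^ (k + 1) * s)) : ℤ) : ℂ) =
      ∑ᶠ s : S, ((LinearMap.trace ℤ Λ (act Λ (g ^ (k + 1) * s)) : ℤ) : ℂ) := by
    have : Fintype S := Fintype.ofFinite S
    rw [finsum_eq_sum_of_fintype, finsum_eq_sum_of_fintype, Int.cast_sum]
  rw [h5] at h4
  rw [← h4, eq_inv_mul_iff_mul_eq₀ (by exact_mod_cast h3)]
  simp
end Pool.Agent.PGZ
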