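import Pool.Agent.PGZ.Defs
import Pool.Agent.helper4.QuadData

/-! # PGZ, module QUADP: quotients of zeta functions for subgroups of index two -/

set_option autoImplicit false

noncomputable section

namespace Pool.Agent.PGZ

open Module NumberField

/-- A quadratic extension of number fields is generated by a square root. -/
private theorem QUADP_isQuad (K M : Type) [Field K] [NumberField K] [Field M] [NumberField M]
    [Algebra K M] (h2 : finrank K M = 2) :
    ∃ (d : 𝓞 K) (δ : 𝓞 M), Helper4.IsQuad d δ := by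
  have hfin : FiniteDimensional K M := Module.finite_of_finrank_eq_succ h2
  have hcM : CharZero M := inferInstance
  -- an element outside `K`
  obtain ⟨x, hx⟩ : ∃ x : M, ∀ a : K, algebraMap K M a ≠ x := by
    by_contra hcon
    push Not at hcon
    have hbt : (⊥ : Subalgebra K M) = ⊤ := by
      rw [eq_top_iff]
      intro x _
      obtain ⟨a, ha⟩ := hcon x
      exact Algebra.mem_bot.2 ⟨a, ha⟩
    have := Subalgebra.bot_eq_top_iff_finrank_eq_one.1 hbt
    omega
  -- `x ^ 2 = b + a x`
  obtain ⟨a, b, hab⟩ : ∃ a b : K, x ^ 2 = algebraMap K M b + algebraMap K M a * x := by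
    have hli : LinearIndependent K ![(1 : M), x] := by
      rw [LinearIndependent.pair_iff]
      intro s t hst
      rw [Algebra.smul_def, Algebra.smul_def, mul_one] at hst
      by_cases ht : t = 0
      · subst ht
        rw [map_zero, zero_mul, add_zero, map_eq_zero] at hst
        exact ⟨hst, rfl⟩
      · exfalso
        apply hx (-(s / t))
        have ht' : algebraMap K M t ≠ 0 := by rwa [Ne, map_eq_zero]
        rw [map_neg, map_div₀]
        field_simp
        linear_combination -hst
    let bs : Basis (Fin 2) K M :=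
      basisOfLinearIndependentOfCardEqFinrank hli (by rw [Fintype.card_fin, h2])
    refine ⟨bs.repr (x ^ 2) 1, bs.repr (x ^ 2) 0, ?_⟩
    conv_lhs => rw [← bs.sum_repr (x ^ 2)]
    have b0 : bs 0 = 1 := by simp [bs]
    have b1 : bs 1 = x := by simp [bs]
    rw [Fin.sum_univ_two, b0, b1, Algebra.smul_def, Algebra.smul_def, mul_one]
  -- complete the square
  set y : M := 2 * x - algebraMap K M a with hy
  have hysq : y ^ 2 = algebraMap K M (a ^ 2 + 4 * b) := by
    rw [hy, map_add, map_pow, map_mul, map_ofNat]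
    linear_combination 4 * hab
  have hyn : ∀ c : K, algebraMap K M c ≠ y := by
    intro c hc
    apply hx ((c + a) / 2)
    rw [map_div₀, map_add, map_ofNat, hc, hy]
    ring
  -- clear denominators
  have halg : IsAlgebraic ℤ (a ^ 2 + 4 * b) :=
    (IsFractionRing.isAlgebraic_iff ℤ ℚ K).2 (Algebra.IsAlgebraic.isAlgebraic _)
  obtain ⟨m, hm, hmint⟩ := halg.exists_integral_multiple
  have hdint : IsIntegral ℤ ((m : K) ^ 2 * (a ^ 2 + 4 * b)) := by
    have h1 : (m : K) ^ 2 * (a ^ 2 + 4 * b) = m • (m • (a ^ 2 + 4 * b)) := by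
      rw [zsmul_eq_mul, zsmul_eq_mul]
      ring
    rw [h1]
    exact hmint.smul m
  have hδint : IsIntegral ℤ ((m : M) * y) := by
    apply IsIntegral.of_pow (n := 2) two_pos
    have h1 : ((m : M) * y) ^ 2 = algebraMap K M ((m : K) ^ 2 * (a ^ 2 + 4 * b)) := by
      rw [mul_pow, hysq, map_mul, map_pow, map_intCast]
    rw [h1]
    exact hdint.map (algebraMap K M).toIntAlgHom
  refine ⟨⟨(m : K) ^ 2 * (a ^ 2 + 4 * b), hdint⟩, ⟨(m : M) * y, hδint⟩, ⟨?_, h2, ?_⟩⟩
  · change ((m : M) * y) ^ 2 = algebraMap K M ((m : K) ^ 2 * (a ^ 2 + 4 * b))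
    rw [mul_pow, hysq, map_mul, map_pow, map_intCast]
  · intro c hc
    change algebraMap K M c = (m : M) * y at hc
    have hmM : (m : M) ≠ 0 := Int.cast_ne_zero.2 hm
    apply hyn (c / (m : K))
    rw [map_div₀, map_intCast, hc]
    field_simp

variable {F : Type} [Field F] [NumberField F] [IsGalois ℚ F]

theorem quad_pair (H₂ H₃ : Subgroup (F ≃ₐ[ℚ] F)) (hle : H₃ ≤ H₂) (hi : H₃.relIndex H₂ = 2) :
    ∃ D : ℂ → ℂ, Differentiable ℂ D ∧ ∀ s : ℂ, 1 < s.re →
      HasProd (fun p : Nat.Primes => Helper4.zl (KH H₃) s p * (Helper4.zl (KH H₂) s p)⁻¹)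
        (D s) := by
  have hle' : IntermediateField.fixedField H₂ ≤ IntermediateField.fixedField H₃ :=
    IntermediateField.fixedField_antitone hle
  let _ : Algebra (KH H₂) (KH H₃) := (IntermediateField.inclusion hle').toAlgebra
  have : IsScalarTower ℚ (KH H₂) (KH H₃) := IsScalarTower.of_algebraMap_eq' rfl
  have h2 : finrank (KH H₂) (KH H₃) = 2 := by
    have t1 := Module.finrank_mul_finrank ℚ (KH H₂) (KH H₃)
    have t2 : ∀ H : Subgroup (F ≃ₐ[ℚ] F), finrank ℚ (KH H) = H.index := by
      intro H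
      have s1 := Module.finrank_mul_finrank ℚ (KH H) F
      have s2 : finrank (KH H) F = Nat.card H :=
        IntermediateField.finrank_fixedField_eq_card H
      have s3 : finrank ℚ F = Nat.card (F ≃ₐ[ℚ] F) :=
        (IsGalois.card_aut_eq_finrank ℚ F).symm
      have s4 := H.index_mul_card
      have s5 : 0 < Nat.card H := Nat.card_pos
      rw [s2, s3, ← s4] at s1
      exact Nat.eq_of_mul_eq_mul_right s5 s1
    rw [t2, t2] at t1
    have t3 := Subgroup.relIndex_mul_index hle
    rw [hi] at t3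
    have t4 : 0 < H₂.index := Nat.pos_of_ne_zero H₂.index_ne_zero_of_finite
    nlinarith
  obtain ⟨d, δ, hq⟩ := QUADP_isQuad (KH H₂) (KH H₃) h2
  obtain ⟨H, hH, hHe⟩ := Helper4.quad_entire hq
  refine ⟨H, hH, ?_⟩
  intro s hs
  have h1 := Helper4.hasProd_dedekind (KH H₃) hs
  have h2 := Helper4.hasProd_inv₀ (Helper4.hasProd_dedekind (KH H₂) hs)
    (Helper4.HDed_ne_zero (KH H₂) hs)
  have h3 := h1.mul h2
  have h4 : Helper4.HDed (KH H₃) s / (s - 1) * (Helper4.HDed (KH H₂) s / (s - 1))⁻¹ = H s := by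
    have h5 := Helper4.HDed_ne_zero (KH H₂) hs
    have h6 : Helper4.HDed (KH H₂) s ≠ 0 := fun h => h5 (by rw [h, zero_div])
    have h7 : s - 1 ≠ 0 := fun h => h5 (by rw [h, div_zero])
    rw [hHe s hs]
    field_simp
  rw [h4] at h3
  exact h3

end Pool.Agent.PGZ
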