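import Pool.Agent.PGZ.ORB
import Pool.Agent.PGZ.LOC
import Pool.Agent.PGZ.EEL
import Pool.Agent.PGZ.DEDL
import Pool.Agent.PGZ.QUADP

/-! # PGZ, module GLOB: the Euler product of a lattice with signed permutation character -/

set_option autoImplicit false

noncomputable section

namespace Pool.Agent.PGZ

open Module NumberField

private theorem GLOB_norm {p : ℕ} (hp : p.Prime) {s : ℂ} (hs : 0 < s.re) :
    ‖(p : ℂ) ^ (-s)‖ < 1 := by
  rw [Complex.norm_natCast_cpow_of_pos hp.pos]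
  apply Real.rpow_lt_one_of_one_lt_of_neg
  · exact_mod_cast hp.one_lt
  · simpa using hs

theorem glob (F : Type) [Field F] [NumberField F] [IsGalois ℚ F] (Λ : Type) [AddCommGroup Λ]
    [Module.Free ℤ Λ] [Module.Finite ℤ Λ] [DistribMulAction (F ≃ₐ[ℚ] F) Λ] (S : Type)
    [MulAction (F ≃ₐ[ℚ] F) S] (τ : S → S) (c : ℕ) (h : IsSgn (F ≃ₐ[ℚ] F) Λ S τ c) :
    ∃ (D : ℂ → ℂ) (n : ℕ), Differentiable ℂ D ∧
      ∀ (P : Nat.Primes → Ideal (𝓞 F)) (σ : Nat.Primes → (F ≃ₐ[ℚ] F))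
        (hP : ∀ p, (P p).IsPrime) (_ : ∀ p : Nat.Primes, ((p : ℕ) : 𝓞 F) ∈ P p)
        (hσ : ∀ p, IsArithFrobAt ℤ (σ p) (P p)) (s : ℂ), 1 < s.re →
        HasProd (fun p : Nat.Primes => euler Λ (hP p) (hσ p) ((p : ℂ) ^ (-s)))
          (D s / (s - 1) ^ n) := by
  obtain ⟨J₁, J₂, _, _, H₁, H₂, H₃, hH, htr⟩ := orb (G := F ≃ₐ[ℚ] F) S τ c h
  choose D₂ hD₂ hD₂' using fun j => quad_pair (F := F) (H₂ j) (H₃ j) (hH j).1 (hH j).2
  refine ⟨fun s => (∏ j : J₁, Helper4.HDed (KH (H₁ j)) s) * ∏ j : J₂, D₂ j s, Fintype.card J₁,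
    ?_, ?_⟩
  · apply Differentiable.mul
    · exact Differentiable.fun_finsetProd fun j _ => Helper4.differentiable_HDed _
    · exact Differentiable.fun_finsetProd fun j _ => hD₂ j
  · intro P σ hP hp hσ s hs
    have hs0 : 0 < s.re := by linarith
    have hloc : ∀ p : Nat.Primes, euler Λ (hP p) (hσ p) ((p : ℂ) ^ (-s)) =
        (∏ j : J₁, Helper4.zl (KH (H₁ j)) s p) *
          ∏ j : J₂, (Helper4.zl (KH (H₃ j)) s p * (Helper4.zl (KH (H₂ j)) s p)⁻¹) := by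
      intro p
      have hT := GLOB_norm p.2 hs0
      have hE : ∀ H : Subgroup (F ≃ₐ[ℚ] F),
          EE ((P p).inertia (F ≃ₐ[ℚ] F)) (σ p)⁻¹ (fH H) ((p : ℂ) ^ (-s)) =
            Helper4.zl (KH H) s p := by
        intro H
        rw [zl_eq_EE (hP p) p.2 (hp p) (hσ p) H hs0]
        exact EE_inv _ _ (fun t ht => conj_inertia (hP p) (hσ p) t ht) _ (fH_inv H) (fH_comm H) _
      unfold euler
      rw [locDet_eq _ _ _ _ hT]
      have h1 : (fun x : F ≃ₐ[ℚ] F => ((LinearMap.trace ℤ Λ (act Λ x) : ℤ) : ℂ)) =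
          fun x => (∑ j, fH (H₁ j) x) + ∑ j, (fH (H₃ j) x - fH (H₂ j) x) := funext htr
      rw [h1, EE_add _ _ _ _ _ hT, EE_sum _ _ _ _ hT, EE_sum _ _ _ _ hT]
      congr 1
      · exact Finset.prod_congr rfl fun j _ => hE _
      · refine Finset.prod_congr rfl fun j _ => ?_
        rw [EE_sub _ _ _ _ _ hT, hE, hE]
    have h2 : (∏ j : J₁, Helper4.HDed (KH (H₁ j)) s) * (∏ j : J₂, D₂ j s) / (s - 1) ^
        Fintype.card J₁ = (∏ j : J₁, Helper4.HDed (KH (H₁ j)) s / (s - 1)) * ∏ j : J₂, D₂ j s := by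
      rw [Finset.prod_div_distrib, Finset.prod_const, Finset.card_univ]
      ring
    simp only [hloc, h2]
    apply HasProd.mul
    · exact hasProd_prod fun j _ => Helper4.hasProd_dedekind _ hs
    · exact hasProd_prod fun j _ => hD₂' j s hs

end Pool.Agent.PGZ
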