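import Pool.Agent.PGZ.ALGM
import Pool.Agent.PGZ.GLOB

/-! # PGZ, module FINAL -/

set_option autoImplicit false

noncomputable section

namespace Pool.Agent.PGZ

open Module NumberField

theorem main (F : Type) [Field F] [NumberField F] [IsGalois ℚ F] (Λ : Type) [AddCommGroup Λ]
    [Module.Free ℤ Λ] [Module.Finite ℤ Λ] [DistribMulAction (F ≃ₐ[ℚ] F) Λ]
    (B : Λ →ₗ[ℤ] Λ →ₗ[ℤ] ℤ) (w : Λ) (ε : ℤ) (hc : IsCyc (F ≃ₐ[ℚ] F) B w ε)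
    (hr : RankOK (F ≃ₐ[ℚ] F) B w ε) (d : ℕ) :
    ∃ (D : ℂ → ℂ) (n : ℕ), Differentiable ℂ D ∧
      ∀ (P : Nat.Primes → Ideal (𝓞 F)) (σ : Nat.Primes → (F ≃ₐ[ℚ] F))
        (hP : ∀ p, (P p).IsPrime) (_ : ∀ p : Nat.Primes, ((p : ℕ) : 𝓞 F) ∈ P p)
        (hσ : ∀ p, IsArithFrobAt ℤ (σ p) (P p)) (s : ℂ), (d : ℝ) + 1 < s.re →
        HasProd (fun p : Nat.Primes => euler Λ (hP p) (hσ p) ((p : ℂ) ^ ((d : ℂ) - s)))
          (D s / (s - ((d : ℂ) + 1)) ^ n) := by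
  obtain ⟨S, _, τ, c, hS⟩ := alg hc hr
  obtain ⟨D, n, hD, h⟩ := glob F Λ S τ c hS
  refine ⟨fun s => D (s - d), n, hD.comp (differentiable_id.sub_const _), ?_⟩
  intro P σ hP hp hσ s hs
  have h1 := h P σ hP hp hσ (s - d) (by
    rw [Complex.sub_re, Complex.natCast_re]
    linarith)
  have e1 : -(s - (d : ℂ)) = (d : ℂ) - s := by ring
  have e2 : s - (d : ℂ) - 1 = s - ((d : ℂ) + 1) := by ring
  rw [e1, e2] at h1
  exact h1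

end Pool.Agent.PGZ
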