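import Pool.Agent.PGZ.FIN

/-! # PGZ, module BASE: a base of the system of vectors of norm two -/

set_option autoImplicit false

noncomputable section

namespace Pool.Agent.PGZ

open Module

private theorem base_generic {L : Type*} [AddCommGroup L]
    (B : L →ₗ[ℤ] L →ₗ[ℤ] ℤ) (hs : ∀ x y, B x y = B y x) (S : Finset L)
    (hS : ∀ x ∈ S, B x x ≠ 0) : ∃ ρ : L, ∀ x ∈ S, B ρ x ≠ 0 := by
  classical
  induction S using Finset.induction_on with
  | empty => exact ⟨0, by simp⟩
  | insert x S hx ih =>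
    obtain ⟨ρ, hρ⟩ := ih (fun y hy => hS y (Finset.mem_insert_of_mem hy))
    by_cases h : B ρ x = 0
    · set k : ℤ := 1 + ∑ y ∈ S, |B x y| with hk
      refine ⟨k • ρ + x, ?_⟩
      intro y hy
      rcases Finset.mem_insert.1 hy with rfl | hy
      · simpa [h] using hS y (Finset.mem_insert_self _ _)
      · have h1 : |B x y| ≤ ∑ z ∈ S, |B x z| :=
          Finset.single_le_sum (f := fun z => |B x z|) (fun z _ => abs_nonneg _) hy
        have h2 : 1 ≤ |B ρ y| := Int.one_le_abs (hρ y hy)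
        have hk1 : |B x y| < k := by rw [hk]; linarith
        have hkpos : 0 < k := lt_of_le_of_lt (abs_nonneg _) hk1
        intro h0
        have h3 : k * B ρ y = - B x y := by
          have : B (k • ρ + x) y = k * B ρ y + B x y := by
            simp
          rw [this] at h0
          linarith
        have h4 : |k * B ρ y| = |B x y| := by rw [h3, abs_neg]
        rw [abs_mul, abs_of_pos hkpos] at h4
        nlinarith
    · refine ⟨ρ, ?_⟩
      intro y hy
      rcases Finset.mem_insert.1 hy with rfl | hy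
      · exact h
      · exact hρ y hy

private theorem base_indep {L : Type*} [AddCommGroup L]
    (B : L →ₗ[ℤ] L →ₗ[ℤ] ℤ) (hB : PD B) (ρ : L) (Δ : Finset L)
    (hpos : ∀ α ∈ Δ, 0 < B ρ α)
    (hnon : ∀ α ∈ Δ, ∀ β ∈ Δ, α ≠ β → B α β = 0 ∨ B α β = -1) :
    LinearIndependent ℤ (fun α : Δ => (α : L)) := by
  classical
  rw [Fintype.linearIndependent_iff]
  intro g hg
  set p : Δ → ℤ := fun i => max (g i) 0 with hp
  set q : Δ → ℤ := fun i => max (- g i) 0 with hq
  have hpq : ∀ i, p i - q i = g i := by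
    intro i
    simp only [hp, hq]
    rcases le_total (g i) 0 with h | h
    · rw [max_eq_right h, max_eq_left (by linarith)]; ring
    · rw [max_eq_left h, max_eq_right (by linarith)]; ring
  have hp0 : ∀ i, 0 ≤ p i := fun i => le_max_right _ _
  have hq0 : ∀ i, 0 ≤ q i := fun i => le_max_right _ _
  have hpq0 : ∀ i, p i * q i = 0 := by
    intro i
    simp only [hp, hq]
    rcases le_total (g i) 0 with h | h
    · rw [max_eq_right h]; ring
    · rw [max_eq_right (a := - g i) (by linarith)]; ring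
  set x : L := ∑ i, p i • (i : L) with hx
  set y : L := ∑ i, q i • (i : L) with hy
  have hxy : x = y := by
    have : x - y = ∑ i, g i • (i : L) := by
      rw [hx, hy, ← Finset.sum_sub_distrib]
      refine Finset.sum_congr rfl fun i _ => ?_
      rw [← sub_smul, hpq]
    rw [hg] at this
    exact sub_eq_zero.1 this
  have hexp : B x y = ∑ i, ∑ j, p i * q j * B (i : L) (j : L) := by
    rw [hx, hy]
    simp only [map_sum, LinearMap.sum_apply, map_smul, LinearMap.smul_apply, smul_eq_mul,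
      Finset.mul_sum]
    rw [Finset.sum_comm]
    refine Finset.sum_congr rfl fun i _ => Finset.sum_congr rfl fun j _ => ?_
    ring
  have hle : B x y ≤ 0 := by
    rw [hexp]
    refine Finset.sum_nonpos fun i _ => Finset.sum_nonpos fun j _ => ?_
    by_cases hij : i = j
    · subst hij
      rw [hpq0]; simp
    · have h1 : (i : L) ≠ j := fun h => hij (Subtype.ext h)
      have h2 : B (i : L) (j : L) ≤ 0 := by
        rcases hnon i i.2 j j.2 h1 with h | h <;> rw [h] <;> norm_num
      exact mul_nonpos_of_nonneg_of_nonpos (mul_nonneg (hp0 i) (hq0 j)) h2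
  have hx0 : x = 0 := by
    by_contra hne
    have := hB.pos x hne
    rw [← hxy] at hle
    linarith
  have hy0 : y = 0 := by rw [← hxy, hx0]
  have key : ∀ (r : Δ → ℤ), (∀ i, 0 ≤ r i) → ∑ i, r i • (i : L) = 0 → ∀ i, r i = 0 := by
    intro r hr h i
    have h1 : B ρ (∑ i, r i • (i : L)) = ∑ i, r i * B ρ (i : L) := by
      simp [map_sum]
    rw [h, map_zero] at h1
    have h2 := (Finset.sum_eq_zero_iff_of_nonneg
      (fun i _ => mul_nonneg (hr i) (hpos i i.2).le)).1 h1.symm i (Finset.mem_univ i)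
    rcases mul_eq_zero.1 h2 with h3 | h3
    · exact h3
    · exact absurd h3 (hpos i i.2).ne'
  intro i
  rw [← hpq, key p hp0 hx0 i, key q hq0 hy0 i, sub_zero]

theorem exists_base {L : Type*} [AddCommGroup L] [Module.Free ℤ L] [Module.Finite ℤ L]
    (B : L →ₗ[ℤ] L →ₗ[ℤ] ℤ) (hB : PD B) : ∃ (ρ : L) (Δ : Finset L), IsBase B ρ Δ := by
  classical
  have hfin : {x : L | B x x = 2}.Finite :=
    (finite_le B hB 2).subset (fun x hx => le_of_eq hx)
  set R : Finset L := hfin.toFinset with hR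
  have hmem : ∀ x, x ∈ R ↔ B x x = 2 := by
    intro x
    rw [hR, Set.Finite.mem_toFinset]
    rfl
  obtain ⟨ρ, hρ⟩ := base_generic B hB.symm R (by
    intro x hx
    rw [(hmem x).1 hx]; norm_num)
  set P : Finset L := R.filter (fun x => 0 < B ρ x) with hP
  have hPm : ∀ x, x ∈ P ↔ (B x x = 2 ∧ 0 < B ρ x) := by
    intro x
    rw [hP, Finset.mem_filter, hmem]
  set Δ : Finset L := P.filter (fun x => ¬ ∃ y ∈ P, ∃ z ∈ P, x = y + z) with hΔ
  have hΔm : ∀ x, x ∈ Δ ↔ (x ∈ P ∧ ¬ ∃ y ∈ P, ∃ z ∈ P, x = y + z) := by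
    intro x
    rw [hΔ, Finset.mem_filter]
  have hsq : ∀ a b : L, B (a - b) (a - b) = B a a + B b b - 2 * B a b := by
    intro a b
    simp only [map_sub, LinearMap.sub_apply]
    rw [hB.symm b a]; ring
  have hsq' : ∀ a b : L, B (a + b) (a + b) = B a a + B b b + 2 * B a b := by
    intro a b
    simp only [map_add, LinearMap.add_apply]
    rw [hB.symm b a]; ring
  have hnon : ∀ α ∈ Δ, ∀ β ∈ Δ, α ≠ β → B α β = 0 ∨ B α β = -1 := by
    intro a ha b hb hab
    obtain ⟨haP, hai⟩ := (hΔm a).1 ha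
    obtain ⟨hbP, hbi⟩ := (hΔm b).1 hb
    obtain ⟨ha2, hap⟩ := (hPm a).1 haP
    obtain ⟨hb2, hbp⟩ := (hPm b).1 hbP
    have h1 : 0 < B (a - b) (a - b) := hB.pos _ (sub_ne_zero.2 hab)
    have h2 : 0 < B (a + b) (a + b) := by
      refine hB.pos _ (fun h => ?_)
      have : B ρ (a + b) = 0 := by rw [h, map_zero]
      rw [map_add] at this
      linarith
    rw [hsq, ha2, hb2] at h1
    rw [hsq', ha2, hb2] at h2
    have h3 : B a b = -1 ∨ B a b = 0 ∨ B a b = 1 := by omega
    rcases h3 with h3 | h3 | h3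
    · exact Or.inr h3
    · exact Or.inl h3
    · exfalso
      have h4 : B (a - b) (a - b) = 2 := by rw [hsq, ha2, hb2, h3]; norm_num
      have h5 : B ρ (a - b) ≠ 0 := hρ _ ((hmem _).2 h4)
      rcases lt_or_gt_of_ne h5 with h6 | h6
      · apply hbi
        refine ⟨a, haP, b - a, ?_, by abel⟩
        rw [hPm]
        constructor
        · rw [hsq, ha2, hb2, hB.symm b a, h3]; norm_num
        · rw [map_sub] at h6 ⊢
          linarith
      · apply hai
        refine ⟨b, hbP, a - b, ?_, by abel⟩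
        rw [hPm]
        exact ⟨h4, h6⟩
  have hposΔ : ∀ α ∈ Δ, 0 < B ρ α := fun α h => ((hPm α).1 ((hΔm α).1 h).1).2
  refine ⟨ρ, Δ, ?_⟩
  refine ⟨fun α h => ((hPm α).1 ((hΔm α).1 h).1).1, hposΔ, hnon,
    base_indep B hB ρ Δ hposΔ hnon, fun x hx => hρ x ((hmem x).2 hx), ?_⟩
  have main : ∀ (m : ℕ) (x : L), (B ρ x).toNat ≤ m → B x x = 2 → 0 < B ρ x →
      ∃ c : L → ℕ, x = ∑ α ∈ Δ, c α • α := by
    intro m
    induction m with
    | zero =>
      intro x hm _ hp
      omega
    | succ m ih =>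
      intro x hm h2 hp
      by_cases hx : x ∈ Δ
      · refine ⟨fun α => if α = x then 1 else 0, ?_⟩
        simp [hx]
      · have hxP : x ∈ P := (hPm x).2 ⟨h2, hp⟩
        have h3 : ∃ y ∈ P, ∃ z ∈ P, x = y + z := by
          by_contra h
          exact hx ((hΔm x).2 ⟨hxP, h⟩)
        obtain ⟨y, hy, z, hz, hxyz⟩ := h3
        obtain ⟨hy2, hyp⟩ := (hPm y).1 hy
        obtain ⟨hz2, hzp⟩ := (hPm z).1 hz
        have h4 : B ρ x = B ρ y + B ρ z := by rw [hxyz, map_add]
        obtain ⟨c, hc⟩ := ih y (by omega) hy2 hyp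
        obtain ⟨d, hd⟩ := ih z (by omega) hz2 hzp
        refine ⟨fun α => c α + d α, ?_⟩
        rw [hxyz]
        conv_lhs => rw [hc, hd]
        rw [← Finset.sum_add_distrib]
        refine Finset.sum_congr rfl fun α _ => ?_
        rw [add_smul]
  intro x h2 hp
  exact main _ x le_rfl h2 hp

end Pool.Agent.PGZ
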