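import Pool.Agent.PGZ.Defs

/-! # PGZ, module FIN: finiteness in positive definite lattices -/

set_option autoImplicit false

noncomputable section

namespace Pool.Agent.PGZ

open Module

variable {L : Type*} [AddCommGroup L] [Module.Free ℤ L] [Module.Finite ℤ L]
  (B : L →ₗ[ℤ] L →ₗ[ℤ] ℤ)

omit [Module.Free ℤ L] [Module.Finite ℤ L] in
private theorem fin_nonneg (hB : PD B) (x : L) : 0 ≤ B x x := by
  by_cases hx : x = 0
  · rw [hx, map_zero]
  · exact (hB.pos x hx).le

omit [Module.Free ℤ L] [Module.Finite ℤ L] in
/-- The Cauchy-Schwarz inequality. -/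
theorem fin_cs (hB : PD B) (x y : L) : B x y ^ 2 ≤ B x x * B y y := by
  by_cases hy : y = 0
  · rw [hy, map_zero, map_zero]
    norm_num
  · have hpos := hB.pos y hy
    have h1 := fin_nonneg B hB ((B y y) • x - (B x y) • y)
    have h2 : B ((B y y) • x - (B x y) • y) ((B y y) • x - (B x y) • y) =
        B y y * (B x x * B y y - B x y ^ 2) := by
      simp only [map_sub, map_smul, LinearMap.sub_apply, LinearMap.smul_apply, smul_eq_mul]
      rw [hB.symm y x]
      ring
    rw [h2] at h1
    have h3 := nonneg_of_mul_nonneg_right h1 hpos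
    linarith

theorem finite_le (hB : PD B) (C : ℤ) : {x : L | B x x ≤ C}.Finite := by
  classical
  let b := Module.Free.chooseBasis ℤ L
  let f : L → (Module.Free.ChooseBasisIndex ℤ L → ℤ) := fun x i => B x (b i)
  have hf : Function.Injective f := by
    intro x y hxy
    have h1 : B (x - y) = 0 := by
      refine b.ext fun i => ?_
      have := congrFun hxy i
      simp only [f] at this
      rw [map_sub, LinearMap.sub_apply, this, sub_self, LinearMap.zero_apply]
    by_contra hne
    have h2 := hB.pos (x - y) (sub_ne_zero.2 hne)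
    rw [h1, LinearMap.zero_apply] at h2
    exact lt_irrefl _ h2
  refine Set.Finite.of_finite_image (f := f) ?_ hf.injOn
  refine Set.Finite.subset (Set.Finite.pi' (t := fun i => Set.Icc (-(C * B (b i) (b i)))
    (C * B (b i) (b i))) fun i => Set.finite_Icc _ _) ?_
  rintro _ ⟨x, hx, rfl⟩ i
  have h1 := fin_cs B hB x (b i)
  have h2 : B x x * B (b i) (b i) ≤ C * B (b i) (b i) :=
    mul_le_mul_of_nonneg_right hx (fin_nonneg B hB _)
  have h3 : B x (b i) ≤ B x (b i) ^ 2 := Int.le_self_sq _
  have h4 : -B x (b i) ≤ B x (b i) ^ 2 := by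
    have := Int.le_self_sq (-B x (b i))
    rwa [neg_sq] at this
  constructor
  · simp only [f]
    linarith
  · simp only [f]
    linarith

/-- Isometries have finite order. -/
theorem iso_pow (hB : PD B) (g : L ≃ₗ[ℤ] L) (hg : Iso B g) :
    ∃ N : ℕ, 0 < N ∧ g ^ N = 1 := by
  classical
  let b := Module.Free.chooseBasis ℤ L
  have hpow : ∀ (n : ℕ) (x : L), B ((g ^ n) x) ((g ^ n) x) = B x x := by
    intro n
    induction n with
    | zero => intro x; rfl
    | succ k ih =>
      intro x
      rw [pow_succ']
      change B (g ((g ^ k) x)) (g ((g ^ k) x)) = B x x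
      rw [hg, ih]
  let F : ℕ → (Module.Free.ChooseBasisIndex ℤ L → L) := fun n i => (g ^ n) (b i)
  have hfin : (Set.range F).Finite := by
    refine Set.Finite.subset (Set.Finite.pi' (t := fun i => {x : L | B x x ≤ B (b i) (b i)})
      fun i => finite_le B hB _) ?_
    rintro _ ⟨n, rfl⟩ i
    exact (hpow n (b i)).le
  have hni : ¬ Function.Injective F := fun h => (Set.infinite_range_of_injective h) hfin
  rw [Function.not_injective_iff] at hni
  obtain ⟨m, n, hmn, hne⟩ := hni
  have hgen : ∀ m n : ℕ, m < n → F m = F n → ∃ N : ℕ, 0 < N ∧ g ^ N = 1 := by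
    intro m n hlt hF
    refine ⟨n - m, by omega, ?_⟩
    have h1 : g ^ m = g ^ n := by
      apply LinearEquiv.toLinearMap_injective
      refine b.ext fun i => ?_
      exact congrFun hF i
    have h2 : g ^ n = g ^ m * g ^ (n - m) := by
      rw [← pow_add]
      congr 1
      omega
    rw [h2] at h1
    exact (mul_eq_left.1 h1.symm)
  rcases lt_or_gt_of_ne hne with h | h
  · exact hgen m n h hmn
  · exact hgen n m h hmn.symm

end Pool.Agent.PGZ
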