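import Pool.Agent.PGZ.ROOT
import Pool.Agent.PGZ.FIN

/-! # PGZ, module CHAM: isometries with trivial action on the discriminant group are products of
simple reflections, in rank at most five -/

set_option autoImplicit false

noncomputable section

namespace Pool.Agent.PGZ

open Module

variable {L : Type*} [AddCommGroup L] [Module.Free ℤ L] [Module.Finite ℤ L]
  (B : L →ₗ[ℤ] L →ₗ[ℤ] ℤ)

omit [Module.Free ℤ L] [Module.Finite ℤ L] in
private theorem iso_inv {g : L ≃ₗ[ℤ] L} (hg : Iso B g) : Iso B g⁻¹ := by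
  intro x y
  have h := hg (g⁻¹ x) (g⁻¹ y)
  have e : ∀ z, g (g⁻¹ z) = z := fun z => LinearEquiv.apply_symm_apply g z
  rw [e, e] at h
  exact h.symm

omit [Module.Free ℤ L] [Module.Finite ℤ L] in
private theorem iso_adj {g : L ≃ₗ[ℤ] L} (hg : Iso B g) (x y : L) :
    B (g x) y = B x (g⁻¹ y) := by
  have h := hg x (g⁻¹ y)
  have e : ∀ z, g (g⁻¹ z) = z := fun z => LinearEquiv.apply_symm_apply g z
  rw [e] at h
  exact h

/-- The group of the isometries which act trivially on the discriminant group. -/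
private def triG : Subgroup (L ≃ₗ[ℤ] L) where
  carrier := {g | Iso B g ∧ Tri B g}
  mul_mem' := by
    rintro a b ⟨ha, ha'⟩ ⟨hb, hb'⟩
    refine ⟨fun x y => ?_, fun φ => ?_⟩
    · rw [LinearEquiv.mul_apply, LinearEquiv.mul_apply, ha, hb]
    · obtain ⟨v, hv⟩ := ha' φ
      obtain ⟨u, hu⟩ := hb' φ
      refine ⟨b⁻¹ v + u, fun x => ?_⟩
      have h1 := hv (b x)
      have h2 := hu x
      have h3 := iso_adj B (iso_inv B hb) v x
      rw [inv_inv] at h3
      rw [map_add, LinearMap.add_apply, h3, ← h1, ← h2, LinearEquiv.mul_apply]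
      ring
  one_mem' := by
    refine ⟨fun x y => rfl, fun φ => ⟨0, fun x => ?_⟩⟩
    rw [map_zero, LinearMap.zero_apply]
    exact sub_self _
  inv_mem' := by
    rintro a ⟨ha, ha'⟩
    refine ⟨iso_inv B ha, fun φ => ?_⟩
    obtain ⟨v, hv⟩ := ha' φ
    refine ⟨-(a v), fun x => ?_⟩
    have h1 := hv (a⁻¹ x)
    have e : ∀ z, a (a⁻¹ z) = z := fun z => LinearEquiv.apply_symm_apply a z
    rw [e] at h1
    rw [map_neg, LinearMap.neg_apply, iso_adj B ha, ← h1]
    ring

omit [Module.Free ℤ L] [Module.Finite ℤ L] in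
private theorem refl_le (hB : PD B) (Δ : Finset L) (h2 : ∀ α ∈ Δ, B α α = 2) :
    Subgroup.closure (Refl B Δ) ≤ triG B := by
  rw [Subgroup.closure_le]
  rintro f ⟨α, hα, hf⟩
  refine ⟨fun x y => ?_, fun φ => ⟨-(φ α • α), fun x => ?_⟩⟩
  · rw [hf, hf]
    simp only [map_sub, map_smul, LinearMap.sub_apply, LinearMap.smul_apply, smul_eq_mul]
    rw [h2 α hα, hB.symm α y]
    ring
  · rw [hf]
    simp only [map_sub, map_smul, map_neg, LinearMap.neg_apply, LinearMap.smul_apply, smul_eq_mul]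
    rw [hB.symm α x]
    ring

/-- Orthogonal complement of the fixed vectors of `h`. -/
private def orthF (h : L ≃ₗ[ℤ] L) : Submodule ℤ L where
  carrier := {x | ∀ y, h y = y → B x y = 0}
  zero_mem' := by
    intro y _
    rw [map_zero, LinearMap.zero_apply]
  add_mem' := by
    intro a b ha hb y hy
    rw [map_add, LinearMap.add_apply, ha y hy, hb y hy, add_zero]
  smul_mem' := by
    intro c x hx y hy
    rw [map_smul, LinearMap.smul_apply, hx y hy, smul_zero]

omit [Module.Free ℤ L] [Module.Finite ℤ L] in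
private theorem mem_orthF (h : L ≃ₗ[ℤ] L) (x : L) :
    x ∈ orthF B h ↔ ∀ y, h y = y → B x y = 0 := Iff.rfl

omit [Module.Free ℤ L] in
/-- `orthF` is a direct summand. -/
private theorem exists_proj (h : L ≃ₗ[ℤ] L) :
    ∃ p : L →ₗ[ℤ] orthF B h, ∀ x : orthF B h, p x = x := by
  have tf : Module.IsTorsionFree ℤ (L ⧸ orthF B h) := by
    rw [Module.isTorsionFree_iff_smul_eq_zero]
    intro c x hx
    by_cases hc : c = 0
    · exact Or.inl hc
    · right
      obtain ⟨y, rfl⟩ := Submodule.mkQ_surjective _ x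
      rw [← map_smul, ← LinearMap.mem_ker, Submodule.ker_mkQ] at hx
      rw [← LinearMap.mem_ker, Submodule.ker_mkQ]
      intro z hz
      have h1 := hx z hz
      rw [map_smul, LinearMap.smul_apply, smul_eq_mul] at h1
      exact (mul_eq_zero.1 h1).resolve_left hc
  have : Module.Free ℤ (L ⧸ orthF B h) := inferInstance
  obtain ⟨s, hs⟩ := Module.projective_lifting_property (orthF B h).mkQ
    (LinearMap.id : (L ⧸ orthF B h) →ₗ[ℤ] (L ⧸ orthF B h)) (Submodule.mkQ_surjective _)
  have hm : ∀ x : L, ((LinearMap.id : L →ₗ[ℤ] L) - s ∘ₗ (orthF B h).mkQ) x ∈ orthF B h := by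
    intro x
    refine (Submodule.Quotient.mk_eq_zero _).1 ?_
    change (orthF B h).mkQ _ = 0
    have := LinearMap.congr_fun hs ((orthF B h).mkQ x)
    simp only [LinearMap.comp_apply, LinearMap.id_apply] at this
    simp only [LinearMap.sub_apply, LinearMap.comp_apply, LinearMap.id_apply, map_sub, this,
      sub_self]
  refine ⟨LinearMap.codRestrict _ (LinearMap.id - s ∘ₗ (orthF B h).mkQ) hm, fun x => ?_⟩
  apply Subtype.ext
  simp only [LinearMap.codRestrict_apply, LinearMap.sub_apply, LinearMap.comp_apply,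
    LinearMap.id_apply]
  have : (orthF B h).mkQ (x : L) = 0 := by
    rw [← LinearMap.mem_ker, Submodule.ker_mkQ]
    exact x.2
  rw [this, map_zero, sub_zero]

/-- The main step: an isometry with trivial discriminant action which fixes a vector `σ` that is
orthogonal to no root is the identity. -/
private theorem eq_one_of_fix (hB : PD B) (h5 : finrank ℤ L ≤ 5) (h : L ≃ₗ[ℤ] L) (hi : Iso B h)
    (ht : Tri B h) (σ : L) (hσ : h σ = σ) (hr : ∀ x, B x x = 2 → B x σ ≠ 0) : h = 1 := by
  by_contra hne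
  obtain ⟨N, hN, hpow⟩ := iso_pow B hB h hi
  have e1 : ∀ z, h (h⁻¹ z) = z := fun z => LinearEquiv.apply_symm_apply h z
  have e2 : ∀ z, h⁻¹ (h z) = z := fun z => LinearEquiv.symm_apply_apply h z
  -- a nonzero element
  obtain ⟨x0, hx0⟩ : ∃ x, h x ≠ x := by
    by_contra hcon
    push Not at hcon
    exact hne (LinearEquiv.ext hcon)
  have hz : h x0 - x0 ∈ orthF B h := by
    intro y hy
    rw [map_sub, LinearMap.sub_apply, iso_adj B hi]
    have : h⁻¹ y = y := by
      conv_lhs => rw [← hy]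
      exact e2 y
    rw [this, sub_self]
  -- restriction
  have m1 : ∀ x ∈ orthF B h, (h : L →ₗ[ℤ] L) x ∈ orthF B h := by
    intro x hx y hy
    have := hi x y
    rw [hy] at this
    exact this.trans (hx y hy)
  have m2 : ∀ x ∈ orthF B h, ((h⁻¹ : L ≃ₗ[ℤ] L) : L →ₗ[ℤ] L) x ∈ orthF B h := by
    intro x hx y hy
    have := iso_adj B (iso_inv B hi) x y
    rw [inv_inv, hy] at this
    exact this.trans (hx y hy)
  let h' : orthF B h ≃ₗ[ℤ] orthF B h := LinearEquiv.ofLinearMap ((h : L →ₗ[ℤ] L).restrict m1)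
    (((h⁻¹ : L ≃ₗ[ℤ] L) : L →ₗ[ℤ] L).restrict m2)
    (by
      ext x
      exact e1 x)
    (by
      ext x
      exact e2 x)
  have c1 : ∀ x : orthF B h, ((h' x : orthF B h) : L) = h x := fun x => rfl
  have ck : ∀ (k : ℕ) (x : orthF B h), (((h' ^ k) x : orthF B h) : L) = (h ^ k) x := by
    intro k
    induction k with
    | zero => intro x; rfl
    | succ k ih =>
      intro x
      rw [pow_succ, pow_succ, LinearEquiv.mul_apply, LinearEquiv.mul_apply, ih, c1]
  let B' : orthF B h →ₗ[ℤ] orthF B h →ₗ[ℤ] ℤ := B.domRestrict₁₂ (orthF B h) (orthF B h)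
  have hB'a : ∀ x y : orthF B h, B' x y = B x y := fun x y => rfl
  have hB' : PD B' := by
    refine ⟨fun x y => hB.symm x y, fun x hx => hB.pos x ?_, fun x => hB.even x⟩
    intro h0
    exact hx (Subtype.ext h0)
  have hi' : Iso B' h' := fun x y => hi x y
  have hpow' : h' ^ N = 1 := by
    apply LinearEquiv.ext
    intro x
    apply Subtype.ext
    rw [ck, hpow]
    rfl
  have hfix' : ∀ x, h' x = x → x = 0 := by
    intro x hx
    by_contra hx0
    have h1 : h (x : L) = x := by
      rw [← c1, hx]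
    have h2 := x.2 (x : L) h1
    have h3 := hB'.pos x hx0
    rw [hB'a, h2] at h3
    exact lt_irrefl _ h3
  have ht' : Tri B' h' := by
    intro φ
    obtain ⟨p, hp⟩ := exists_proj B h
    obtain ⟨v, hv⟩ := ht (φ ∘ₗ p)
    have hvm : v ∈ orthF B h := by
      intro y hy
      rw [← hv y, hy, sub_self]
    refine ⟨⟨v, hvm⟩, fun x => ?_⟩
    have h1 := hv (x : L)
    simp only [LinearMap.comp_apply] at h1
    rw [← c1, hp, hp] at h1
    exact h1
  have hpos : 1 ≤ finrank ℤ (orthF B h) := by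
    rw [Nat.one_le_iff_ne_zero]
    intro h0
    have : Subsingleton (orthF B h) := by
      exact Module.finrank_zero_iff.1 h0
    have h1 : (⟨h x0 - x0, hz⟩ : orthF B h) = 0 := Subsingleton.elim _ _
    exact hx0 (sub_eq_zero.1 (congrArg Subtype.val h1))
  have hle : finrank ℤ (orthF B h) ≤ 5 := (Submodule.finrank_le _).trans h5
  obtain ⟨x, hx⟩ := exists_root B' hB' h' hi' N hN hpow' hfix' ht' hpos hle
  exact hr x hx (x.2 σ hσ)

theorem mem_closure (hB : PD B) (h5 : finrank ℤ L ≤ 5) (ρ : L) (Δ : Finset L)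
    (hb : IsBase B ρ Δ) (g : L ≃ₗ[ℤ] L) (hg : Iso B g) (ht : Tri B g) :
    g ∈ Subgroup.closure (Refl B Δ) := by
  have hle := refl_le B hB Δ hb.two
  -- maximality
  have hbd : ∃ b : ℤ, ∀ z : ℤ, (∃ w ∈ Subgroup.closure (Refl B Δ), z = B ((w * g) ρ) ρ) → z ≤ b := by
    refine ⟨B ρ ρ, ?_⟩
    rintro z ⟨w, hw, rfl⟩
    have h1 : Iso B (w * g) := ((triG B).mul_mem (hle hw) ⟨hg, ht⟩).1
    by_cases hz : (w * g) ρ - ρ = 0
    · rw [sub_eq_zero.1 hz]
    · have h2 := hB.pos _ hz
      have h3 := h1 ρ ρ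
      have h4 := hB.symm ((w * g) ρ) ρ
      simp only [map_sub, LinearMap.sub_apply] at h2
      linarith
  obtain ⟨z0, ⟨w, hw, rfl⟩, hmax⟩ := Int.exists_greatest_of_bdd hbd
    ⟨_, 1, Subgroup.one_mem _, rfl⟩
  set h : L ≃ₗ[ℤ] L := w * g with hh
  have hhT : h ∈ triG B := (triG B).mul_mem (hle hw) ⟨hg, ht⟩
  have hi : Iso B h := hhT.1
  have hinv2 : ∀ x, B x x = 2 → B (h⁻¹ x) (h⁻¹ x) = 2 := by
    intro x hx
    rw [iso_inv B hi]
    exact hx
  -- simple roots
  have step2 : ∀ α ∈ Δ, 0 < B (h ρ) α := by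
    intro α hα
    let f : Module.Dual ℤ L := B.flip α
    have hf2 : f α = 2 := hb.two α hα
    have hs : ∀ x, Module.reflection hf2 x = x - B x α • α := by
      intro x
      rw [Module.reflection_apply]
      rfl
    have hsm : Module.reflection hf2 ∈ Subgroup.closure (Refl B Δ) :=
      Subgroup.subset_closure ⟨α, hα, hs⟩
    have h1 := hmax _ ⟨Module.reflection hf2 * w, Subgroup.mul_mem _ hsm hw, rfl⟩
    rw [mul_assoc, ← hh, LinearEquiv.mul_apply, hs] at h1
    simp only [map_sub, map_smul, LinearMap.sub_apply, LinearMap.smul_apply, smul_eq_mul] at h1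
    have h2 := hb.pos α hα
    rw [hB.symm ρ α] at h2
    have h3 : 0 ≤ B (h ρ) α := by
      by_contra hcon
      push Not at hcon
      nlinarith
    have h4 : B (h ρ) α ≠ 0 := by
      rw [iso_adj B hi]
      exact hb.gen _ (hinv2 α (hb.two α hα))
    exact lt_of_le_of_ne h3 (Ne.symm h4)
  have step3 : ∀ x, B x x = 2 → 0 < B ρ x → 0 < B ρ (h⁻¹ x) := by
    intro x hx hpx
    obtain ⟨c, hc⟩ := hb.comb x hx hpx
    have h1 : 0 ≤ B (h ρ) x := by
      rw [hc, map_sum]
      refine Finset.sum_nonneg fun α hα => ?_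
      rw [map_nsmul]
      exact nsmul_nonneg (step2 α hα).le _
    rw [iso_adj B hi] at h1
    exact lt_of_le_of_ne h1 (Ne.symm (hb.gen _ (hinv2 x hx)))
  have step4 : ∀ (k : ℕ) (x : L), B x x = 2 → 0 < B ρ x → 0 < B ((h ^ k) ρ) x := by
    intro k
    induction k with
    | zero => intro x _ hx; exact hx
    | succ k ih =>
      intro x hx hpx
      rw [pow_succ', LinearEquiv.mul_apply, iso_adj B hi]
      exact ih _ (hinv2 x hx) (step3 x hx hpx)
  obtain ⟨N, hN, hpow⟩ := iso_pow B hB h hi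
  have hσ1 : h (∑ k ∈ Finset.range N, (h ^ k) ρ) = ∑ k ∈ Finset.range N, (h ^ k) ρ := by
    rw [map_sum]
    have h1 : ∀ k, h ((h ^ k) ρ) = (h ^ (k + 1)) ρ := by
      intro k
      rw [pow_succ' h k]
      rfl
    simp only [h1]
    have h2 := Finset.sum_range_succ' (fun k => (h ^ k) ρ) N
    have h3 := Finset.sum_range_succ (fun k => (h ^ k) ρ) N
    rw [h2, hpow, pow_zero] at h3
    exact add_right_cancel h3
  have hσ2 : ∀ x, B x x = 2 → 0 < B ρ x →
      0 < B (∑ k ∈ Finset.range N, (h ^ k) ρ) x := by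
    intro x hx hpx
    rw [map_sum, LinearMap.sum_apply]
    exact Finset.sum_pos (fun k _ => step4 k x hx hpx) ⟨0, Finset.mem_range.2 hN⟩
  have hone : h = 1 := by
    refine eq_one_of_fix B hB h5 h hi hhT.2 _ hσ1 ?_
    intro x hx h0
    rw [hB.symm] at h0
    rcases lt_or_gt_of_ne (hb.gen x hx) with hlt | hgt
    · have h1 : B (-x) (-x) = 2 := by
        rw [map_neg, map_neg, LinearMap.neg_apply, neg_neg]
        exact hx
      have h2 := hσ2 (-x) h1 (by rw [map_neg]; linarith)
      rw [map_neg, h0] at h2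
      exact absurd h2 (by norm_num)
    · have h2 := hσ2 x hx hgt
      rw [h0] at h2
      exact lt_irrefl _ h2
  have : g = w⁻¹ := by
    rw [hh] at hone
    exact eq_inv_of_mul_eq_one_right hone
  rw [this]
  exact Subgroup.inv_mem _ hw

end Pool.Agent.PGZ
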