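import Pool.Agent.PGZ.Defs

/-! # PGZ, module CLASS: simply laced positive definite Gram matrices of size at most five -/

set_option autoImplicit false

noncomputable section

namespace Pool.Agent.PGZ

/-- Position of the pair `i ≠ j` in the list `01, 02, 12, 03, 13, 23, 04, 14, 24, 34`. -/
def clsPair (i j : ℕ) : ℕ :=
  if i < j then j * (j - 1) / 2 + i else i * (i - 1) / 2 + j

/-- The Gram matrix with code `m`. -/
def clsC (m i j : ℕ) : ℤ := if i = j then 2 else if Nat.testBit m (clsPair i j) then -1 else 0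

def clsT2 : ℕ := 0x10300101
def clsT3 : ℕ := 0x2a0022501025008430110500a030110301101
def clsT4 : ℕ := 0xa8000a8000a8000a8000a2000a20008a01a27000a8000a8000a8000a8000aa00b4b0194b01165000a2000a2000aa0434b000a2000a20530b013250002a0c2270c14b0816508b0b0832508b09043430008a000aa0008a0584b0008a05a0b0008a01a250002a0c84b0d027088650990b0990909825058430002a0ca0b0d10b0d1090d10708b050990505a030002a0c2250d0250c8430d1050ca030d1030d101
def clsT5 : ℕ := 0x2a0002a0002a0002a0002a0002a0002a0002a0002a0002a0002a0002a0002a0002a0002a0002a0002a0002a0002a0002a0002a0002a0002a0002a0002a0002a0002a0002a0002a0002a0002a0002a00028800288002880028800288002880028800288002880028800288002880028800288002880028800228002280022800228002820028200282002820022800228002280022800222002220020a004aa002a0002a0002a0002a0002a0002a0002a0002a0002a0002a0002a0002a0002a0002a0002a0002a0002a0002a0002a0002a0002a0002a0002a0002a0002a0002a0002a0002a0002a0002a0002a0002a000288002880028800288002880028800288002880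02880028800288002880028800288002880028800228002280022800228002a2002a20028a0634f002280022800228002280022a10b4f1194f0d187002a0002a0002a0002a0002a0002a0002a0002a0002a0002a0002a0002a0002a0002a0002a0002a0002a0002a0002a0002a0002a0002a0002a0002a0002a0002a0002a0002a0002a0002a0002a0002a0002a8002a8002a8002a800282002820028200282002a8002a8002a8002a800222002220028a0626f002820028200282002820028200282002820028200222002220022a10a6f002220022211a2f0d427002a0002a0002a0002a0002a0002a0002a0002a0002a0002a0002a0002a0002a0002a0002a0002a0002a0002a0002a0002a0002a0002a0002a0002a0002a0002a0002a0002a0002a0002a0002a0002a0002a8002a8002a8002a8002a2002a20008a2146f002a8002a8002a8002a8002aa40c710a17105a8b002a2002a2002aa44471002a2002a229c1105c4b0002a2846f111710ca8b2d4110cc4b11a2d08c6500288002880028800288002880028800288002880028800288002880028800288002880028800288002a8002a8002a8002a800282002820028200282002a8002a8002a8002a8002a2002a20020a0546f0028800288002880028800288002880028800288002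880028800288002880028800288002880028800282002820028200282002820028200282002820020a0022a0020a1116f0020a1132f0020a0e22700288002880028800288002880028800288002880028800288002880028800288002880028800288002a8002a8002a8002a8000a2000a20028a2226f002a8002a8002a8002a8002aa08c714217121a8b002880028800288002880028800288002880028800288002880028800288002880028800288002880028a002aa0028a460710028a2a3110028a0634b0002a10a712a06f2988b2e2111132d0e14b0a165000a8000a8000a8000a800282002820028200282000a8000a8000a8000a8002a2002a20028a2234f0028200282002820028200282002820028200282002a2002a2002aa28471002a2002a245c1121c4b00282002820028200282002820028200282002820028a002aa0028a2a0710028a463110028a2234b00282002820028200282002820028200282002820002a10b512e0511116d2a30f29c0b2a30b0a325000a8000a8000a8000a8000a2000a20008a0032a000a8000a8000a8000a8000aa80b4f8194f61187000a2000a2000aa80a6f000a2000a281a2f614270002a4446f8117160a8b6541160c4b81a2d40c650008a000aa0008a8116f0008a8132f0008a622270002a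80a714606f4588b662118132d6214b421650002a80b51660518116d4630f45c0b4630b423250002a4446d4606d458894630d45c09463092234300228002280022800228002a8002a8002a8002a800228002280022800228002a8002a8002a8002a8002280022800228002280022200222002a2002a20022800228002280022800222002220020a08c6f0022800228002280022800222002220020a0028a0022800228002280022800222002220020a0a16f0022800228002280022800222002220020a0a32f0022800228002280022800222002220020a11a2700228002280022800228002a8002a8002a8002a800228002280022800228002a8002a8002a8002a800228002280022800228000a2000a2002aa05471002280022800228002280022a3026f501712c28b002280022800228002280008a002aa0008a06271002280022800228002280022a508713106f2d08b002280022800228002280022a3131131a110a32d002280022800228002280022a10b4b1194b11165000a8000a8000a8000a80022200222002a2002a2000a8000a8000a8000a80022200222002aa214710022200222002a2002a20022200222002a2002a200222002220022a3034f00222002224cc112c44b00222002220008a002aa00222002220008a063510022200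2220022a310710022200222318510a16d00222002220022a50b1100222002223130f2d40b00222002220022a3034b00222002223130b11325000a8000a8000a8000a8000a2000a20008a40c6f000a8000a8000a8000a8000aa8426f881716428b000a2000a2000aa8434f000a2000a268c116444b0002a002ca8c14f681878c22f684278c22d444650008a000aa0008a842710008a843510008a40c6d0002a8816f5086f4c88b708518816d5086d4c8890002a8832f70a118832d50b0f4cc0b50b0d4cc090002a702277014b5016550b0b5032550b0930343000a8000a8000a8000a8000a2000a20020a0028a000a8000a8000a8000a80020a002aa0020a22271000a2000a20020a002aa000a2000a20020a223510020a0022a0020a302710020a303510020a08c6d0020a0028a0020a0028a0020a0028a0020a0028a0020a0022a0020a3184f0020a4e1110020a2e04b0020a0022a0020a519110020a31a0f0020a2e20b0020a0022a0020a3184b0020a31a0b0020a11a25000a8000a8000a8000a8000a2000a20008a4216f000a8000a8000a8000a8000aa888718506f6508b000a2000a2000aa85071000a2000a2858514216d0002a5016f8886f6888b8c8515016d8886d688890008a000aa0008a8584f0008a6a1110008a6604b0002a8c84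f002b2688878d02f8d02d6a027460650002a711118982f8982d5190f5190d4e10b4e1090002a7084b71027508655190b519095182531843000a8000a8000a8000a8000a2000a20008a4232f000a8000a8000a8000a8000aa8531185a114232d000a2000a2000aa88b11000a2000a28530f6540b0002a5032f8ca115032d88b0f68c0b88b0d68c090008a000aa0008a899110008a85a0f0008a6620b0002a8d1115182f5182d8990f8990d6a10b6a1090002a8ca0f8d10f8d10d002ac68c076a107463050002a70a0b7110b711097110750b055190531a03000a8000a8000a8000a8000a2000a20008a81a27000a8000a8000a8000a8000aa80b4b8194b81165000a2000a2000aa8434b000a2000a28530b813250002a8c2278c14b8816588b0b8832588b09843430008a000aa0008a8584b0008a85a0b0008a81a250002a8c84b8d027888658990b8990989825858430002a8ca0b8d10b8d1098d10788b058990585a030002a8c2258d0258c8438d1058ca038d1038d101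

/-- Certificates. -/
def clsCode (n m : ℕ) : ℕ :=
  ((match n with
    | 2 => clsT2
    | 3 => clsT3
    | 4 => clsT4
    | 5 => clsT5
    | _ => 1) >>> (20 * m)) % 1048576

def clsVec (c i : ℕ) : ℤ := (((c >>> (1 + 2 * i)) % 4 : ℕ) : ℤ)

def clsPerm (c i : ℕ) : ℕ := (c >>> (5 + 3 * i)) % 8

/-- The canonical codes. -/
def clsCanon (t : ℕ) : ℕ := ([0, 1, 3, 11, 12, 13, 76, 77, 86] : List ℕ).getD t 0

/-- The number of canonical codes. -/
def clsBound (n : ℕ) : ℕ := ([1, 1, 2, 3, 6, 9] : List ℕ).getD n 0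

/-- The certificate of the code `m` is correct. -/
def ClsGood (n m : ℕ) : Prop :=
  if clsCode n m % 2 = 0 then
    (∃ i : Fin n, clsVec (clsCode n m) i ≠ 0) ∧
      ∑ i : Fin n, ∑ j : Fin n,
        clsVec (clsCode n m) i * clsC m i j * clsVec (clsCode n m) j ≤ 0
  else
    ((clsCode n m >>> 1) % 16 < clsBound n ∧ ∀ i : Fin n, clsPerm (clsCode n m) i < n) ∧
      (∀ i j : Fin n, clsPerm (clsCode n m) i = clsPerm (clsCode n m) j → i = j) ∧
      (∀ i j : Fin n, clsC m i j =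
        clsC (clsCanon ((clsCode n m >>> 1) % 16)) (clsPerm (clsCode n m) i)
          (clsPerm (clsCode n m) j))

instance (n m : ℕ) : Decidable (ClsGood n m) := by
  unfold ClsGood
  infer_instance

theorem clsGood5 : ∀ m < 1024, ClsGood 5 m := by decide +kernel

theorem clsGood4 : ∀ m < 64, ClsGood 4 m := by decide +kernel

theorem clsGood3 : ∀ m < 8, ClsGood 3 m := by decide +kernel

theorem clsGood2 : ∀ m < 2, ClsGood 2 m := by decide +kernel

/-- The conclusion. -/
def ClsP (n : ℕ) (C : Matrix (Fin n) (Fin n) ℤ) : Prop :=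
  ∃ (N : ℕ) (wt : Fin N → ℤ) (X : Fin n → Fin N → ℤ), IsFrame C wt X ∧ n ≤ N ∧
    (N ≤ n + 1 ∨ (N = n + 2 ∧ ((n = 4 ∧ C.det = 9) ∨ (n = 5 ∧ (C.det = 12 ∨ C.det = 18)))))

theorem clsP_relabel {n : ℕ} {C D : Matrix (Fin n) (Fin n) ℤ} (hD : ClsP n D)
    (σ : Equiv.Perm (Fin n)) (h : ∀ i j, C i j = D (σ i) (σ j)) : ClsP n C := by
  obtain ⟨N, wt, X, hX, h1, h2⟩ := hD
  have hdet : C.det = D.det := by
    have : C = D.submatrix σ σ := by
      ext i j
      exact h i j
    rw [this, Matrix.det_submatrix_equiv_self]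
  refine ⟨N, wt, fun i => X (σ i), ⟨hX.wt12, fun i => hX.row (σ i), fun i j => ?_⟩, h1, ?_⟩
  · rw [h]
    exact hX.gram _ _
  · rw [hdet]
    exact h2

theorem clsFr_2_0 : ClsP 2 (fun i j => clsC 0 i j) :=
  ⟨2, ![2, 2], ![![1, 0], ![0, 1]], ⟨by decide +kernel, by decide +kernel, by decide +kernel⟩, ⟨by norm_num, Or.inl (by norm_num)⟩⟩

theorem clsFr_2_1 : ClsP 2 (fun i j => clsC 1 i j) :=
  ⟨3, ![1, 1, 1], ![![1, -1, 0], ![0, 1, -1]], ⟨by decide +kernel, by decide +kernel, by decide +kernel⟩, ⟨by norm_num, Or.inl (by norm_num)⟩⟩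

theorem clsFr_3_0 : ClsP 3 (fun i j => clsC 0 i j) :=
  ⟨3, ![2, 2, 2], ![![1, 0, 0], ![0, 1, 0], ![0, 0, 1]], ⟨by decide +kernel, by decide +kernel, by decide +kernel⟩, ⟨by norm_num, Or.inl (by norm_num)⟩⟩

theorem clsFr_3_1 : ClsP 3 (fun i j => clsC 1 i j) :=
  ⟨4, ![1, 1, 1, 2], ![![1, -1, 0, 0], ![0, 1, -1, 0], ![0, 0, 0, 1]], ⟨by decide +kernel, by decide +kernel, by decide +kernel⟩, ⟨by norm_num, Or.inl (by norm_num)⟩⟩

theorem clsFr_3_3 : ClsP 3 (fun i j => clsC 3 i j) :=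
  ⟨3, ![1, 1, 1], ![![1, -1, 0], ![0, 1, -1], ![0, 1, 1]], ⟨by decide +kernel, by decide +kernel, by decide +kernel⟩, ⟨by norm_num, Or.inl (by norm_num)⟩⟩

theorem clsFr_4_0 : ClsP 4 (fun i j => clsC 0 i j) :=
  ⟨4, ![2, 2, 2, 2], ![![1, 0, 0, 0], ![0, 1, 0, 0], ![0, 0, 1, 0], ![0, 0, 0, 1]], ⟨by decide +kernel, by decide +kernel, by decide +kernel⟩, ⟨by norm_num, Or.inl (by norm_num)⟩⟩

theorem clsFr_4_1 : ClsP 4 (fun i j => clsC 1 i j) :=
  ⟨5, ![1, 1, 1, 2, 2], ![![1, -1, 0, 0, 0], ![0, 1, -1, 0, 0], ![0, 0, 0, 1, 0], ![0, 0, 0, 0, 1]], ⟨by decide +kernel, by decide +kernel, by decide +kernel⟩, ⟨by norm_num, Or.inl (by norm_num)⟩⟩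

theorem clsFr_4_3 : ClsP 4 (fun i j => clsC 3 i j) :=
  ⟨4, ![1, 1, 1, 2], ![![1, -1, 0, 0], ![0, 1, -1, 0], ![0, 1, 1, 0], ![0, 0, 0, 1]], ⟨by decide +kernel, by decide +kernel, by decide +kernel⟩, ⟨by norm_num, Or.inl (by norm_num)⟩⟩

theorem clsFr_4_11 : ClsP 4 (fun i j => clsC 11 i j) :=
  ⟨4, ![1, 1, 1, 1], ![![0, 1, -1, 0], ![1, -1, 0, 0], ![0, 0, 1, -1], ![0, 0, 1, 1]], ⟨by decide +kernel, by decide +kernel, by decide +kernel⟩, ⟨by norm_num, Or.inl (by norm_num)⟩⟩

theorem clsFr_4_12 : ClsP 4 (fun i j => clsC 12 i j) :=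
  ⟨6, ![1, 1, 1, 1, 1, 1], ![![0, 0, 0, 1, -1, 0], ![1, -1, 0, 0, 0, 0], ![0, 1, -1, 0, 0, 0], ![0, 0, 0, 0, 1, -1]], ⟨by decide +kernel, by decide +kernel, by decide +kernel⟩, ⟨by norm_num, Or.inr ⟨rfl, Or.inl ⟨rfl, by decide +kernel⟩⟩⟩⟩

theorem clsFr_4_13 : ClsP 4 (fun i j => clsC 13 i j) :=
  ⟨5, ![1, 1, 1, 1, 1], ![![0, 1, -1, 0, 0], ![0, 0, 1, -1, 0], ![0, 0, 0, 1, -1], ![1, -1, 0, 0, 0]], ⟨by decide +kernel, by decide +kernel, by decide +kernel⟩, ⟨by norm_num, Or.inl (by norm_num)⟩⟩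

theorem clsFr_5_0 : ClsP 5 (fun i j => clsC 0 i j) :=
  ⟨5, ![2, 2, 2, 2, 2], ![![1, 0, 0, 0, 0], ![0, 1, 0, 0, 0], ![0, 0, 1, 0, 0], ![0, 0, 0, 1, 0], ![0, 0, 0, 0, 1]], ⟨by decide +kernel, by decide +kernel, by decide +kernel⟩, ⟨by norm_num, Or.inl (by norm_num)⟩⟩

theorem clsFr_5_1 : ClsP 5 (fun i j => clsC 1 i j) :=
  ⟨6, ![1, 1, 1, 2, 2, 2], ![![1, -1, 0, 0, 0, 0], ![0, 1, -1, 0, 0, 0], ![0, 0, 0, 1, 0, 0], ![0, 0, 0, 0, 1, 0], ![0, 0, 0, 0, 0, 1]], ⟨by decide +kernel, by decide +kernel, by decide +kernel⟩, ⟨by norm_num, Or.inl (by norm_num)⟩⟩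

theorem clsFr_5_3 : ClsP 5 (fun i j => clsC 3 i j) :=
  ⟨5, ![1, 1, 1, 2, 2], ![![1, -1, 0, 0, 0], ![0, 1, -1, 0, 0], ![0, 1, 1, 0, 0], ![0, 0, 0, 1, 0], ![0, 0, 0, 0, 1]], ⟨by decide +kernel, by decide +kernel, by decide +kernel⟩, ⟨by norm_num, Or.inl (by norm_num)⟩⟩

theorem clsFr_5_11 : ClsP 5 (fun i j => clsC 11 i j) :=
  ⟨5, ![1, 1, 1, 1, 2], ![![0, 1, -1, 0, 0], ![1, -1, 0, 0, 0], ![0, 0, 1, -1, 0], ![0, 0, 1, 1, 0], ![0, 0, 0, 0, 1]], ⟨by decide +kernel, by decide +kernel, by decide +kernel⟩, ⟨by norm_num, Or.inl (by norm_num)⟩⟩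

theorem clsFr_5_12 : ClsP 5 (fun i j => clsC 12 i j) :=
  ⟨7, ![1, 1, 1, 1, 1, 1, 2], ![![0, 0, 0, 1, -1, 0, 0], ![1, -1, 0, 0, 0, 0, 0], ![0, 1, -1, 0, 0, 0, 0], ![0, 0, 0, 0, 1, -1, 0], ![0, 0, 0, 0, 0, 0, 1]], ⟨by decide +kernel, by decide +kernel, by decide +kernel⟩, ⟨by norm_num, Or.inr ⟨rfl, Or.inr ⟨rfl, Or.inr (by decide +kernel)⟩⟩⟩⟩

theorem clsFr_5_13 : ClsP 5 (fun i j => clsC 13 i j) :=
  ⟨6, ![1, 1, 1, 1, 1, 2], ![![0, 1, -1, 0, 0, 0], ![0, 0, 1, -1, 0, 0], ![0, 0, 0, 1, -1, 0], ![1, -1, 0, 0, 0, 0], ![0, 0, 0, 0, 0, 1]], ⟨by decide +kernel, by decide +kernel, by decide +kernel⟩, ⟨by norm_num, Or.inl (by norm_num)⟩⟩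

theorem clsFr_5_76 : ClsP 5 (fun i j => clsC 76 i j) :=
  ⟨6, ![1, 1, 1, 1, 1, 1], ![![1, -1, 0, 0, 0, 0], ![0, 0, 0, 1, -1, 0], ![0, 0, 0, 0, 1, -1], ![0, 1, -1, 0, 0, 0], ![0, 1, 1, 0, 0, 0]], ⟨by decide +kernel, by decide +kernel, by decide +kernel⟩, ⟨by norm_num, Or.inl (by norm_num)⟩⟩

theorem clsFr_5_77 : ClsP 5 (fun i j => clsC 77 i j) :=
  ⟨5, ![1, 1, 1, 1, 1], ![![0, 0, 1, -1, 0], ![0, 1, -1, 0, 0], ![1, -1, 0, 0, 0], ![0, 0, 0, 1, -1], ![0, 0, 0, 1, 1]], ⟨by decide +kernel, by decide +kernel, by decide +kernel⟩, ⟨by norm_num, Or.inl (by norm_num)⟩⟩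

theorem clsFr_5_86 : ClsP 5 (fun i j => clsC 86 i j) :=
  ⟨6, ![1, 1, 1, 1, 1, 1], ![![0, 1, -1, 0, 0, 0], ![0, 0, 0, 1, -1, 0], ![0, 0, 1, -1, 0, 0], ![0, 0, 0, 0, 1, -1], ![1, -1, 0, 0, 0, 0]], ⟨by decide +kernel, by decide +kernel, by decide +kernel⟩, ⟨by norm_num, Or.inl (by norm_num)⟩⟩

theorem clsFr_0 (C : Matrix (Fin 0) (Fin 0) ℤ) : ClsP 0 C :=
  ⟨0, fun _ => 1, fun _ _ => 1, ⟨fun a => a.elim0, fun i => i.elim0, fun i => i.elim0⟩,
    le_rfl, Or.inl (by norm_num)⟩

theorem clsFr_1 (C : Matrix (Fin 1) (Fin 1) ℤ) (hd : ∀ i, C i i = 2) : ClsP 1 C := by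
  refine ⟨1, fun _ => 2, fun _ _ => 1, ⟨fun a => Or.inr rfl, fun i => Or.inr ⟨0, rfl, rfl, ?_⟩,
    fun i j => ?_⟩, le_rfl, Or.inl (by norm_num)⟩
  · intro c hc
    exact absurd (Subsingleton.elim c 0) hc
  · have hij : j = i := Subsingleton.elim _ _
    subst hij
    simp [hd]

theorem cls_main {n m : ℕ} (hg : ClsGood n m)
    (hcan : ∀ t < clsBound n, ClsP n (fun i j => clsC (clsCanon t) i j))
    (C : Matrix (Fin n) (Fin n) ℤ) (hC : ∀ i j : Fin n, C i j = clsC m i j)
    (hp : ∀ x : Fin n → ℤ, x ≠ 0 → 0 < ∑ i, ∑ j, x i * C i j * x j) : ClsP n C := by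
  unfold ClsGood at hg
  split_ifs at hg with h
  · exfalso
    obtain ⟨⟨i, hi⟩, h2⟩ := hg
    have h3 := hp (fun i => clsVec (clsCode n m) i) (fun h0 => hi (congrFun h0 i))
    simp only [hC] at h3
    linarith
  · obtain ⟨⟨ht, h1⟩, h2, h3⟩ := hg
    set f : Fin n → Fin n := fun i => ⟨clsPerm (clsCode n m) i, h1 i⟩ with hf
    have hinj : Function.Injective f := by
      intro i j hij
      apply h2
      exact congrArg Fin.val hij
    refine clsP_relabel (hcan _ ht) (Equiv.ofBijective f (Finite.injective_iff_bijective.1 hinj)) ?_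
    intro i j
    rw [hC, h3]
    rfl

theorem cls_code {n : ℕ} (C : Matrix (Fin n) (Fin n) ℤ) (k : ℕ) (e : Fin k → Fin n × Fin n)
    (hd : ∀ i, C i i = 2) (hs : ∀ i j, C i j = C j i)
    (ho : ∀ i j, i ≠ j → C i j = 0 ∨ C i j = -1)
    (he : ∀ i j : Fin n, i < j → ∃ h : clsPair i j < k, e ⟨clsPair i j, h⟩ = (i, j)) :
    ∃ m < 2 ^ k, ∀ i j : Fin n, C i j = clsC m i j := by
  refine ⟨Nat.ofBits (fun p : Fin k => decide (C (e p).1 (e p).2 = -1)), Nat.ofBits_lt_two_pow _,
    ?_⟩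
  have key : ∀ i j : Fin n, i < j → C i j = clsC
      (Nat.ofBits (fun p : Fin k => decide (C (e p).1 (e p).2 = -1))) i j := by
    intro i j hij
    obtain ⟨h, h2⟩ := he i j hij
    unfold clsC
    have hne : (i : ℕ) ≠ j := fun h => absurd (Fin.ext h) hij.ne
    rw [if_neg hne, Nat.testBit_ofBits_lt _ _ h, h2]
    rcases ho i j hij.ne with h3 | h3
    · simp [h3]
    · simp [h3]
  intro i j
  rcases lt_trichotomy i j with h | h | h
  · exact key i j h
  · subst h
    unfold clsC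
    simp [hd]
  · rw [hs, key j i h]
    unfold clsC
    have hne : (i : ℕ) ≠ j := fun h' => absurd (Fin.ext h') h.ne'
    have h1 : clsPair (j : ℕ) (i : ℕ) = clsPair i j := by
      unfold clsPair
      have h5 : (j : ℕ) < i := h
      rw [if_pos h5, if_neg (by omega)]
    rw [if_neg hne, if_neg (Ne.symm hne), h1]

theorem exists_frame (n : ℕ) (hn : n ≤ 5) (C : Matrix (Fin n) (Fin n) ℤ) (hd : ∀ i, C i i = 2)
    (hs : ∀ i j, C i j = C j i) (ho : ∀ i j, i ≠ j → C i j = 0 ∨ C i j = -1)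
    (hp : ∀ x : Fin n → ℤ, x ≠ 0 → 0 < ∑ i, ∑ j, x i * C i j * x j) :
    ∃ (N : ℕ) (wt : Fin N → ℤ) (X : Fin n → Fin N → ℤ), IsFrame C wt X ∧ n ≤ N ∧
      (N ≤ n + 1 ∨ (N = n + 2 ∧ ((n = 4 ∧ C.det = 9) ∨ (n = 5 ∧ (C.det = 12 ∨ C.det = 18))))) := by
  have hmain : ClsP n C := by
    interval_cases n
    · exact clsFr_0 C
    · exact clsFr_1 C hd
    · obtain ⟨m, hm, hC⟩ := cls_code C 1 ![(0, 1)] hd hs ho (by decide)
      refine cls_main (clsGood2 m (by simpa using hm)) ?_ C hC hp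
      intro t ht
      have ht' : t < 2 := ht
      interval_cases t
      · exact clsFr_2_0
      · exact clsFr_2_1
    · obtain ⟨m, hm, hC⟩ := cls_code C 3 ![(0, 1), (0, 2), (1, 2)] hd hs ho (by decide)
      refine cls_main (clsGood3 m (by simpa using hm)) ?_ C hC hp
      intro t ht
      have ht' : t < 3 := ht
      interval_cases t
      · exact clsFr_3_0
      · exact clsFr_3_1
      · exact clsFr_3_3
    · obtain ⟨m, hm, hC⟩ := cls_code C 6 ![(0, 1), (0, 2), (1, 2), (0, 3), (1, 3), (2, 3)]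
        hd hs ho (by decide)
      refine cls_main (clsGood4 m (by simpa using hm)) ?_ C hC hp
      intro t ht
      have ht' : t < 6 := ht
      interval_cases t
      · exact clsFr_4_0
      · exact clsFr_4_1
      · exact clsFr_4_3
      · exact clsFr_4_11
      · exact clsFr_4_12
      · exact clsFr_4_13
    · obtain ⟨m, hm, hC⟩ := cls_code C 10 ![(0, 1), (0, 2), (1, 2), (0, 3), (1, 3), (2, 3),
        (0, 4), (1, 4), (2, 4), (3, 4)] hd hs ho (by decide)
      refine cls_main (clsGood5 m (by simpa using hm)) ?_ C hC hp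
      intro t ht
      have ht' : t < 9 := ht
      interval_cases t
      · exact clsFr_5_0
      · exact clsFr_5_1
      · exact clsFr_5_3
      · exact clsFr_5_11
      · exact clsFr_5_12
      · exact clsFr_5_13
      · exact clsFr_5_76
      · exact clsFr_5_77
      · exact clsFr_5_86
  exact hmain

end Pool.Agent.PGZ
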