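import Pool.Agent.PGZ.Defs

/-! # PGZ, module FRAME: the signed permutation action on a frame -/

set_option autoImplicit false

noncomputable section

namespace Pool.Agent.PGZ

open Module

section frameaux

variable {n N : ℕ}

/-- The functional `v ↦ ∑ wt a * w a * v a`. -/
private def fip (wt : Fin N → ℤ) (w : Fin N → ℚ) : (Fin N → ℚ) →ₗ[ℚ] ℚ :=
  ∑ a, ((wt a : ℚ) * w a) • LinearMap.proj a

private lemma fip_apply (wt : Fin N → ℤ) (w v : Fin N → ℚ) :
    fip wt w v = ∑ a, (wt a : ℚ) * w a * v a := by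
  simp [fip, LinearMap.sum_apply, LinearMap.smul_apply, LinearMap.proj_apply, smul_eq_mul]

/-- The rational row. -/
private def rowQ (X : Fin n → Fin N → ℤ) (i : Fin n) : Fin N → ℚ := fun a => (X i a : ℚ)

private lemma fip_row (C : Matrix (Fin n) (Fin n) ℤ) (wt : Fin N → ℤ) (X : Fin n → Fin N → ℤ)
    (hf : IsFrame C wt X) (i j : Fin n) : fip wt (rowQ X i) (rowQ X j) = (C i j : ℚ) := by
  rw [fip_apply, hf.gram i j]
  push_cast
  rfl

private lemma det_ne {L : Type*} [AddCommGroup L] (B : L →ₗ[ℤ] L →ₗ[ℤ] ℤ) (hB : PD B)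
    (α : Fin n → L) (hα : LinearIndependent ℤ α) :
    (Matrix.of fun i j => B (α i) (α j)).det ≠ 0 := by
  intro h
  obtain ⟨v, hv, hv0⟩ := Matrix.exists_mulVec_eq_zero_iff.2 h
  have h1 : B (∑ i, v i • α i) (∑ i, v i • α i) = 0 := by
    have : B (∑ i, v i • α i) (∑ i, v i • α i) =
        ∑ i, v i * (Matrix.mulVec (Matrix.of fun i j => B (α i) (α j)) v) i := by
      simp only [map_sum, LinearMap.sum_apply, map_smul, LinearMap.smul_apply, smul_eq_mul,
        Matrix.mulVec, dotProduct, Matrix.of_apply, Finset.mul_sum]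
      rw [Finset.sum_comm]
      refine Finset.sum_congr rfl fun i _ => Finset.sum_congr rfl fun j _ => ?_
      ring
    rw [this, hv0]
    simp
  have h2 : ∑ i, v i • α i = 0 := by
    by_contra hne
    exact absurd h1 (ne_of_gt (hB.pos _ hne))
  have h3 := Fintype.linearIndependent_iff.1 hα v h2
  exact hv (funext h3)

private lemma frame_data {L : Type*} [AddCommGroup L] [Module.Free ℤ L] [Module.Finite ℤ L]
    (B : L →ₗ[ℤ] L →ₗ[ℤ] ℤ) (hB : PD B)
    (hn : n = finrank ℤ L) (α : Fin n → L) (hα : LinearIndependent ℤ α)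
    (wt : Fin N → ℤ) (X : Fin n → Fin N → ℤ)
    (hf : IsFrame (Matrix.of fun i j => B (α i) (α j)) wt X) :
    ∃ (Y : L →+ (Fin N → ℚ)) (b : Basis (Fin n) ℤ L) (φ : Fin n → ((Fin N → ℚ) →ₗ[ℚ] ℚ)),
      (∀ x i, fip wt (rowQ X i) (Y x) = (B x (α i) : ℚ)) ∧
      (∀ i, Y (α i) = rowQ X i) ∧
      (∀ v i, fip wt (rowQ X i) (v - ∑ j, φ j v • Y (b j)) = 0) ∧
      (∀ i j, φ i (Y (b j)) = if i = j then 1 else 0) := by
  classical
  set C : Matrix (Fin n) (Fin n) ℤ := Matrix.of fun i j => B (α i) (α j) with hC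
  have hdet : C.det ≠ 0 := det_ne B hB α hα
  set Cq : Matrix (Fin n) (Fin n) ℚ := C.map (Int.castRingHom ℚ) with hCq
  have hdetq : IsUnit Cq.det := by
    have : Cq.det = ((C.det : ℤ) : ℚ) := by
      rw [hCq, ← RingHom.mapMatrix_apply, ← RingHom.map_det]; rfl
    rw [this, isUnit_iff_ne_zero]
    exact_mod_cast hdet
  have hDC : Cq⁻¹ * Cq = 1 := Matrix.nonsing_inv_mul _ hdetq
  have hCD : Cq * Cq⁻¹ = 1 := Matrix.mul_nonsing_inv _ hdetq
  have hsym : ∀ i j, Cq i j = Cq j i := by
    intro i j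
    simp only [hCq, hC, Matrix.map_apply, Matrix.of_apply]
    rw [hB.symm]
  -- coordinates
  let c : (Fin n → ℚ) → Fin n → ℚ := fun u => Matrix.mulVec Cq⁻¹ u
  have hc : ∀ u, Matrix.mulVec Cq (c u) = u := by
    intro u
    simp only [c]
    rw [Matrix.mulVec_mulVec, hCD, Matrix.one_mulVec]
  have hfr : ∀ i j, fip wt (rowQ X i) (rowQ X j) = Cq i j := by
    intro i j
    rw [fip_row C wt X hf i j]
    rfl
  -- pairing of a combination of the rows
  have hpair : ∀ (u : Fin n → ℚ) i, fip wt (rowQ X i) (∑ k, c u k • rowQ X k) = u i := by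
    intro u i
    rw [map_sum]
    simp only [map_smul, smul_eq_mul, hfr]
    have := congrFun (hc u) i
    simp only [Matrix.mulVec, dotProduct] at this
    rw [← this]
    exact Finset.sum_congr rfl fun k _ => mul_comm _ _
  have hcadd : ∀ u v, c (u + v) = c u + c v := fun u v => Matrix.mulVec_add _ _ _
  have hcsmul : ∀ (t : ℚ) v, c (t • v) = t • c v := fun t v => Matrix.mulVec_smul _ _ _
  let Y : L →+ (Fin N → ℚ) := AddMonoidHom.mk' (fun x => ∑ k, c (fun i => (B x (α i) : ℚ)) k •
    rowQ X k) (by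
      intro x y
      have : (fun i => (B (x + y) (α i) : ℚ)) =
          (fun i => (B x (α i) : ℚ)) + (fun i => (B y (α i) : ℚ)) := by
        funext i
        simp
      rw [this, hcadd]
      simp only [Pi.add_apply, add_smul, Finset.sum_add_distrib])
  have hY : ∀ x, Y x = ∑ k, c (fun i => (B x (α i) : ℚ)) k • rowQ X k := fun x => rfl
  have hcα : ∀ j, c (fun i => (B (α j) (α i) : ℚ)) = Pi.single j 1 := by
    intro j
    have h1 : (fun i => (B (α j) (α i) : ℚ)) = Matrix.mulVec Cq (Pi.single j 1) := by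
      funext i
      rw [Matrix.mulVec_single_one]
      simp only [Matrix.col_apply, hCq, hC, Matrix.map_apply, Matrix.of_apply]
      rw [hB.symm]
      rfl
    simp only [c]
    rw [h1, Matrix.mulVec_mulVec, hDC, Matrix.one_mulVec]
  let b : Basis (Fin n) ℤ L := (Module.finBasis ℤ L).reindex (finCongr hn.symm)
  -- the matrix of the coordinates of the basis vectors
  let K : Matrix (Fin n) (Fin n) ℚ := Matrix.of fun i j => c (fun l => (B (b j) (α l) : ℚ)) i
  let A : Matrix (Fin n) (Fin n) ℚ := Matrix.of fun j i => ((b.repr (α i) j : ℤ) : ℚ)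
  have hKA : K * A = 1 := by
    ext i j
    rw [Matrix.mul_apply, Matrix.one_apply]
    have h1 : (fun l => (B (α j) (α l) : ℚ)) =
        ∑ m, ((b.repr (α j) m : ℤ) : ℚ) • (fun l => (B (b m) (α l) : ℚ)) := by
      funext l
      conv_lhs => rw [← b.sum_repr (α j)]
      simp only [map_sum, LinearMap.sum_apply, map_smul, LinearMap.smul_apply, smul_eq_mul,
        Finset.sum_apply, Pi.smul_apply]
      push_cast
      rfl
    have h2 := hcα j
    rw [h1] at h2
    have h3 : c (∑ m, ((b.repr (α j) m : ℤ) : ℚ) • (fun l => (B (b m) (α l) : ℚ))) =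
        ∑ m, ((b.repr (α j) m : ℤ) : ℚ) • c (fun l => (B (b m) (α l) : ℚ)) := by
      simp only [c]
      rw [Matrix.mulVec_sum]
      exact Finset.sum_congr rfl fun m _ => Matrix.mulVec_smul _ _ _
    rw [h3] at h2
    have h4 := congrFun h2 i
    simp only [Finset.sum_apply, Pi.smul_apply, smul_eq_mul, Pi.single_apply] at h4
    simp only [K, A, Matrix.of_apply]
    rw [← h4]
    exact Finset.sum_congr rfl fun m _ => mul_comm _ _
  have hAK : A * K = 1 := mul_eq_one_comm.1 hKA
  let φ : Fin n → ((Fin N → ℚ) →ₗ[ℚ] ℚ) := fun j =>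
    ∑ i, ∑ k, (A j i * Cq⁻¹ i k) • fip wt (rowQ X k)
  have hφ : ∀ j v, φ j v = ∑ i, A j i * c (fun k => fip wt (rowQ X k) v) i := by
    intro j v
    simp only [φ, LinearMap.sum_apply, LinearMap.smul_apply, smul_eq_mul, c, Matrix.mulVec,
      dotProduct, Finset.mul_sum, mul_assoc]
  have h1 : ∀ x i, fip wt (rowQ X i) (Y x) = (B x (α i) : ℚ) := by
    intro x i
    rw [hY, hpair]
  refine ⟨Y, b, φ, h1, ?_, ?_, ?_⟩
  · intro i
    rw [hY, hcα]
    simp [Pi.single_apply]
  · intro v i
    rw [map_sub, map_sum]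
    simp only [map_smul, smul_eq_mul, h1]
    -- ∑ j, φ j v * B (b j) (α i)
    have h5 : ∀ j, (B (b j) (α i) : ℚ) = ∑ m, Cq i m * K m j := by
      intro j
      have := congrFun (hc (fun l => (B (b j) (α l) : ℚ))) i
      simp only [Matrix.mulVec, dotProduct] at this
      rw [← this]
      rfl
    have h6 : ∑ j, φ j v * (B (b j) (α i) : ℚ) =
        (Cq * K * A).mulVec (c (fun k => fip wt (rowQ X k) v)) i := by
      rw [← Matrix.mulVec_mulVec]
      simp only [Matrix.mulVec, dotProduct]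
      refine Finset.sum_congr rfl fun j _ => ?_
      rw [Matrix.mul_apply, h5, hφ]
      exact mul_comm _ _
    rw [h6, Matrix.mul_assoc, hKA, Matrix.mul_one, hc]
    simp
  · intro i j
    rw [hφ]
    have h7 : (fun k => fip wt (rowQ X k) (Y (b j))) = fun k => (B (b j) (α k) : ℚ) := by
      funext k
      rw [h1]
    rw [h7]
    have := congrFun (congrFun hAK i) j
    rw [Matrix.mul_apply, Matrix.one_apply] at this
    exact this

/-- The set of signed unit vectors. -/
private def sgnSet (N : ℕ) : Set (Fin N → ℚ) :=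
  {v | ∃ a : Fin N, v = Pi.single a 1 ∨ v = -Pi.single a 1}

/-- The reflection. -/
private def frefl (wt : Fin N → ℤ) (y : Fin N → ℚ) (hy : fip wt y y = 2) :
    (Fin N → ℚ) ≃ₗ[ℚ] (Fin N → ℚ) :=
  LinearEquiv.ofInvolutive (LinearMap.id - (fip wt y).smulRight y) (by
    intro v
    simp only [LinearMap.sub_apply, LinearMap.id_apply, LinearMap.smulRight_apply, map_sub,
      map_smul, hy]
    module)

private lemma frefl_apply (wt : Fin N → ℤ) (y : Fin N → ℚ) (hy : fip wt y y = 2)
    (v : Fin N → ℚ) : frefl wt y hy v = v - fip wt y v • y := rfl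

private lemma fip_single (wt : Fin N → ℤ) (y : Fin N → ℚ) (c : Fin N) :
    fip wt y (Pi.single c 1) = (wt c : ℚ) * y c := by
  rw [fip_apply, Finset.sum_eq_single c]
  · simp
  · intro d _ hd
    simp [hd]
  · simp

private lemma frame_two (C : Matrix (Fin n) (Fin n) ℤ) (wt : Fin N → ℤ) (X : Fin n → Fin N → ℤ)
    (hf : IsFrame C wt X) (i : Fin n) : fip wt (rowQ X i) (rowQ X i) = 2 := by
  rw [fip_apply]
  rcases hf.row i with ⟨a, b, hab, ha, hb, hXa, hXb, h0⟩ | ⟨a, ha, hXa, h0⟩
  · rw [Finset.sum_eq_add a b hab]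
    · simp only [rowQ, ha, hb]
      rcases hXa with h | h <;> rcases hXb with h' | h' <;> rw [h, h'] <;> norm_num
    · intro c _ hc
      simp [rowQ, h0 c hc.1 hc.2]
    · simp
    · simp
  · rw [Finset.sum_eq_single a]
    · simp only [rowQ, ha, hXa]
      norm_num
    · intro c _ hc
      simp [rowQ, h0 c hc]
    · simp

private lemma frefl_sgn (C : Matrix (Fin n) (Fin n) ℤ) (wt : Fin N → ℤ) (X : Fin n → Fin N → ℤ)
    (hf : IsFrame C wt X) (i : Fin n) (c : Fin N) :
    Pi.single c (1 : ℚ) - fip wt (rowQ X i) (Pi.single c 1) • rowQ X i ∈ sgnSet N := by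
  classical
  rw [fip_single]
  rcases hf.row i with ⟨a, b, hab, ha, hb, hXa, hXb, h0⟩ | ⟨a, ha, hXa, h0⟩
  · by_cases hca : c = a
    · subst hca
      refine ⟨b, ?_⟩
      rcases hXa with h | h <;> rcases hXb with h' | h'
      case' inl.inl => right
      case' inl.inr => left
      case' inr.inl => left
      case' inr.inr => right
      all_goals
        funext d
        by_cases hd : d = c
        · subst hd
          simp [rowQ, ha, h, hab]
        · by_cases hd' : d = b
          · subst hd'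
            simp [rowQ, ha, h, h', hd]
          · simp [rowQ, h0 d hd hd', hd, hd']
    · by_cases hcb : c = b
      · subst hcb
        refine ⟨a, ?_⟩
        rcases hXa with h | h <;> rcases hXb with h' | h'
        case' inl.inl => right
        case' inl.inr => left
        case' inr.inl => left
        case' inr.inr => right
        all_goals
          funext d
          by_cases hd : d = a
          · subst hd
            simp [rowQ, hb, h, h', hab]
          · by_cases hd' : d = c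
            · subst hd'
              simp [rowQ, hb, h', hd]
            · simp [rowQ, h0 d hd hd', hd, hd']
      · refine ⟨c, Or.inl ?_⟩
        simp [rowQ, h0 c hca hcb]
  · by_cases hca : c = a
    · subst hca
      refine ⟨c, Or.inr ?_⟩
      funext d
      by_cases hd : d = c
      · subst hd
        simp [rowQ, ha, hXa]
        norm_num
      · simp [rowQ, h0 d hd, hd]
    · refine ⟨c, Or.inl ?_⟩
      simp [rowQ, h0 c hca]

private lemma sgnSet_neg {v : Fin N → ℚ} (hv : v ∈ sgnSet N) : -v ∈ sgnSet N := by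
  obtain ⟨a, h | h⟩ := hv
  · exact ⟨a, Or.inr (by rw [h])⟩
  · exact ⟨a, Or.inl (by rw [h, neg_neg])⟩

private lemma frefl_mem (C : Matrix (Fin n) (Fin n) ℤ) (wt : Fin N → ℤ) (X : Fin n → Fin N → ℤ)
    (hf : IsFrame C wt X) (i : Fin n) {v : Fin N → ℚ} (hv : v ∈ sgnSet N) :
    frefl wt (rowQ X i) (frame_two C wt X hf i) v ∈ sgnSet N := by
  obtain ⟨a, h | h⟩ := hv
  · rw [h, frefl_apply]
    exact frefl_sgn C wt X hf i a
  · rw [h, map_neg, frefl_apply]
    exact sgnSet_neg (frefl_sgn C wt X hf i a)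

private lemma frefl_frefl (wt : Fin N → ℤ) (y : Fin N → ℚ) (hy : fip wt y y = 2)
    (v : Fin N → ℚ) : frefl wt y hy (frefl wt y hy v) = v := by
  simp only [frefl_apply, map_sub, map_smul, hy]
  module

/-- Existence of the signed permutation which extends an element of the group of reflections. -/
private lemma exists_Q {L : Type*} [AddCommGroup L]
    (B : L →ₗ[ℤ] L →ₗ[ℤ] ℤ) (Δ : Finset L)
    (α : Fin n → L) (hΔ : ∀ x, x ∈ Δ ↔ ∃ i, α i = x)
    (wt : Fin N → ℤ) (X : Fin n → Fin N → ℤ)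
    (hf : IsFrame (Matrix.of fun i j => B (α i) (α j)) wt X)
    (Y : L →+ (Fin N → ℚ)) (h1 : ∀ x i, fip wt (rowQ X i) (Y x) = (B x (α i) : ℚ))
    (h2 : ∀ i, Y (α i) = rowQ X i)
    (g : L ≃ₗ[ℤ] L) (hg : g ∈ Subgroup.closure (Refl B Δ)) :
    ∃ Q : (Fin N → ℚ) ≃ₗ[ℚ] (Fin N → ℚ), (∀ v, Q v ∈ sgnSet N ↔ v ∈ sgnSet N) ∧
      (∀ x, Q (Y x) = Y (g x)) ∧ (∀ v, (∀ i, fip wt (rowQ X i) v = 0) → Q v = v) := by
  induction hg using Subgroup.closure_induction with
  | mem f hf' =>
    obtain ⟨x, hx, hfx⟩ := hf'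
    obtain ⟨i, rfl⟩ := (hΔ x).1 hx
    refine ⟨frefl wt (rowQ X i) (frame_two _ wt X hf i), ?_, ?_, ?_⟩
    · intro v
      constructor
      · intro h
        have := frefl_mem _ wt X hf i h
        rwa [frefl_frefl] at this
      · exact frefl_mem _ wt X hf i
    · intro x
      rw [frefl_apply, h1, hfx, map_sub, map_zsmul, h2]
      rfl
    · intro v hv
      rw [frefl_apply, hv i, zero_smul, sub_zero]
  | one => exact ⟨LinearEquiv.refl ℚ _, fun v => Iff.rfl, fun x => rfl, fun v _ => rfl⟩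
  | mul f f' _ _ ih ih' =>
    obtain ⟨Q, hQ1, hQ2, hQ3⟩ := ih
    obtain ⟨Q', hQ1', hQ2', hQ3'⟩ := ih'
    refine ⟨Q'.trans Q, ?_, ?_, ?_⟩
    · intro v
      rw [LinearEquiv.trans_apply, hQ1, hQ1']
    · intro x
      rw [LinearEquiv.trans_apply, hQ2', hQ2]
      rfl
    · intro v hv
      rw [LinearEquiv.trans_apply, hQ3' v hv, hQ3 v hv]
  | inv f _ ih =>
    obtain ⟨Q, hQ1, hQ2, hQ3⟩ := ih
    refine ⟨Q.symm, ?_, ?_, ?_⟩
    · intro v
      rw [← hQ1, LinearEquiv.apply_symm_apply]
    · intro x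
      rw [LinearEquiv.symm_apply_eq, hQ2]
      congr 1
      exact (LinearEquiv.apply_symm_apply f x).symm
    · intro v hv
      rw [LinearEquiv.symm_apply_eq, hQ3 v hv]

private lemma Q_unique {L : Type*} [AddCommGroup L] (b : Basis (Fin n) ℤ L)
    (wt : Fin N → ℤ) (X : Fin n → Fin N → ℤ)
    (Y : L →+ (Fin N → ℚ)) (φ : Fin n → ((Fin N → ℚ) →ₗ[ℚ] ℚ))
    (h3 : ∀ v i, fip wt (rowQ X i) (v - ∑ j, φ j v • Y (b j)) = 0)
    (Q Q' : (Fin N → ℚ) ≃ₗ[ℚ] (Fin N → ℚ)) (h : ∀ x, Q (Y x) = Q' (Y x))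
    (hQ : ∀ v, (∀ i, fip wt (rowQ X i) v = 0) → Q v = v)
    (hQ' : ∀ v, (∀ i, fip wt (rowQ X i) v = 0) → Q' v = v) : Q = Q' := by
  ext1 v
  have e : v = (v - ∑ j, φ j v • Y (b j)) + ∑ j, φ j v • Y (b j) := by abel
  rw [e, map_add, map_add, hQ _ (h3 v), hQ' _ (h3 v), map_sum, map_sum]
  simp only [map_smul, h]

/-- The trace of the extension. -/
private lemma Q_trace {L : Type*} [AddCommGroup L] (b : Basis (Fin n) ℤ L)
    (wt : Fin N → ℤ) (X : Fin n → Fin N → ℤ)
    (Y : L →+ (Fin N → ℚ)) (φ : Fin n → ((Fin N → ℚ) →ₗ[ℚ] ℚ))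
    (h3 : ∀ v i, fip wt (rowQ X i) (v - ∑ j, φ j v • Y (b j)) = 0)
    (h4 : ∀ i j, φ i (Y (b j)) = if i = j then 1 else 0)
    (g : L ≃ₗ[ℤ] L) (Q : (Fin N → ℚ) ≃ₗ[ℚ] (Fin N → ℚ)) (h : ∀ x, Q (Y x) = Y (g x))
    (hQ : ∀ v, (∀ i, fip wt (rowQ X i) v = 0) → Q v = v) :
    LinearMap.trace ℚ _ Q.toLinearMap = (LinearMap.trace ℤ L g.toLinearMap : ℚ) + (N : ℚ) - n := by
  classical
  have e : Q.toLinearMap = LinearMap.id + ∑ j, (φ j).smulRight (Y (g (b j)) - Y (b j)) := by
    refine LinearMap.ext fun v => ?_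
    have e : v = (v - ∑ j, φ j v • Y (b j)) + ∑ j, φ j v • Y (b j) := by abel
    have e1 : Q v = (v - ∑ j, φ j v • Y (b j)) + ∑ j, φ j v • Y (g (b j)) := by
      conv_lhs => rw [e]
      rw [map_add, hQ _ (h3 v), map_sum]
      simp only [map_smul, h]
    change Q v = _
    rw [e1]
    simp only [LinearMap.add_apply, LinearMap.id_apply, LinearMap.sum_apply,
      LinearMap.smulRight_apply, smul_sub, Finset.sum_sub_distrib]
    abel
  have hφY : ∀ x i, φ i (Y x) = (b.repr x i : ℚ) := by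
    intro x i
    conv_lhs => rw [← b.sum_repr x]
    rw [map_sum, map_sum]
    simp only [map_zsmul, h4]
    rw [Finset.sum_eq_single i]
    · simp
    · intro j _ hj
      simp [Ne.symm hj]
    · simp
  have ht : (LinearMap.trace ℤ L g.toLinearMap : ℚ) = ∑ j, (b.repr (g (b j)) j : ℚ) := by
    rw [LinearMap.trace_eq_matrix_trace ℤ b, Matrix.trace]
    push_cast
    refine Finset.sum_congr rfl fun j _ => ?_
    rw [Matrix.diag_apply, LinearMap.toMatrix_apply]
    rfl
  rw [e, map_add, map_sum, LinearMap.trace_id, ht]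
  simp only [LinearMap.trace_smulRight, map_sub, hφY, b.repr_self]
  simp
  ring

private lemma sgn_trace (Q : (Fin N → ℚ) ≃ₗ[ℚ] (Fin N → ℚ))
    (hQ : ∀ v, v ∈ sgnSet N → Q v ∈ sgnSet N) :
    2 * LinearMap.trace ℚ _ Q.toLinearMap =
      (Nat.card {s : sgnSet N // Q s = s} : ℚ) - (Nat.card {s : sgnSet N // Q s = -s} : ℚ) := by
  classical
  -- the enumeration of the signed unit vectors
  let f : Fin N × Bool → sgnSet N := fun t =>
    ⟨if t.2 then Pi.single t.1 1 else -Pi.single t.1 1, t.1, by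
      rcases t.2 with h | h <;> simp⟩
  have hf : Function.Bijective f := by
    constructor
    · rintro ⟨a, ε⟩ ⟨a', ε'⟩ h
      have h' : (if ε then Pi.single a 1 else -Pi.single a 1 : Fin N → ℚ) =
          (if ε' then Pi.single a' 1 else -Pi.single a' 1) := congrArg Subtype.val h
      have h1 := congrFun h' a
      have haa : a = a' := by
        by_contra hne
        cases ε <;> cases ε' <;> simp [hne] at h1
      subst haa
      cases ε <;> cases ε' <;> simp at h1 ⊢ <;> norm_num at h1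
    · rintro ⟨v, a, h | h⟩
      · exact ⟨(a, true), Subtype.ext (by simp [f, h])⟩
      · exact ⟨(a, false), Subtype.ext (by simp [f, h])⟩
  let e := Equiv.ofBijective f hf
  have hcount : ∀ P : (Fin N → ℚ) → Prop, (∀ v, P (-v) ↔ P v) →
      Nat.card {s : sgnSet N // P s} = 2 * (Finset.univ.filter fun a : Fin N =>
        P (Pi.single a 1)).card := by
    intro P hP
    have e1 : {t : Fin N × Bool // P (f t)} ≃ {s : sgnSet N // P s} :=
      e.subtypeEquiv fun t => Iff.rfl
    rw [← Nat.card_congr e1, Nat.card_eq_fintype_card, Fintype.card_subtype]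
    have e2 : (Finset.univ.filter fun t : Fin N × Bool => P (f t)) =
        (Finset.univ.filter fun a : Fin N => P (Pi.single a 1)) ×ˢ (Finset.univ : Finset Bool) := by
      ext ⟨a, ε⟩
      simp only [Finset.mem_filter, Finset.mem_univ, true_and, Finset.mem_product, and_true]
      cases ε
      · simp [f, hP]
      · simp [f]
    rw [e2, Finset.card_product]
    simp [mul_comm]
  have hc1 := hcount (fun v => Q v = v) (fun v => by rw [map_neg, neg_inj])
  have hc2 := hcount (fun v => Q v = -v) (fun v => by rw [map_neg, neg_inj])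
  have hc1' : Nat.card {s : sgnSet N // Q s = s} = _ := hc1
  have hc2' : Nat.card {s : sgnSet N // Q s = -s} = _ := hc2
  rw [hc1', hc2']
  have ht : LinearMap.trace ℚ _ Q.toLinearMap = ∑ a : Fin N, Q (Pi.single a 1) a := by
    rw [LinearMap.trace_eq_matrix_trace ℚ (Pi.basisFun ℚ (Fin N)), Matrix.trace]
    refine Finset.sum_congr rfl fun j _ => ?_
    rw [Matrix.diag_apply, LinearMap.toMatrix_apply]
    simp
  rw [ht, Finset.card_filter, Finset.card_filter]
  push_cast
  rw [← mul_sub, ← Finset.sum_sub_distrib]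
  congr 1
  refine Finset.sum_congr rfl fun a _ => ?_
  obtain ⟨c, h | h⟩ := hQ (Pi.single a 1) ⟨a, Or.inl rfl⟩
  · rw [h]
    by_cases hac : a = c
    · subst hac
      have : ¬ (Pi.single a (1 : ℚ) : Fin N → ℚ) = -Pi.single a 1 := by
        intro h'
        have := congrFun h' a
        simp at this
        norm_num at this
      simp [this]
    · have h1 : ¬ (Pi.single c (1 : ℚ) : Fin N → ℚ) = Pi.single a 1 := by
        intro h'
        have := congrFun h' a
        simp [hac] at this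
      have h2 : ¬ (Pi.single c (1 : ℚ) : Fin N → ℚ) = -Pi.single a 1 := by
        intro h'
        have := congrFun h' a
        simp [hac] at this
      simp [h1, h2, hac]
  · rw [h]
    by_cases hac : a = c
    · subst hac
      have : ¬ -(Pi.single a (1 : ℚ) : Fin N → ℚ) = Pi.single a 1 := by
        intro h'
        have := congrFun h' a
        simp at this
        norm_num at this
      simp [this]
    · have h1 : ¬ -(Pi.single c (1 : ℚ) : Fin N → ℚ) = Pi.single a 1 := by
        intro h'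
        have := congrFun h' a
        simp [hac] at this
      have h2 : ¬ -(Pi.single c (1 : ℚ) : Fin N → ℚ) = -Pi.single a 1 := by
        intro h'
        have := congrFun h' a
        simp [hac] at this
      simp [h1, h2, hac]

end frameaux

theorem exists_signed {L : Type*} [AddCommGroup L] [Module.Free ℤ L] [Module.Finite ℤ L]
    (B : L →ₗ[ℤ] L →ₗ[ℤ] ℤ) (hB : PD B) (Δ : Finset L) {G : Type*} [Group G]
    (r : G →* (L ≃ₗ[ℤ] L)) (hr : ∀ g, r g ∈ Subgroup.closure (Refl B Δ)) (n N : ℕ)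
    (hn : n = finrank ℤ L) (α : Fin n → L) (hα : LinearIndependent ℤ α)
    (hΔ : ∀ x, x ∈ Δ ↔ ∃ i, α i = x) (wt : Fin N → ℤ) (X : Fin n → Fin N → ℤ)
    (hf : IsFrame (Matrix.of fun i j => B (α i) (α j)) wt X) :
    ∃ (S : Type) (_ : MulAction G S) (τ : S → S), Finite S ∧ (∀ s, τ s ≠ s) ∧
      (∀ s, τ (τ s) = s) ∧ (∀ (g : G) (s : S), g • τ s = τ (g • s)) ∧
      ∀ g : G, 2 * LinearMap.trace ℤ L (r g).toLinearMap + 2 * ((N : ℤ) - n) =
        (Nat.card {s : S // g • s = s} : ℤ) - (Nat.card {s : S // g • s = τ s} : ℤ) := by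
  classical
  obtain ⟨Y, b, φ, h1, h2, h3, h4⟩ := frame_data B hB hn α hα wt X hf
  have hex := fun g : G => exists_Q B Δ α hΔ wt X hf Y h1 h2 (r g) (hr g)
  choose Q hQ1 hQ2 hQ3 using hex
  have hone : Q 1 = LinearEquiv.refl ℚ _ := by
    refine Q_unique b wt X Y φ h3 _ _ (fun x => ?_) (hQ3 1) (fun v _ => rfl)
    rw [hQ2, map_one]
    rfl
  have hmul : ∀ g h, Q (g * h) = (Q h).trans (Q g) := by
    intro g h
    refine Q_unique b wt X Y φ h3 _ _ (fun x => ?_) (hQ3 _) (fun v hv => ?_)
    · rw [hQ2, LinearEquiv.trans_apply, hQ2, hQ2, map_mul]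
      rfl
    · rw [LinearEquiv.trans_apply, hQ3 h v hv, hQ3 g v hv]
  let act : MulAction G (sgnSet N) :=
    { smul := fun g s => ⟨Q g s, (hQ1 g s).2 s.2⟩
      one_smul := fun s => Subtype.ext (by
        change Q 1 (s : Fin N → ℚ) = s
        rw [hone]
        rfl)
      mul_smul := fun g h s => Subtype.ext (by
        change Q (g * h) (s : Fin N → ℚ) = Q g (Q h s)
        rw [hmul]
        rfl) }
  refine ⟨sgnSet N, act, fun s => ⟨-s, sgnSet_neg s.2⟩, ?_, ?_, ?_, ?_, ?_⟩
  · have : (sgnSet N) = (Set.range fun a : Fin N => (Pi.single a 1 : Fin N → ℚ)) ∪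
        (Set.range fun a : Fin N => -(Pi.single a 1 : Fin N → ℚ)) := by
      ext v
      simp only [sgnSet, Set.mem_ofPred_eq, Set.mem_union, Set.mem_range]
      constructor
      · rintro ⟨a, h | h⟩
        · exact Or.inl ⟨a, h.symm⟩
        · exact Or.inr ⟨a, h.symm⟩
      · rintro (⟨a, h⟩ | ⟨a, h⟩)
        · exact ⟨a, Or.inl h.symm⟩
        · exact ⟨a, Or.inr h.symm⟩
    exact Set.Finite.to_subtype (by
      rw [this]
      exact (Set.finite_range _).union (Set.finite_range _))
  · rintro ⟨v, hv⟩ h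
    have h' : -v = v := congrArg Subtype.val h
    have h0 : v = 0 := by
      funext d
      have := congrFun h' d
      simp only [Pi.neg_apply] at this
      simp only [Pi.zero_apply]
      linarith
    clear h
    obtain ⟨a, h | h⟩ := hv
    · rw [h0] at h
      have := congrFun h a
      simp at this
    · rw [h0] at h
      have := congrFun h a
      simp at this
  · rintro ⟨v, hv⟩
    exact Subtype.ext (neg_neg v)
  · rintro g ⟨v, hv⟩
    exact Subtype.ext (map_neg (Q g) v)
  · intro g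
    have ht := Q_trace b wt X Y φ h3 h4 (r g) (Q g) (hQ2 g) (hQ3 g)
    have hs := sgn_trace (Q g) (fun v hv => (hQ1 g v).2 hv)
    have e1 : Nat.card {s : sgnSet N // g • s = s} = Nat.card {s : sgnSet N // Q g s = s} :=
      Nat.card_congr (Equiv.subtypeEquivRight fun s => by
        rw [Subtype.ext_iff]
        exact Iff.rfl)
    have e2 : Nat.card {s : sgnSet N // g • s = ⟨-s, sgnSet_neg s.2⟩} =
        Nat.card {s : sgnSet N // Q g s = -s} :=
      Nat.card_congr (Equiv.subtypeEquivRight fun s => by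
        rw [Subtype.ext_iff]
        exact Iff.rfl)
    rw [e1, e2]
    have : ((2 * LinearMap.trace ℤ L (r g).toLinearMap + 2 * ((N : ℤ) - n) : ℤ) : ℚ) =
        (((Nat.card {s : sgnSet N // Q g s = s} : ℤ) -
          (Nat.card {s : sgnSet N // Q g s = -s} : ℤ) : ℤ) : ℚ) := by
      push_cast
      rw [← hs, ht]
      ring
    exact_mod_cast this

end Pool.Agent.PGZ
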