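import Pool.Agent.PGZ.Defs

/-! # PGZ, module SPAN: the base spans -/

set_option autoImplicit false

noncomputable section

namespace Pool.Agent.PGZ

open Module

theorem base_card {L : Type*} [AddCommGroup L] [Module.Free ℤ L] [Module.Finite ℤ L]
    (B : L →ₗ[ℤ] L →ₗ[ℤ] ℤ) (hB : PD B) (ρ : L) (Δ : Finset L) (hb : IsBase B ρ Δ)
    (𝒢 : Set (L ≃ₗ[ℤ] L)) (hG : ∀ g ∈ 𝒢, g ∈ Subgroup.closure (Refl B Δ))
    (hfix : ∀ x : L, (∀ g ∈ 𝒢, g x = x) → x = 0) : Δ.card = finrank ℤ L := by
  have _ := hB
  apply le_antisymm
  · have h1 := hb.indep.fintype_card_le_finrank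
    rwa [Fintype.card_coe] at h1
  · -- the injective map to `Δ → ℤ`
    let T : L →ₗ[ℤ] (Δ → ℤ) := LinearMap.pi fun α : Δ => B.flip (α : L)
    have hT : ∀ (x : L) (α : Δ), T x α = B x α := fun x α => rfl
    have hinj : Function.Injective T := by
      rw [injective_iff_map_eq_zero]
      intro x hx
      apply hfix
      intro g hg
      have hcl := hG g hg
      have hall : ∀ f : L ≃ₗ[ℤ] L, f ∈ Subgroup.closure (Refl B Δ) → f x = x := by
        intro f hf
        induction hf using Subgroup.closure_induction with
        | mem f hf =>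
          obtain ⟨α, hα, hfα⟩ := hf
          have h0 : B x α = 0 := by
            have := congrFun hx ⟨α, hα⟩
            rw [hT] at this
            exact this
          rw [hfα x, h0, zero_smul, sub_zero]
        | one => rfl
        | mul a b _ _ ha hb =>
          show a (b x) = x
          rw [hb, ha]
        | inv a _ ha =>
          show a.symm x = x
          rw [LinearEquiv.symm_apply_eq]
          exact ha.symm
      exact hall g hcl
    have h2 := LinearMap.finrank_le_finrank_of_injective hinj
    rwa [Module.finrank_fintype_fun_eq_card, Fintype.card_coe] at h2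

end Pool.Agent.PGZ
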