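import Pool.Agent.PGZ.Defs

/-! # PGZ, module SQ: the case of a single invariant class -/

set_option autoImplicit false

noncomputable section

namespace Pool.Agent.PGZ

open Module

section sqGen

open Matrix

/-- An integral symmetric matrix which is non-negative on integral vectors has non-negative
determinant. -/
theorem sq_det_nonneg {n : ℕ} (C : Matrix (Fin n) (Fin n) ℤ) (hs : ∀ i j, C i j = C j i)
    (hp : ∀ m : Fin n → ℤ, 0 ≤ ∑ i, ∑ j, m i * m j * C i j) : 0 ≤ C.det := by
  classical
  let R : Matrix (Fin n) (Fin n) ℝ := C.map (Int.cast : ℤ → ℝ)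
  have hdet : R.det = (C.det : ℝ) := (RingHom.map_det (Int.castRingHom ℝ) C).symm
  -- the quadratic form
  let q : (Fin n → ℝ) → ℝ := fun x => ∑ i, ∑ j, x i * x j * (C i j : ℝ)
  have hqc : Continuous q := by
    refine continuous_finsetSum _ fun i _ => continuous_finsetSum _ fun j _ => ?_
    exact ((continuous_apply i).mul (continuous_apply j)).mul continuous_const
  have hrat : ∀ x : Fin n → ℚ, 0 ≤ q (fun i => (x i : ℝ)) := by
    intro x
    obtain ⟨b, hb⟩ := IsLocalization.exist_integer_multiples_of_finite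
      (nonZeroDivisors ℤ) (S := ℚ) x
    choose m hm using hb
    have hb0 : ((b : ℤ) : ℝ) ≠ 0 := by
      exact_mod_cast nonZeroDivisors.coe_ne_zero b
    have hx : ∀ i, (x i : ℝ) = (m i : ℝ) / ((b : ℤ) : ℝ) := by
      intro i
      have h1 := hm i
      rw [eq_intCast, Algebra.smul_def, eq_intCast] at h1
      rw [eq_div_iff hb0]
      have h2 : ((m i : ℚ) : ℝ) = ((((b : ℤ) : ℚ) * x i : ℚ) : ℝ) := by rw [h1]
      push_cast at h2
      linarith
    have h3 : q (fun i => (x i : ℝ)) =
        ((∑ i, ∑ j, m i * m j * C i j : ℤ) : ℝ) / (((b : ℤ) : ℝ) ^ 2) := by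
      simp only [q, hx]
      push_cast
      rw [Finset.sum_div]
      refine Finset.sum_congr rfl fun i _ => ?_
      rw [Finset.sum_div]
      refine Finset.sum_congr rfl fun j _ => ?_
      field_simp
    rw [h3]
    apply div_nonneg
    · exact_mod_cast hp m
    · positivity
  have hq : ∀ x : Fin n → ℝ, 0 ≤ q x := by
    intro x
    have hd : DenseRange (Pi.map (fun (_ : Fin n) (y : ℚ) => (y : ℝ))) :=
      DenseRange.piMap fun _ => Rat.denseRange_cast
    refine isClosed_property hd (isClosed_le continuous_const hqc) ?_ x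
    intro y
    exact hrat y
  have hpsd : R.PosSemidef := by
    refine PosSemidef.of_dotProduct_mulVec_nonneg ?_ ?_
    · ext i j
      rw [conjTranspose_apply, star_trivial]
      simp only [R, map_apply]
      rw [hs]
    · intro x
      have h1 : star x ⬝ᵥ R *ᵥ x = q x := by
        simp only [q, dotProduct, mulVec, star_trivial, R, map_apply, Finset.mul_sum]
        refine Finset.sum_congr rfl fun i _ => Finset.sum_congr rfl fun j _ => ?_
        ring
      rw [h1]
      exact hq x
  have h1 := hpsd.det_nonneg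
  rw [hdet] at h1
  exact_mod_cast h1

end sqGen

section sqGram

open Matrix

variable {L : Type*} [AddCommGroup L] {ι : Type*} [Fintype ι] [DecidableEq ι]

/-- Gram matrices under a change of vectors. -/
theorem sq_gram (B : L →ₗ[ℤ] L →ₗ[ℤ] ℤ) (b : Basis ι ℤ L) (v : ι → L) :
    (Matrix.of fun i j => B (v i) (v j)) =
      (b.toMatrix v)ᵀ * (Matrix.of fun i j => B (b i) (b j)) * b.toMatrix v := by
  ext i j
  rw [Matrix.of_apply]
  conv_lhs => rw [← b.sum_toMatrix_smul_self v i, ← b.sum_toMatrix_smul_self v j]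
  simp only [map_sum, LinearMap.sum_apply, map_smul, LinearMap.smul_apply, smul_eq_mul,
    Matrix.mul_apply, Matrix.transpose_apply, Matrix.of_apply]
  simp only [Finset.sum_mul, Finset.mul_sum]
  refine Finset.sum_congr rfl fun x _ => Finset.sum_congr rfl fun y _ => ?_
  ring

/-- The Gram matrix of a unimodular form has determinant `± 1`. -/
theorem sq_unimod (B : L →ₗ[ℤ] L →ₗ[ℤ] ℤ) (hB : Function.Bijective B) (b : Basis ι ℤ L) :
    (Matrix.of fun i j => B (b i) (b j)).det = 1 ∨
      (Matrix.of fun i j => B (b i) (b j)).det = -1 := by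
  have h1 := (LinearEquiv.ofBijective B hB).isUnit_det b b.dualBasis
  have h2 : LinearMap.toMatrix b b.dualBasis (LinearEquiv.ofBijective B hB : L →ₗ[ℤ] Dual ℤ L) =
      (Matrix.of fun i j => B (b i) (b j))ᵀ := by
    ext i j
    rw [LinearMap.toMatrix_apply, Matrix.transpose_apply, Matrix.of_apply,
      Basis.dualBasis_repr]
    rfl
  rw [h2, Matrix.det_transpose] at h1
  exact Int.isUnit_iff.1 h1

end sqGram

variable {G : Type*} [Group G] [Finite G] {Λ : Type*} [AddCommGroup Λ] [DistribMulAction G Λ]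
  [Module.Free ℤ Λ] [Module.Finite ℤ Λ] {B : Λ →ₗ[ℤ] Λ →ₗ[ℤ] ℤ} {w : Λ}

/-- `Λ^G = ℤ h`, `w = k h`, and the sublattice `ℤ h + ⨁ ℤ α i` has index `J`, so
`h² det C = J²` and `w² det C = (k J)²`. -/
theorem isSquare_det (hc : IsCyc G B w (-1)) (hh : ∃ h : Λ, (∀ g : G, g • h = h) ∧ 0 < B h h)
    (h1 : finrank ℤ (fixS Λ (⊤ : Subgroup G)) = 1) (n : ℕ) (hn : n = finrank ℤ (MM G B))
    (hrk : finrank ℤ Λ = 1 + n) (α : Fin n → MM G B) (hα : LinearIndependent ℤ α) :
    IsSquare (B w w * (Matrix.of fun i j => BM G B (-1) (α i) (α j)).det) := by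
  classical
  obtain ⟨h, hh1, hh2⟩ := hh
  -- `B w w` is nonnegative
  have hww : 0 ≤ B w w := by
    let h' : fixS Λ (⊤ : Subgroup G) := ⟨h, fun g _ => hh1 g⟩
    let w' : fixS Λ (⊤ : Subgroup G) := ⟨w, fun g _ => hc.fixw g⟩
    let bF := Module.finBasisOfFinrankEq ℤ (fixS Λ (⊤ : Subgroup G)) h1
    have e1 : h' = (bF.repr h' 0) • bF 0 := by
      conv_lhs => rw [← bF.sum_repr h']
      rw [Fin.sum_univ_one]
    have e2 : w' = (bF.repr w' 0) • bF 0 := by
      conv_lhs => rw [← bF.sum_repr w']
      rw [Fin.sum_univ_one]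
    have e3 : h = (bF.repr h' 0) • ((bF 0 : fixS Λ (⊤ : Subgroup G)) : Λ) :=
      congrArg Subtype.val e1
    have e4 : w = (bF.repr w' 0) • ((bF 0 : fixS Λ (⊤ : Subgroup G)) : Λ) :=
      congrArg Subtype.val e2
    generalize bF.repr h' 0 = a at e3
    generalize bF.repr w' 0 = c at e4
    generalize ((bF 0 : fixS Λ (⊤ : Subgroup G)) : Λ) = u at e3 e4
    have f1 : B h h = a ^ 2 * B u u := by
      rw [e3]
      simp only [map_smul, LinearMap.smul_apply, smul_eq_mul]
      ring
    have f2 : B w w = c ^ 2 * B u u := by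
      rw [e4]
      simp only [map_smul, LinearMap.smul_apply, smul_eq_mul]
      ring
    have f3 : 0 < B u u := by
      by_contra hcon
      rw [f1] at hh2
      have : a ^ 2 * B u u ≤ 0 := mul_nonpos_of_nonneg_of_nonpos (sq_nonneg a) (not_lt.1 hcon)
      omega
    rw [f2]
    positivity
  -- the determinant of `C` is nonnegative
  set C : Matrix (Fin n) (Fin n) ℤ := Matrix.of fun i j => BM G B (-1) (α i) (α j) with hC
  have hCapp : ∀ i j, C i j = -1 * B (α i : Λ) (α j : Λ) := by
    intro i j
    rw [hC, Matrix.of_apply, BM_apply]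
  have hdetC : 0 ≤ C.det := by
    apply sq_det_nonneg
    · intro i j
      rw [hCapp, hCapp, hc.symm]
    · intro m
      have e1 : ∑ i, ∑ j, m i * m j * C i j =
          -1 * B ((∑ i, m i • α i : MM G B) : Λ) ((∑ i, m i • α i : MM G B) : Λ) := by
        rw [Submodule.coe_sum]
        simp only [Submodule.coe_smul, map_sum, LinearMap.sum_apply, map_smul,
          LinearMap.smul_apply, smul_eq_mul, hCapp]
        simp only [Finset.mul_sum]
        rw [Finset.sum_comm]
        refine Finset.sum_congr rfl fun x _ => Finset.sum_congr rfl fun y _ => ?_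
        ring
      rw [e1]
      by_cases hx : (∑ i, m i • α i : MM G B) = 0
      · rw [hx]
        simp
      · have := hc.defn _ (fun h0 => hx (Subtype.ext h0)) (∑ i, m i • α i : MM G B).2
        exact this.le
  -- the Gram matrix of the family `w, α`
  let b : Basis (Fin 1 ⊕ Fin n) ℤ Λ :=
    (Module.finBasisOfFinrankEq ℤ Λ hrk).reindex finSumFinEquiv.symm
  let v : Fin 1 ⊕ Fin n → Λ := Sum.elim (fun _ => w) fun i => (α i : Λ)
  have g1 : (Matrix.of fun i j => B (v i) (v j)).det =
      (b.toMatrix v).det ^ 2 * (Matrix.of fun i j => B (b i) (b j)).det := by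
    rw [sq_gram B b v, Matrix.det_mul, Matrix.det_mul, Matrix.det_transpose]
    ring
  have g2 : (Matrix.of fun i j => B (v i) (v j)) =
      Matrix.fromBlocks (Matrix.of fun (_ _ : Fin 1) => B w w) 0 0 (-C) := by
    ext i j
    rcases i with i | i <;> rcases j with j | j
    · rfl
    · change B w (α j : Λ) = 0
      rw [hc.symm]
      exact (α j).2 w hc.fixw
    · change B (α i : Λ) w = 0
      exact (α i).2 w hc.fixw
    · change B (α i : Λ) (α j : Λ) = - C i j
      rw [hCapp]
      ring
  have g3 : (Matrix.of fun i j => B (v i) (v j)).det = B w w * ((-1) ^ n * C.det) := by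
    rw [g2, Matrix.det_fromBlocks_zero₂₁, Matrix.det_neg, Fintype.card_fin]
    congr 1
    rw [Matrix.det_fin_one]
    rfl
  have hnn : 0 ≤ B w w * C.det := mul_nonneg hww hdetC
  have g4 : B w w * C.det = (b.toMatrix v).det ^ 2 ∨
      B w w * C.det = -(b.toMatrix v).det ^ 2 := by
    rw [g3] at g1
    rcases sq_unimod B hc.unimod b with hu | hu
    · rw [hu] at g1
      rcases neg_one_pow_eq_or ℤ n with hp | hp
      · left
        rw [hp] at g1
        linarith
      · right
        rw [hp] at g1
        linarith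
    · rw [hu] at g1
      rcases neg_one_pow_eq_or ℤ n with hp | hp
      · right
        rw [hp] at g1
        linarith
      · left
        rw [hp] at g1
        linarith
  rcases g4 with g | g
  · exact ⟨(b.toMatrix v).det, by rw [g, sq]⟩
  · refine ⟨0, ?_⟩
    have : 0 ≤ (b.toMatrix v).det ^ 2 := sq_nonneg _
    rw [mul_zero]
    linarith

end Pool.Agent.PGZ
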