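import Pool.Agent.PGZ.LAT
import Pool.Agent.PGZ.SQ
import Pool.Agent.PGZ.BASE
import Pool.Agent.PGZ.CHAM
import Pool.Agent.PGZ.SPAN
import Pool.Agent.PGZ.CLASS
import Pool.Agent.PGZ.FRAME

/-! # PGZ, module ALGM: the lattice is a signed permutation module up to trivial summands -/

set_option autoImplicit false

noncomputable section

namespace Pool.Agent.PGZ

open Module

variable {G : Type*} [Group G] [Finite G] {Λ : Type*} [AddCommGroup Λ] [DistribMulAction G Λ]
  [Module.Free ℤ Λ] [Module.Finite ℤ Λ] {B : Λ →ₗ[ℤ] Λ →ₗ[ℤ] ℤ} {w : Λ} {ε : ℤ}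

/-- `9 (5 - 8 q)` is not a square. -/
private theorem ALGM_sq9 (q : ℕ) : ¬ IsSquare ((5 - 8 * (q : ℤ)) * 9) := by
  rintro ⟨m, hm⟩
  have h1 : (m * m) % 8 = 5 := by
    rw [← hm]
    omega
  have h2 : m % 8 = 0 ∨ m % 8 = 1 ∨ m % 8 = 2 ∨ m % 8 = 3 ∨ m % 8 = 4 ∨ m % 8 = 5 ∨ m % 8 = 6 ∨
      m % 8 = 7 := by omega
  rcases h2 with h | h | h | h | h | h | h | h <;> rw [Int.mul_emod, h] at h1 <;> norm_num at h1

private theorem ALGM_sq12 (q : ℕ) : ¬ IsSquare ((4 - 8 * (q : ℤ)) * 12) := by
  rintro ⟨m, hm⟩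
  rcases Nat.eq_zero_or_pos q with h | h
  · subst h
    norm_num at hm
    have h1 : m ≤ 7 ∨ 7 ≤ m := by omega
    have h2 : -7 < m := by nlinarith
    have h3 : m < 7 := by nlinarith
    interval_cases m <;> omega
  · have h1 : (1 : ℤ) ≤ q := by exact_mod_cast h
    nlinarith [mul_self_nonneg m]

private theorem ALGM_sq18 (q : ℕ) : ¬ IsSquare ((4 - 8 * (q : ℤ)) * 18) := by
  rintro ⟨m, hm⟩
  rcases Nat.eq_zero_or_pos q with h | h
  · subst h
    norm_num at hm
    have h2 : -9 < m := by nlinarith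
    have h3 : m < 9 := by nlinarith
    interval_cases m <;> omega
  · have h1 : (1 : ℤ) ≤ q := by exact_mod_cast h
    nlinarith [mul_self_nonneg m]

theorem alg (hc : IsCyc G B w ε) (hr : RankOK G B w ε) :
    ∃ (S : Type) (_ : MulAction G S) (τ : S → S) (c : ℕ), IsSgn G Λ S τ c := by
  obtain ⟨hPD, hrk, r, hr1, hIso, hTri, hfix, htr⟩ := lat hc
  obtain ⟨h5, hcase⟩ := hr
  have h5' : finrank ℤ (MM G B) ≤ 5 := by omega
  obtain ⟨ρ, Δ, hb⟩ := exists_base (BM G B ε) hPD
  have hcl : ∀ g, r g ∈ Subgroup.closure (Refl (BM G B ε) Δ) := fun g =>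
    mem_closure _ hPD h5' ρ Δ hb (r g) (hIso g) (hTri g)
  have hcard : Δ.card = finrank ℤ (MM G B) := by
    refine base_card _ hPD ρ Δ hb (Set.range r) ?_ ?_
    · rintro _ ⟨g, rfl⟩
      exact hcl g
    · intro x hx
      exact hfix x fun g => hx _ ⟨g, rfl⟩
  set n := finrank ℤ (MM G B) with hn
  let e : Fin n ≃ Δ := (Δ.equivFinOfCardEq hcard).symm
  let α : Fin n → MM G B := fun i => (e i : MM G B)
  have hα : LinearIndependent ℤ α := hb.indep.comp e e.injective
  have hΔ : ∀ x, x ∈ Δ ↔ ∃ i, α i = x := by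
    intro x
    constructor
    · intro hx
      exact ⟨e.symm ⟨x, hx⟩, by simp [α]⟩
    · rintro ⟨i, rfl⟩
      exact (e i).2
  have hmem : ∀ i, α i ∈ Δ := fun i => (hΔ _).2 ⟨i, rfl⟩
  have hne : ∀ i j, i ≠ j → α i ≠ α j := fun i j hij h =>
    hij (e.injective (Subtype.ext h))
  obtain ⟨N, wt, X, hF, hnN, hN⟩ := exists_frame n h5'
    (Matrix.of fun i j => BM G B ε (α i) (α j)) (fun i => hb.two _ (hmem i))
    (fun i j => hPD.symm _ _) (fun i j hij => hb.nonpos _ (hmem i) _ (hmem j) (hne i j hij))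
    (by
      intro x hx
      have h1 : (∑ i, x i • α i) ≠ 0 := by
        intro h0
        apply hx
        funext i
        exact Fintype.linearIndependent_iff.1 hα x h0 i
      have h2 := hPD.pos _ h1
      have h3 : BM G B ε (∑ i, x i • α i) (∑ i, x i • α i) =
          ∑ i, ∑ j, x i * (Matrix.of fun i j => BM G B ε (α i) (α j)) i j * x j := by
        rw [map_sum, Finset.sum_comm]
        refine Finset.sum_congr rfl fun j _ => ?_
        rw [map_smul, map_sum, LinearMap.sum_apply, Finset.smul_sum]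
        refine Finset.sum_congr rfl fun i _ => ?_
        rw [map_smul, LinearMap.smul_apply, smul_eq_mul, smul_eq_mul, Matrix.of_apply]
        ring
      rwa [h3] at h2)
  obtain ⟨S, hS, τ, hS1, hS2, hS3, hS4, hS5⟩ := exists_signed (BM G B ε) hPD Δ r hcl n N hn α hα hΔ
    wt X hF
  have hNle : N ≤ n + finrank ℤ (fixS Λ (⊤ : Subgroup G)) := by
    rcases hcase with h2 | ⟨hε, ⟨h, hh1, hh2⟩, q, hq⟩
    · omega
    · have hr0 : 1 ≤ finrank ℤ (fixS Λ (⊤ : Subgroup G)) := by
        rw [Nat.one_le_iff_ne_zero]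
        intro h0
        have h3 : (⟨h, fun g _ => hh1 g⟩ : fixS Λ (⊤ : Subgroup G)) = 0 := by
          have := finrank_zero_iff.1 h0
          exact Subsingleton.elim _ _
        have h4 : h = 0 := congrArg Subtype.val h3
        rw [h4, map_zero] at hh2
        simp at hh2
      rcases Nat.lt_or_ge 1 (finrank ℤ (fixS Λ (⊤ : Subgroup G))) with h2 | h2
      · omega
      · have hr1' : finrank ℤ (fixS Λ (⊤ : Subgroup G)) = 1 := le_antisymm h2 hr0
        rcases hN with hN | ⟨hN, hN'⟩
        · omega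
        · exfalso
          subst hε
          have hsq := isSquare_det hc ⟨h, hh1, hh2⟩ hr1' n hn (by omega) α hα
          have hw : B w w = 10 - 8 * (q : ℤ) - (1 + n : ℕ) := by
            have : finrank ℤ Λ = 1 + n := by omega
            rw [this] at hq
            linarith
          rcases hN' with ⟨h4, hd⟩ | ⟨h4, hd | hd⟩
          · rw [hd, hw, h4] at hsq
            apply ALGM_sq9 q
            convert hsq using 2
            push_cast
            ring
          · rw [hd, hw, h4] at hsq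
            apply ALGM_sq12 q
            convert hsq using 2
            push_cast
            ring
          · rw [hd, hw, h4] at hsq
            apply ALGM_sq18 q
            convert hsq using 2
            push_cast
            ring
  refine ⟨S, hS, τ, n + finrank ℤ (fixS Λ (⊤ : Subgroup G)) - N, hS1, hS2, hS3, hS4, ?_⟩
  intro g
  rw [htr g]
  have h1 := hS5 g
  have h2 : (((n + finrank ℤ (fixS Λ (⊤ : Subgroup G)) - N : ℕ)) : ℤ) =
      n + finrank ℤ (fixS Λ (⊤ : Subgroup G)) - N := by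
    rw [Nat.cast_sub hNle]
    push_cast
    ring
  rw [h2]
  linarith

end Pool.Agent.PGZ
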