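import Pool.Agent.PGZ.Defs

/-! # PGZ, module HERM: Hermite's inequality -/

set_option autoImplicit false

noncomputable section

namespace Pool.Agent.PGZ

open Module

/-- The Gram determinant. -/
private def gd {L : Type*} [AddCommGroup L] {ι : Type*} [Fintype ι] [DecidableEq ι]
    (B : L →ₗ[ℤ] L →ₗ[ℤ] ℤ) (b : ι → L) : ℤ := (Matrix.of fun i j => B (b i) (b j)).det

private theorem gd_basis {L : Type*} [AddCommGroup L] {ι : Type*} [Fintype ι] [DecidableEq ι]
    (B : L →ₗ[ℤ] L →ₗ[ℤ] ℤ) (b c : Basis ι ℤ L) : gd B b = gd B c := by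
  have h := LinearMap.toMatrix₂_mul_basis_toMatrix b b c c B
  have hdet := congrArg Matrix.det h
  rw [Matrix.det_mul, Matrix.det_mul, Matrix.det_transpose] at hdet
  have h1 : (b.toMatrix c).det * (c.toMatrix b).det = 1 := by
    rw [← Matrix.det_mul, Basis.toMatrix_mul_toMatrix_flip, Matrix.det_one]
  have h2 : (b.toMatrix c).det * (b.toMatrix c).det = 1 := by
    rcases Int.isUnit_iff.1 (IsUnit.of_mul_eq_one _ h1) with h | h <;> rw [h] <;> norm_num
  have e1 : ∀ d : Basis ι ℤ L, (LinearMap.toMatrix₂ d d B).det = gd B d := by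
    intro d
    unfold gd
    congr 1
    ext i j
    rw [LinearMap.toMatrix₂_apply, Matrix.of_apply]
  rw [e1, e1] at hdet
  rw [← hdet, mul_comm ((b.toMatrix c).det) _, mul_assoc, h2, mul_one]

private theorem gd_reindex {L : Type*} [AddCommGroup L] {ι κ : Type*} [Fintype ι] [DecidableEq ι]
    [Fintype κ] [DecidableEq κ] (B : L →ₗ[ℤ] L →ₗ[ℤ] ℤ) (b : Basis ι ℤ L) (c : Basis κ ℤ L) :
    gd B b = gd B c := by
  let e : ι ≃ κ := b.indexEquiv c
  rw [← gd_basis B (c.reindex e.symm) b]
  unfold gd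
  rw [← Matrix.det_submatrix_equiv_self e (Matrix.of fun i j => B (c i) (c j))]
  congr 1
  ext i j
  simp [Matrix.submatrix_apply]

/-- The determinant identity for the Schur complement. -/
private theorem schur {n : ℕ} (a : ℤ) (r : Fin n → ℤ) (C : Matrix (Fin n) (Fin n) ℤ) :
    a ^ n * (Matrix.fromBlocks (Matrix.of fun (_ _ : Unit) => a) (Matrix.of fun _ j => r j)
      (Matrix.of fun i _ => r i) C).det = a * (Matrix.of fun i j => a * C i j - r i * r j).det := by
  have key : Matrix.fromBlocks (1 : Matrix Unit Unit ℤ) 0 (Matrix.of fun (i : Fin n) (_ : Unit) => - r i)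
        (Matrix.diagonal fun _ => a) *
      Matrix.fromBlocks (Matrix.of fun (_ _ : Unit) => a) (Matrix.of fun _ j => r j)
      (Matrix.of fun i _ => r i) C =
      Matrix.fromBlocks (Matrix.of fun (_ _ : Unit) => a) (Matrix.of fun _ j => r j) 0
        (Matrix.of fun i j => a * C i j - r i * r j) := by
    rw [Matrix.fromBlocks_multiply]
    congr 1
    · ext i j; simp
    · ext i j; simp
    · ext i j
      simp [Matrix.mul_apply, Matrix.diagonal_apply]
      ring
    · ext i j
      simp [Matrix.mul_apply, Matrix.diagonal_apply]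
      ring
  have h := congrArg Matrix.det key
  rw [Matrix.det_mul, Matrix.det_fromBlocks_zero₁₂, Matrix.det_fromBlocks_zero₂₁] at h
  simpa [Matrix.det_diagonal] using h

private theorem near (a f : ℤ) (ha : 0 < a) : ∃ t : ℤ, 4 * (a * t + f) ^ 2 ≤ a ^ 2 := by
  refine ⟨-((2 * f + a) / (2 * a)), ?_⟩
  have h1 := Int.emod_add_mul_ediv (2 * f + a) (2 * a)
  have h2 := Int.emod_nonneg (2 * f + a) (b := 2 * a) (by positivity)
  have h3 := Int.emod_lt_of_pos (2 * f + a) (b := 2 * a) (by positivity)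
  set m := (2 * f + a) / (2 * a)
  set r := (2 * f + a) % (2 * a)
  have h4 : 2 * (a * -m + f) = r - a := by linarith
  have h5 : (2 * (a * -m + f)) ^ 2 ≤ a ^ 2 := by
    rw [h4]
    nlinarith
  calc 4 * (a * -m + f) ^ 2 = (2 * (a * -m + f)) ^ 2 := by ring
    _ ≤ a ^ 2 := h5

private theorem min_vec {L : Type*} [AddCommGroup L] (B : L →ₗ[ℤ] L →ₗ[ℤ] ℤ)
    (pos : ∀ x, x ≠ 0 → 0 < B x x) (x0 : L) (h0 : x0 ≠ 0) :
    ∃ v : L, v ≠ 0 ∧ ∀ x, x ≠ 0 → B v v ≤ B x x := by
  obtain ⟨v, hv, hmin⟩ := WellFounded.has_min (measure (fun x : L => (B x x).toNat)).wf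
    {x | x ≠ 0} ⟨x0, h0⟩
  refine ⟨v, hv, fun x hx => ?_⟩
  have h1 : ¬ (B x x).toNat < (B v v).toNat := hmin x hx
  have := pos x hx
  have := pos v hv
  omega

private theorem quot_tf {L : Type*} [AddCommGroup L] (B : L →ₗ[ℤ] L →ₗ[ℤ] ℤ)
    (pos : ∀ x, x ≠ 0 → 0 < B x x) (v : L) (hv : v ≠ 0) (hmin : ∀ x, x ≠ 0 → B v v ≤ B x x)
    [IsAddTorsionFree L] :
    Module.IsTorsionFree ℤ (L ⧸ (Submodule.span ℤ {v})) := by
  rw [Module.isTorsionFree_iff_smul_eq_zero]
  intro k q hq
  obtain ⟨x, rfl⟩ := Submodule.Quotient.mk_surjective _ q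
  by_cases hk : k = 0
  · exact Or.inl hk
  refine Or.inr ?_
  rw [← Submodule.Quotient.mk_smul, Submodule.Quotient.mk_eq_zero, Submodule.mem_span_singleton]
    at hq
  obtain ⟨m, hm⟩ := hq
  obtain ⟨t, ht⟩ : ∃ t : ℤ, 4 * (k * t + m) ^ 2 ≤ k ^ 2 := by
    rcases lt_or_gt_of_ne hk with h | h
    · obtain ⟨t, ht⟩ := near (-k) m (by linarith)
      exact ⟨-t, by nlinarith [ht]⟩
    · exact near k m h
  rw [Submodule.Quotient.mk_eq_zero, Submodule.mem_span_singleton]
  refine ⟨-t, ?_⟩
  by_contra hne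
  have hy : x + t • v ≠ 0 := by
    intro h
    apply hne
    rw [neg_smul]
    exact (eq_neg_of_add_eq_zero_left h).symm
  have h1 : k • (x + t • v) = (k * t + m) • v := by
    rw [smul_add, ← hm, add_smul, mul_smul, add_comm]
  have h2 : k ^ 2 * B (x + t • v) (x + t • v) = (k * t + m) ^ 2 * B v v := by
    have h3 : B (k • (x + t • v)) (k • (x + t • v)) = B ((k * t + m) • v) ((k * t + m) • v) := by
      rw [h1]
    simp only [map_smul, LinearMap.smul_apply, smul_eq_mul] at h3
    linarith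
  have h4 := hmin _ hy
  have h5 := pos v hv
  have h6 : 0 < k ^ 2 := by positivity
  nlinarith

private theorem herm_aux (n : ℕ) : ∀ {L : Type*} [AddCommGroup L] (b : Basis (Fin (n + 1)) ℤ L)
    (B : L →ₗ[ℤ] L →ₗ[ℤ] ℤ) (_ : ∀ x y, B x y = B y x) (_ : ∀ x, x ≠ 0 → 0 < B x x),
    ∃ x : L, x ≠ 0 ∧ 3 ^ ((n + 1) * n / 2) * (B x x) ^ (n + 1) ≤ 4 ^ ((n + 1) * n / 2) * gd B b := by
  induction n with
  | zero =>
    intro L _ b B symm pos
    refine ⟨b 0, b.ne_zero 0, ?_⟩
    simp [gd]
  | succ n ih =>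
    intro L _ b B symm pos
    have : Module.Finite ℤ L := Module.Finite.of_basis b
    have : Module.Free ℤ L := Module.Free.of_basis b
    have : IsAddTorsionFree L := by
      rw [← Module.isTorsionFree_int_iff_isAddTorsionFree]
      infer_instance
    obtain ⟨v, hv, hmin⟩ := min_vec B pos (b 0) (b.ne_zero 0)
    have ha := pos v hv
    set a := B v v with ha_def
    have := quot_tf B pos v hv hmin
    set S := Submodule.span ℤ {v} with hS
    have hfr : finrank ℤ (L ⧸ S) = n + 1 := by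
      have h1 := S.finrank_quotient_add_finrank
      have h2 : finrank ℤ S = 1 := by
        rw [hS, ← (LinearEquiv.toSpanNonzeroSingleton ℤ L v hv).finrank_eq, Module.finrank_self]
      have h3 : finrank ℤ L = n + 1 + 1 := by rw [finrank_eq_card_basis b, Fintype.card_fin]
      omega
    let c : Basis (Fin (n + 1)) ℤ (L ⧸ S) := finBasisOfFinrankEq ℤ (L ⧸ S) hfr
    obtain ⟨s, hs⟩ := Module.projective_lifting_property S.mkQ LinearMap.id S.mkQ_surjective
    have hs' : ∀ q, S.mkQ (s q) = q := fun q => by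
      have := LinearMap.congr_fun hs q
      simpa using this
    let f : (L ⧸ S) →ₗ[ℤ] ℤ := (B v).comp s
    let B2 : (L ⧸ S) →ₗ[ℤ] (L ⧸ S) →ₗ[ℤ] ℤ := a • (B.compl₁₂ s s) - f.smulRight f
    have hB2 : ∀ p q, B2 p q = a * B (s p) (s q) - f p * f q := fun p q => by
      simp [B2]
    have hmkv : S.mkQ v = 0 := by
      rw [Submodule.mkQ_apply, Submodule.Quotient.mk_eq_zero]
      exact Submodule.mem_span_singleton_self v
    have hlift : ∀ (q : L ⧸ S) (t : ℤ), a * B (s q + t • v) (s q + t • v) =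
        B2 q q + (a * t + f q) ^ 2 := by
      intro q t
      have hsym : B (s q) v = f q := symm _ _
      have hf : B v (s q) = f q := rfl
      rw [hB2]
      simp only [map_add, LinearMap.add_apply, map_smul, LinearMap.smul_apply, smul_eq_mul, hsym, hf,
        ← ha_def]
      ring
    have hne : ∀ (q : L ⧸ S) (t : ℤ), q ≠ 0 → s q + t • v ≠ 0 := by
      intro q t hq h
      apply hq
      have := congrArg S.mkQ h
      rw [map_add, map_smul, hmkv, smul_zero, add_zero, hs', map_zero] at this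
      exact this
    have symm2 : ∀ p q, B2 p q = B2 q p := by
      intro p q
      rw [hB2, hB2, symm (s p) (s q), mul_comm (f p)]
    have hkey : ∀ q : L ⧸ S, q ≠ 0 → 3 * a ^ 2 ≤ 4 * B2 q q := by
      intro q hq
      obtain ⟨t, ht⟩ := near a (f q) ha
      have h1 := hlift q t
      have h2 := hmin _ (hne q t hq)
      nlinarith
    have pos2 : ∀ q, q ≠ 0 → 0 < B2 q q := by
      intro q hq
      have := hkey q hq
      have h1 : 0 < a ^ 2 := by positivity
      linarith
    obtain ⟨y, hy, hle⟩ := ih c B2 symm2 pos2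
    -- the basis of L
    let e : (ℤ × (L ⧸ S)) →ₗ[ℤ] L := (LinearMap.toSpanSingleton ℤ L v).coprod s
    have he : Function.Bijective e := by
      constructor
      · rw [injective_iff_map_eq_zero]
        rintro ⟨t, q⟩ h
        have h1 : t • v + s q = 0 := by simpa [e] using h
        have h2 : q = 0 := by
          by_contra hq
          exact hne q t hq (by rw [add_comm]; exact h1)
        subst h2
        rw [map_zero, add_zero] at h1
        have h3 : t = 0 := by
          rcases smul_eq_zero.1 h1 with h | h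
          · exact h
          · exact absurd h hv
        rw [h3]; rfl
      · intro x
        have h1 : x - s (S.mkQ x) ∈ S := by
          rw [← Submodule.Quotient.mk_eq_zero, ← Submodule.mkQ_apply, map_sub, hs', sub_self]
        obtain ⟨t, ht⟩ := Submodule.mem_span_singleton.1 h1
        refine ⟨(t, S.mkQ x), ?_⟩
        simp only [e, LinearMap.coprod_apply, LinearMap.toSpanSingleton_apply, ht]
        abel
    let E := LinearEquiv.ofBijective e he
    let b' : Basis (Unit ⊕ Fin (n + 1)) ℤ L := ((Basis.singleton Unit ℤ).prod c).map E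
    have hb1 : ∀ u, b' (Sum.inl u) = v := by
      intro u
      simp [b', E, e]
    have hb2 : ∀ i, b' (Sum.inr i) = s (c i) := by
      intro i
      simp [b', E, e]
    have hgd : gd B b = gd B b' := gd_reindex B b b'
    have hmat : (Matrix.of fun i j => B (b' i) (b' j)) =
        Matrix.fromBlocks (Matrix.of fun (_ _ : Unit) => a) (Matrix.of fun _ j => f (c j))
          (Matrix.of fun i _ => f (c i)) (Matrix.of fun i j => B (s (c i)) (s (c j))) := by
      ext i j
      rcases i with i | i <;> rcases j with j | j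
      · simp [hb1, ha_def]
      · simp only [Matrix.of_apply, hb1, hb2, Matrix.fromBlocks_apply₁₂]; rfl
      · simp only [Matrix.of_apply, hb1, hb2, Matrix.fromBlocks_apply₂₁]; exact symm _ _
      · simp [hb2]
    have hsch := schur a (fun i => f (c i)) (Matrix.of fun i j => B (s (c i)) (s (c j)))
    have hdet2 : (Matrix.of fun i j => a * (Matrix.of fun i j => B (s (c i)) (s (c j))) i j -
        f (c i) * f (c j)).det = gd B2 c := by
      unfold gd
      congr 1
    have hG : a ^ n * gd B b = gd B2 c := by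
      rw [hgd]
      unfold gd at hdet2 ⊢
      rw [hmat]
      rw [hdet2] at hsch
      have h1 : a * (a ^ n * (Matrix.fromBlocks (Matrix.of fun (_ _ : Unit) => a)
          (Matrix.of fun _ j => f (c j)) (Matrix.of fun i _ => f (c i))
          (Matrix.of fun i j => B (s (c i)) (s (c j)))).det) =
          a * (Matrix.of fun i j => B2 (c i) (c j)).det := by
        rw [← hsch, pow_succ]
        ring
      exact mul_left_cancel₀ ha.ne' h1
    refine ⟨v, hv, ?_⟩
    have hexp : (n + 1 + 1) * (n + 1) / 2 = (n + 1) * n / 2 + (n + 1) := by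
      have : (n + 1 + 1) * (n + 1) = (n + 1) * n + 2 * (n + 1) := by ring
      rw [this]
      omega
    rw [hexp, ← ha_def]
    have h1 : (3 * a ^ 2) ^ (n + 1) ≤ (4 * B2 y y) ^ (n + 1) :=
      pow_le_pow_left₀ (by positivity) (hkey y hy) _
    have h2 : (0 : ℤ) < a ^ n := by positivity
    refine le_of_mul_le_mul_left ?_ h2
    calc a ^ n * (3 ^ ((n + 1) * n / 2 + (n + 1)) * a ^ (n + 1 + 1))
        = 3 ^ ((n + 1) * n / 2) * (3 * a ^ 2) ^ (n + 1) := by
          rw [mul_pow, pow_add, ← pow_mul]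
          ring
      _ ≤ 3 ^ ((n + 1) * n / 2) * (4 * B2 y y) ^ (n + 1) := by gcongr
      _ = 4 ^ (n + 1) * (3 ^ ((n + 1) * n / 2) * (B2 y y) ^ (n + 1)) := by
          rw [mul_pow]; ring
      _ ≤ 4 ^ (n + 1) * (4 ^ ((n + 1) * n / 2) * gd B2 c) := by gcongr
      _ = a ^ n * (4 ^ ((n + 1) * n / 2 + (n + 1)) * gd B b) := by
          rw [← hG, pow_add]; ring

theorem hermite {L : Type*} [AddCommGroup L] [Module.Free ℤ L] [Module.Finite ℤ L] (n : ℕ)
    (b : Basis (Fin (n + 1)) ℤ L) (B : L →ₗ[ℤ] L →ₗ[ℤ] ℤ) (symm : ∀ x y, B x y = B y x)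
    (pos : ∀ x, x ≠ 0 → 0 < B x x) :
    ∃ x : L, x ≠ 0 ∧ 3 ^ ((n + 1) * n / 2) * (B x x) ^ (n + 1) ≤
      4 ^ ((n + 1) * n / 2) * (Matrix.of fun i j => B (b i) (b j)).det :=
  herm_aux n b B symm pos

end Pool.Agent.PGZ
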