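import Pool.Agent.PGZ.Defs

/-! # PGZ, module HOMA: homomorphisms from the ring of integers of a subfield to the residue
field -/

set_option autoImplicit false

noncomputable section

namespace Pool.Agent.PGZ

open Module NumberField

variable {F : Type} [Field F] [NumberField F]

/-- The homomorphism `x ↦ g x mod P` on the integers of the fixed field of `H`. -/
def Phi (P : Ideal (𝓞 F)) (H : Subgroup (F ≃ₐ[ℚ] F)) (g : F ≃ₐ[ℚ] F) :
    𝓞 (KH H) →+* 𝓞 F ⧸ P :=
  (Ideal.Quotient.mk P).comp ((MulSemiringAction.toRingHom (F ≃ₐ[ℚ] F) (𝓞 F) g).comp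
    (algebraMap (𝓞 (KH H)) (𝓞 F)))

theorem Phi_apply (P : Ideal (𝓞 F)) (H : Subgroup (F ≃ₐ[ℚ] F)) (g : F ≃ₐ[ℚ] F)
    (x : 𝓞 (KH H)) : Phi P H g x = Ideal.Quotient.mk P (g • algebraMap (𝓞 (KH H)) (𝓞 F) x) := rfl

open Polynomial in
/-- Two homomorphisms to a domain which agree on the invariants of a finite group are
conjugate. -/
private theorem homa_conj {A : Type*} [CommRing A] {G : Type*} [Group G] [Finite G]
    [MulSemiringAction G A] {Ω : Type*} [CommRing Ω] [IsDomain Ω] (ψ π : A →+* Ω)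
    (h : ∀ a : A, (∀ g : G, g • a = a) → ψ a = π a) : ∃ g : G, ∀ a, ψ a = π (g • a) := by
  classical
  haveI := Fintype.ofFinite G
  by_contra hcon
  push Not at hcon
  choose a ha using hcon
  obtain ⟨e, he⟩ : ∃ e : G → ℕ, Function.Injective e :=
    ⟨fun g => ((Fintype.equivFin G) g : ℕ), fun x y hxy =>
      (Fintype.equivFin G).injective (Fin.ext hxy)⟩
  set Q : A[X] := ∑ g : G, C (a g) * X ^ (e g) with hQ
  have hcoef : ∀ g, Q.coeff (e g) = a g := by
    intro g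
    rw [hQ, Polynomial.finsetSum_coeff, Finset.sum_eq_single g]
    · rw [Polynomial.coeff_C_mul, Polynomial.coeff_X_pow, if_pos rfl, mul_one]
    · intro b _ hb
      rw [Polynomial.coeff_C_mul, Polynomial.coeff_X_pow, if_neg, mul_zero]
      exact fun h => hb (he h.symm)
    · intro h
      exact absurd (Finset.mem_univ g) h
  set R : A[X][X] := MulSemiringAction.charpoly G Q with hR
  have hinv : ∀ n m, ψ ((R.coeff n).coeff m) = π ((R.coeff n).coeff m) := by
    intro n m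
    apply h
    intro g
    have h1 := MulSemiringAction.smul_coeff_charpoly (G := G) Q n g
    have h2 := congrArg (fun q => Polynomial.coeff q m) h1
    simpa [Polynomial.coeff_smul] using h2
  have hmap : R.map (Polynomial.mapRingHom ψ) = R.map (Polynomial.mapRingHom π) := by
    ext n m
    rw [Polynomial.coeff_map, Polynomial.coeff_map, Polynomial.coe_mapRingHom,
      Polynomial.coe_mapRingHom, Polynomial.coeff_map, Polynomial.coeff_map]
    exact hinv n m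
  have h0 : (R.map (Polynomial.mapRingHom ψ)).eval (Q.map ψ) = 0 := by
    have := MulSemiringAction.eval_charpoly (G := G) Q
    rw [← hR] at this
    rw [← Polynomial.coe_mapRingHom, Polynomial.eval_map_apply, this, map_zero]
  rw [hmap, hR, MulSemiringAction.charpoly_eq, Polynomial.map_prod, Polynomial.eval_prod,
    Finset.prod_eq_zero_iff] at h0
  obtain ⟨g, -, hg⟩ := h0
  rw [Polynomial.map_sub, Polynomial.map_X, Polynomial.map_C, Polynomial.eval_sub,
    Polynomial.eval_X, Polynomial.eval_C, sub_eq_zero, Polynomial.coe_mapRingHom] at hg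
  have := congrArg (fun q => Polynomial.coeff q (e g)) hg
  simp only [Polynomial.coeff_map, hcoef] at this
  rw [Polynomial.coeff_smul, hcoef] at this
  exact ha g this

/-- The integers fixed by `H` are integers of the fixed field. -/
private theorem homa_inv (H : Subgroup (F ≃ₐ[ℚ] F)) (a : 𝓞 F)
    (ha : ∀ g : H, g • a = a) : ∃ b : 𝓞 (KH H), algebraMap (𝓞 (KH H)) (𝓞 F) b = a := by
  have h1 : (a : F) ∈ IntermediateField.fixedField H := by
    intro g
    have := congrArg (fun x : 𝓞 F => (x : F)) (ha g)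
    exact this
  have h2 : IsIntegral ℤ (⟨(a : F), h1⟩ : KH H) := by
    have h3 : IsIntegral ℤ (algebraMap (KH H) F ⟨(a : F), h1⟩) := a.isIntegral_coe
    exact (isIntegral_algebraMap_iff (algebraMap (KH H) F).injective).1 h3
  refine ⟨⟨⟨(a : F), h1⟩, h2⟩, ?_⟩
  ext
  rfl

/-- A homomorphism to an algebraically closed field extends to an integral extension. -/
private theorem homa_ext {A B : Type*} [CommRing A] [CommRing B] [Algebra A B]
    [Algebra.IsIntegral A B] [FaithfulSMul A B] {Ω : Type*} [Field Ω] [IsAlgClosed Ω]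
    (φ : A →+* Ω) : ∃ ψ : B →+* Ω, ψ.comp (algebraMap A B) = φ := by
  have hq : (RingHom.ker φ).IsPrime := RingHom.ker_isPrime φ
  obtain ⟨⟨Q, hQ1, hQ2⟩⟩ := (RingHom.ker φ).nonempty_primesOver (S := B)
  letI : Algebra (A ⧸ RingHom.ker φ) Ω := (RingHom.kerLift φ).toAlgebra
  haveI : Module.IsTorsionFree (A ⧸ RingHom.ker φ) Ω :=
    Module.isTorsionFree_iff_algebraMap_injective.2 (RingHom.kerLift_injective φ)
  haveI : Module.IsTorsionFree (A ⧸ RingHom.ker φ) (B ⧸ Q) :=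
    Module.isTorsionFree_iff_algebraMap_injective.2
      (FaithfulSMul.algebraMap_injective _ _)
  let l : (B ⧸ Q) →ₐ[A ⧸ RingHom.ker φ] Ω := IsAlgClosed.lift
  refine ⟨(l : (B ⧸ Q) →+* Ω).comp (Ideal.Quotient.mk Q), ?_⟩
  ext x
  have h1 := l.commutes (Ideal.Quotient.mk _ x)
  exact h1

variable [IsGalois ℚ F]

private theorem homa_int (a : 𝓞 F) (ha : ∀ g : F ≃ₐ[ℚ] F, g • a = a) : ∃ n : ℤ, (n : 𝓞 F) = a := by
  have h1 : (a : F) ∈ (⊥ : IntermediateField ℚ F) := by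
    rw [← IsGalois.fixedField_top (F := ℚ) (E := F)]
    intro g
    exact congrArg (fun x : 𝓞 F => (x : F)) (ha g)
  obtain ⟨q, hq⟩ := IntermediateField.mem_bot.1 h1
  have h2 : IsIntegral ℤ q := by
    have h3 : IsIntegral ℤ (algebraMap ℚ F q) := hq ▸ a.isIntegral_coe
    exact (isIntegral_algebraMap_iff (algebraMap ℚ F).injective).1 h3
  obtain ⟨n, hn⟩ := IsIntegrallyClosed.isIntegral_iff.1 h2
  refine ⟨n, ?_⟩
  ext
  rw [← hq, ← hn]
  simp

variable {P : Ideal (𝓞 F)} (hP : P.IsPrime) {p : ℕ} (hp : p.Prime)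
  (hpP : ((p : ℕ) : 𝓞 F) ∈ P)

include hP hp hpP

private theorem homa_card : Nat.card (ℤ ⧸ P.under ℤ) = p := by
  have h1 : P.under ℤ = Ideal.span {(p : ℤ)} := by
    have hmax : (Ideal.span {(p : ℤ)}).IsMaximal :=
      PrincipalIdealRing.isMaximal_of_irreducible (Nat.prime_iff_prime_int.1 hp).irreducible
    symm
    apply hmax.eq_of_le
    · exact (Ideal.IsPrime.under ℤ P).ne_top
    · rw [Ideal.span_singleton_le_iff_mem]
      change algebraMap ℤ (𝓞 F) (p : ℤ) ∈ P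
      simpa using hpP
  rw [h1, Nat.card_congr (Int.quotientSpanNatEquivZMod p).toEquiv, Nat.card_zmod]

theorem Phi_frob {σ : F ≃ₐ[ℚ] F} (hσ : IsArithFrobAt ℤ σ P) (H : Subgroup (F ≃ₐ[ℚ] F))
    (k : ℕ) (g : F ≃ₐ[ℚ] F) (x : 𝓞 (KH H)) : Phi P H (σ ^ k * g) x = Phi P H g x ^ p ^ k := by
  have hc := homa_card hP hp hpP
  have key : ∀ y : 𝓞 F, Ideal.Quotient.mk P (σ • y) = (Ideal.Quotient.mk P y) ^ p := by
    intro y
    have := hσ.mk_apply y
    rw [hc] at this
    exact this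
  rw [Phi_apply, Phi_apply, mul_smul]
  generalize g • algebraMap (𝓞 (KH H)) (𝓞 F) x = y
  induction k with
  | zero => simp
  | succ k ih =>
    rw [pow_succ' σ, mul_smul, key, ih, ← pow_mul, pow_succ]

theorem Phi_fiber (H : Subgroup (F ≃ₐ[ℚ] F)) (g g' : F ≃ₐ[ℚ] F) :
    Phi P H g = Phi P H g' ↔
      ∃ i ∈ P.inertia (F ≃ₐ[ℚ] F), ∃ h ∈ H, g' = i * g * h := by
  have hfix : ∀ h ∈ H, ∀ x : 𝓞 (KH H),
      h • algebraMap (𝓞 (KH H)) (𝓞 F) x = algebraMap (𝓞 (KH H)) (𝓞 F) x := by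
    intro h hh x
    ext
    exact ((x : KH H).2 ⟨h, hh⟩ : _)
  constructor
  · intro hgg
    obtain ⟨h, hh⟩ := homa_conj (G := H)
      ((Ideal.Quotient.mk P).comp (MulSemiringAction.toRingHom (F ≃ₐ[ℚ] F) (𝓞 F) g'))
      ((Ideal.Quotient.mk P).comp (MulSemiringAction.toRingHom (F ≃ₐ[ℚ] F) (𝓞 F) g)) (by
        intro a ha
        obtain ⟨b, rfl⟩ := homa_inv H a ha
        exact (DFunLike.congr_fun hgg b).symm)
    refine ⟨g' * (h : F ≃ₐ[ℚ] F)⁻¹ * g⁻¹, ?_, h, h.2, by group⟩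
    intro z
    have := hh ((h : F ≃ₐ[ℚ] F)⁻¹ • (g⁻¹ • z))
    have h1 : Ideal.Quotient.mk P ((g' * (h : F ≃ₐ[ℚ] F)⁻¹ * g⁻¹) • z) =
        Ideal.Quotient.mk P z := by
      have e1 : (g' * (h : F ≃ₐ[ℚ] F)⁻¹ * g⁻¹) • z =
        g' • ((h : F ≃ₐ[ℚ] F)⁻¹ • (g⁻¹ • z)) := by
        rw [mul_smul, mul_smul]
      have e2 : z = g • ((h : F ≃ₐ[ℚ] F) • ((h : F ≃ₐ[ℚ] F)⁻¹ • (g⁻¹ • z))) := by
        rw [smul_inv_smul, smul_inv_smul]
      rw [e1]
      conv_rhs => rw [e2]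
      exact this
    exact (Ideal.Quotient.eq).1 h1
  · rintro ⟨i, hi, h, hh, rfl⟩
    ext x
    rw [Phi_apply, Phi_apply, mul_smul, hfix h hh, mul_smul]
    symm
    exact (Ideal.Quotient.eq).2 (hi _)

theorem Phi_surj (H : Subgroup (F ≃ₐ[ℚ] F)) : Function.Surjective (Phi P H) := by
  intro φ
  have hP0 : P ≠ ⊥ := by
    rintro rfl
    rw [Ideal.mem_bot, Nat.cast_eq_zero] at hpP
    exact hp.ne_zero hpP
  have hmax : P.IsMaximal := hP.isMaximal hP0
  letI : Field (𝓞 F ⧸ P) := Ideal.Quotient.field P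
  obtain ⟨ψ, hψ⟩ := homa_ext (B := 𝓞 F)
    ((algebraMap (𝓞 F ⧸ P) (AlgebraicClosure (𝓞 F ⧸ P))).comp φ)
  obtain ⟨g, hg⟩ := homa_conj (G := F ≃ₐ[ℚ] F) ψ
    ((algebraMap (𝓞 F ⧸ P) (AlgebraicClosure (𝓞 F ⧸ P))).comp (Ideal.Quotient.mk P)) (by
      intro a ha
      obtain ⟨n, rfl⟩ := homa_int a ha
      rw [← eq_intCast (algebraMap ℤ (𝓞 F)), ← RingHom.comp_apply, ← RingHom.comp_apply]
      congr 1
      exact RingHom.ext_int _ _)
  refine ⟨g, ?_⟩
  ext x
  apply (algebraMap (𝓞 F ⧸ P) (AlgebraicClosure (𝓞 F ⧸ P))).injective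
  have h1 := DFunLike.congr_fun hψ x
  have h2 := hg (algebraMap (𝓞 (KH H)) (𝓞 F) x)
  rw [Phi_apply]
  exact (h2.symm.trans h1)

end Pool.Agent.PGZ
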