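import Pool.Agent.PGZ.Defs

/-! # PGZ, module LAT: the coinvariant lattice -/

set_option autoImplicit false

noncomputable section

namespace Pool.Agent.PGZ

open Module

section latGen

/-- A submodule with torsion free quotient is a direct summand. -/
theorem lat_proj {L : Type*} [AddCommGroup L] [Module.Free ℤ L] [Module.Finite ℤ L]
    (M : Submodule ℤ L) (h : ∀ (n : ℤ) (x : L), n ≠ 0 → n • x ∈ M → x ∈ M) :
    ∃ p : L →ₗ[ℤ] M, ∀ x : M, p (x : L) = x := by
  have htf : Module.IsTorsionFree ℤ (L ⧸ M) := by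
    refine Module.IsTorsionFree.of_smul_eq_zero fun n m hnm => ?_
    by_cases hn : n = 0
    · exact Or.inl hn
    · right
      obtain ⟨x, rfl⟩ := M.mkQ_surjective m
      rw [← map_smul, Submodule.mkQ_apply, Submodule.Quotient.mk_eq_zero] at hnm
      rw [Submodule.mkQ_apply, Submodule.Quotient.mk_eq_zero]
      exact h n x hn hnm
  have : Module.Free ℤ (L ⧸ M) := Module.free_of_finite_type_torsion_free'
  obtain ⟨s, hs⟩ := Module.projective_lifting_property M.mkQ LinearMap.id M.mkQ_surjective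
  have hmem : ∀ x, ((LinearMap.id - s ∘ₗ M.mkQ : L →ₗ[ℤ] L)) x ∈ M := by
    intro x
    rw [← Submodule.Quotient.mk_eq_zero, ← Submodule.mkQ_apply, LinearMap.sub_apply, map_sub,
      LinearMap.id_apply, LinearMap.comp_apply]
    have := LinearMap.congr_fun hs (M.mkQ x)
    rw [LinearMap.comp_apply, LinearMap.id_apply] at this
    rw [this, sub_self]
  refine ⟨LinearMap.codRestrict M (LinearMap.id - s ∘ₗ M.mkQ : L →ₗ[ℤ] L) hmem, fun x => ?_⟩
  apply Subtype.ext
  rw [LinearMap.codRestrict_apply, LinearMap.sub_apply, LinearMap.comp_apply, LinearMap.id_apply]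
  have : M.mkQ (x : L) = 0 := by
    rw [Submodule.mkQ_apply, Submodule.Quotient.mk_eq_zero]
    exact x.2
  rw [this, map_zero, sub_zero]

end latGen

variable {G : Type*} [Group G] [Finite G] {Λ : Type*} [AddCommGroup Λ] [DistribMulAction G Λ]
  [Module.Free ℤ Λ] [Module.Finite ℤ Λ] {B : Λ →ₗ[ℤ] Λ →ₗ[ℤ] ℤ} {w : Λ} {ε : ℤ}

omit [Finite G] [Module.Free ℤ Λ] [Module.Finite ℤ Λ] in
private theorem lat_smul_mem (hc : IsCyc G B w ε) (g : G) {x : Λ} (hx : x ∈ MM G B) :
    g • x ∈ MM G B := by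
  intro y hy
  have h1 := hc.inv g x y
  rw [hy g] at h1
  rw [h1]
  exact hx y hy

/-- The restriction of `g` to `MM`. -/
private def latEq (hc : IsCyc G B w ε) (g : G) : MM G B ≃ₗ[ℤ] MM G B where
  toFun x := ⟨g • (x : Λ), lat_smul_mem hc g x.2⟩
  map_add' x y := by
    apply Subtype.ext
    exact smul_add g (x : Λ) (y : Λ)
  map_smul' c x := by
    apply Subtype.ext
    exact smul_comm g c (x : Λ)
  invFun x := ⟨g⁻¹ • (x : Λ), lat_smul_mem hc g⁻¹ x.2⟩
  left_inv x := by
    apply Subtype.ext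
    exact inv_smul_smul g (x : Λ)
  right_inv x := by
    apply Subtype.ext
    exact smul_inv_smul g (x : Λ)

/-- The representation on `MM`. -/
private def latR (hc : IsCyc G B w ε) : G →* (MM G B ≃ₗ[ℤ] MM G B) where
  toFun g := latEq hc g
  map_one' := by
    apply LinearEquiv.ext
    intro x
    apply Subtype.ext
    exact one_smul G (x : Λ)
  map_mul' g h := by
    apply LinearEquiv.ext
    intro x
    apply Subtype.ext
    exact mul_smul g h (x : Λ)

omit [Finite G] [Module.Free ℤ Λ] [Module.Finite ℤ Λ] in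
/-- `MM` and the invariants intersect in `0`. -/
theorem lat_inter (hc : IsCyc G B w ε) {x : Λ} (hx : x ∈ MM G B) (hx' : ∀ g : G, g • x = x) :
    x = 0 := by
  by_contra hne
  have h1 := hc.defn x hne hx
  rw [hx x hx', mul_zero] at h1
  exact lt_irrefl _ h1

omit [Finite G] [Module.Free ℤ Λ] [Module.Finite ℤ Λ] in
theorem lat_sub_mem (hc : IsCyc G B w ε) (g : G) (x : Λ) : x - g • x ∈ MM G B := by
  intro z hz
  have h1 := hc.inv g x z
  rw [hz g] at h1
  rw [map_sub, LinearMap.sub_apply, h1, sub_self]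

/-- The sum of the two submodules. -/
private def latM (G : Type*) [Group G] {Λ : Type*} [AddCommGroup Λ] [DistribMulAction G Λ]
    (B : Λ →ₗ[ℤ] Λ →ₗ[ℤ] ℤ) : (fixS Λ (⊤ : Subgroup G) × MM G B) →ₗ[ℤ] Λ :=
  LinearMap.coprod (fixS Λ (⊤ : Subgroup G)).subtype (MM G B).subtype

private theorem latM_apply {G : Type*} [Group G] {Λ : Type*} [AddCommGroup Λ]
    [DistribMulAction G Λ] (B : Λ →ₗ[ℤ] Λ →ₗ[ℤ] ℤ) (v : fixS Λ (⊤ : Subgroup G) × MM G B) :
    latM G B v = (v.1 : Λ) + (v.2 : Λ) := by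
  rw [latM, LinearMap.coprod_apply, Submodule.subtype_apply, Submodule.subtype_apply]

omit [Finite G] [Module.Free ℤ Λ] [Module.Finite ℤ Λ] in
private theorem latM_inj (hc : IsCyc G B w ε) : Function.Injective (latM G B) := by
  rw [← LinearMap.ker_eq_bot, LinearMap.ker_eq_bot']
  intro v hv
  rw [latM_apply] at hv
  have h2 : (v.2 : Λ) = 0 := by
    apply lat_inter hc v.2.2
    intro g
    have h3 : (v.2 : Λ) = -(v.1 : Λ) := by
      rw [← sub_eq_zero, sub_neg_eq_add, add_comm]
      exact hv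
    rw [h3, smul_neg, v.1.2 g (Subgroup.mem_top g)]
  rw [h2, add_zero] at hv
  exact Prod.ext (Subtype.ext hv) (Subtype.ext h2)

/-- There is a linear map `N` with `M ∘ N = c`, `c ≠ 0`. -/
private theorem lat_exists_N (hc : IsCyc G B w ε) :
    ∃ (c : ℤ) (N : Λ →ₗ[ℤ] (fixS Λ (⊤ : Subgroup G) × MM G B)), c ≠ 0 ∧
      (∀ x, latM G B (N x) = c • x) ∧ ∀ v, N (latM G B v) = c • v := by
  classical
  have := Fintype.ofFinite G
  let E : Λ →ₗ[ℤ] Λ := ∑ g : G, act Λ g
  have hE : ∀ x, E x = ∑ g : G, g • x := by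
    intro x
    simp only [E, LinearMap.sum_apply, act_apply]
  have h1 : ∀ x, E x ∈ fixS Λ (⊤ : Subgroup G) := by
    intro x g _
    rw [hE, Finset.smul_sum]
    simp only [smul_smul]
    exact Fintype.sum_equiv (Equiv.mulLeft g) _ _ fun y => rfl
  let E' : Λ →ₗ[ℤ] Λ := (Fintype.card G : ℤ) • LinearMap.id - E
  have h2 : ∀ x, E' x ∈ MM G B := by
    intro x
    have : E' x = ∑ g : G, (x - g • x) := by
      rw [LinearMap.sub_apply, hE, Finset.sum_sub_distrib, LinearMap.smul_apply,
        LinearMap.id_apply, Finset.sum_const, Finset.card_univ, natCast_zsmul]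
    rw [this]
    exact Submodule.sum_mem _ fun g _ => lat_sub_mem hc g x
  let N : Λ →ₗ[ℤ] (fixS Λ (⊤ : Subgroup G) × MM G B) :=
    LinearMap.prod (LinearMap.codRestrict _ E h1) (LinearMap.codRestrict _ E' h2)
  have hN : ∀ x, latM G B (N x) = (Fintype.card G : ℤ) • x := by
    intro x
    rw [latM_apply]
    change E x + E' x = _
    rw [LinearMap.sub_apply, LinearMap.smul_apply, LinearMap.id_apply]
    abel
  refine ⟨Fintype.card G, N, by exact_mod_cast Fintype.card_ne_zero, hN, fun v => ?_⟩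
  apply latM_inj hc
  rw [hN, map_smul]

theorem lat (hc : IsCyc G B w ε) : PD (BM G B ε) ∧
    finrank ℤ Λ = finrank ℤ (fixS Λ (⊤ : Subgroup G)) + finrank ℤ (MM G B) ∧
    ∃ r : G →* (MM G B ≃ₗ[ℤ] MM G B), (∀ g x, ((r g x : MM G B) : Λ) = g • (x : Λ)) ∧
      (∀ g, Iso (BM G B ε) (r g)) ∧ (∀ g, Tri (BM G B ε) (r g)) ∧
      (∀ x : MM G B, (∀ g, r g x = x) → x = 0) ∧
      ∀ g, LinearMap.trace ℤ Λ (act Λ g) = finrank ℤ (fixS Λ (⊤ : Subgroup G)) +
        LinearMap.trace ℤ (MM G B) (r g).toLinearMap := by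
  obtain ⟨c, N, hc0, hMN, hNM⟩ := lat_exists_N hc
  have hw : ∀ x ∈ MM G B, B w x = 0 := by
    intro x hx
    rw [hc.symm]
    exact hx w hc.fixw
  have hεε : ε * ε = 1 := by
    rcases hc.eps with h | h
    · rw [h]; norm_num
    · rw [h]; norm_num
  refine ⟨⟨?_, ?_, ?_⟩, ?_, latR hc, ?_, ?_, ?_, ?_, ?_⟩
  · intro x y
    rw [BM_apply, BM_apply, hc.symm]
  · intro x hx
    rw [BM_apply]
    exact hc.defn _ (fun h => hx (Subtype.ext h)) x.2
  · intro x
    rw [BM_apply]
    have h1 := hc.char (x : Λ)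
    rw [hw _ x.2, sub_zero] at h1
    exact Dvd.dvd.mul_left h1 ε
  · rw [← finrank_prod]
    apply le_antisymm
    · apply LinearMap.finrank_le_finrank_of_injective (f := N)
      intro x y hxy
      have h1 : c • x = c • y := by rw [← hMN, ← hMN, hxy]
      exact smul_right_injective Λ hc0 h1
    · exact LinearMap.finrank_le_finrank_of_injective (latM_inj hc)
  · intro g x
    rfl
  · intro g x y
    rw [BM_apply, BM_apply]
    change ε * B (g • (x : Λ)) (g • (y : Λ)) = _
    rw [hc.inv]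
  · intro g φ
    obtain ⟨p, hp⟩ := lat_proj (MM G B) (by
      intro n x hn hx y hy
      have h1 := hx y hy
      rw [map_smul, LinearMap.smul_apply, smul_eq_mul] at h1
      exact (mul_eq_zero.1 h1).resolve_left hn)
    obtain ⟨y, hy⟩ := hc.unimod.2 (φ ∘ₗ p)
    have hy' : ∀ x : MM G B, φ x = B y (x : Λ) := by
      intro x
      rw [hy, LinearMap.comp_apply, hp]
    have h1 : g⁻¹ • y - y ∈ MM G B := by
      have := lat_sub_mem hc g⁻¹ y
      have h2 := (MM G B).neg_mem this
      rwa [neg_sub] at h2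
    refine ⟨ε • ⟨g⁻¹ • y - y, h1⟩, fun x => ?_⟩
    rw [hy', hy', BM_apply]
    change B y (g • (x : Λ)) - B y (x : Λ) = ε * B (ε • (g⁻¹ • y - y)) (x : Λ)
    rw [map_smul B ε, LinearMap.smul_apply, smul_eq_mul, ← mul_assoc, hεε, one_mul, map_sub,
      LinearMap.sub_apply]
    have h3 := hc.inv g (g⁻¹ • y) (x : Λ)
    rw [smul_inv_smul] at h3
    rw [h3]
  · intro x hx
    apply Subtype.ext
    refine lat_inter hc x.2 fun g => ?_
    have := congrArg Subtype.val (hx g)
    exact this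
  · intro g
    have h1 : (act Λ g) ∘ₗ (latM G B) =
        (latM G B) ∘ₗ (LinearMap.prodMap LinearMap.id (latR hc g).toLinearMap) := by
      apply LinearMap.ext
      intro v
      rw [LinearMap.comp_apply, LinearMap.comp_apply, latM_apply, latM_apply, act_apply, smul_add,
        v.1.2 g (Subgroup.mem_top g)]
      rfl
    have h2 : c • act Λ g = (act Λ g ∘ₗ latM G B) ∘ₗ N := by
      apply LinearMap.ext
      intro x
      rw [LinearMap.comp_apply, LinearMap.comp_apply, hMN, map_smul, LinearMap.smul_apply]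
    have h3 : N ∘ₗ (act Λ g ∘ₗ latM G B) =
        c • (LinearMap.prodMap LinearMap.id (latR hc g).toLinearMap) := by
      apply LinearMap.ext
      intro v
      rw [LinearMap.comp_apply, h1, LinearMap.comp_apply, hNM, LinearMap.smul_apply]
    have h4 : c * LinearMap.trace ℤ Λ (act Λ g) =
        c * (finrank ℤ (fixS Λ (⊤ : Subgroup G)) +
          LinearMap.trace ℤ (MM G B) (latR hc g).toLinearMap) := by
      calc c * LinearMap.trace ℤ Λ (act Λ g) = LinearMap.trace ℤ Λ (c • act Λ g) := by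
            rw [map_smul, smul_eq_mul]
        _ = LinearMap.trace ℤ _ (N ∘ₗ (act Λ g ∘ₗ latM G B)) := by
            rw [h2, LinearMap.trace_comp_comm']
        _ = _ := by
            rw [h3, map_smul, smul_eq_mul, LinearMap.trace_prodMap', LinearMap.trace_id]
    exact mul_left_cancel₀ hc0 h4

end Pool.Agent.PGZ
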