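import Pool.Agent.PGZ.Defs

/-! # PGZ, module ORB: decomposition of a signed permutation character into orbits -/

set_option autoImplicit false

noncomputable section

namespace Pool.Agent.PGZ

open Module

/-- Number of elements `s` with `P s`, as a sum over the fibres of `f`. -/
private theorem card_fib {S Q : Type*} [Finite S] [Fintype Q] (f : S → Q) (P : S → Prop) :
    Nat.card {s // P s} = ∑ q : Q, Nat.card {s // f s = q ∧ P s} := by
  classical
  have := Fintype.ofFinite S
  rw [Nat.card_eq_fintype_card, Fintype.card_subtype]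
  rw [Finset.card_eq_sum_card_fiberwise (f := f) (t := Finset.univ)
    (fun x _ => Finset.mem_coe.2 (Finset.mem_univ _))]
  refine Finset.sum_congr rfl fun q _ => ?_
  rw [Nat.card_eq_fintype_card, Fintype.card_subtype]
  congr 1
  ext x
  simp only [Finset.mem_filter, Finset.mem_univ, true_and]
  exact and_comm

/-- Counting over an orbit. -/
private theorem card_orb {G : Type*} [Group G] [Finite G] {S : Type*} [MulAction G S] [Finite S]
    (s₀ : S) (P : S → Prop) :
    Nat.card {k : G // P (k • s₀)} =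
      Nat.card (MulAction.stabilizer G s₀) * Nat.card {s // s ∈ MulAction.orbit G s₀ ∧ P s} := by
  classical
  have := Fintype.ofFinite S
  have := Fintype.ofFinite G
  rw [Nat.card_eq_fintype_card (α := {k : G // P (k • s₀)}), Fintype.card_subtype]
  rw [Nat.card_eq_fintype_card (α := {s // s ∈ MulAction.orbit G s₀ ∧ P s}), Fintype.card_subtype]
  rw [Finset.card_eq_sum_card_fiberwise (f := fun k : G => k • s₀)
    (t := Finset.univ.filter (fun s => s ∈ MulAction.orbit G s₀ ∧ P s))]
  · rw [Finset.sum_const_nat (m := Nat.card (MulAction.stabilizer G s₀)), mul_comm]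
    intro x hx
    rw [Finset.mem_filter] at hx
    obtain ⟨-, ⟨k₀, hk₀⟩, hP⟩ := hx
    have hk : k₀ • s₀ = x := hk₀
    rw [Nat.card_eq_fintype_card, ← Finset.card_univ]
    refine Finset.card_bij' (fun k hk => (⟨k₀⁻¹ * k, ?_⟩ : MulAction.stabilizer G s₀))
      (fun h _ => k₀ * (h : G)) ?_ ?_ ?_ ?_
    · rw [MulAction.mem_stabilizer_iff, mul_smul]
      rw [Finset.mem_filter] at hk
      rw [hk.2, ← hk₀]
      exact inv_smul_smul _ _
    · intro a _
      exact Finset.mem_univ _
    · intro h _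
      rw [Finset.mem_filter, Finset.mem_filter]
      have e : (k₀ * (h : G)) • s₀ = x := by
        rw [mul_smul, MulAction.mem_stabilizer_iff.1 h.2, hk]
      exact ⟨⟨Finset.mem_univ _, by rw [e]; exact hP⟩, e⟩
    · intro a _
      exact mul_inv_cancel_left _ _
    · intro a _
      apply Subtype.ext
      exact inv_mul_cancel_left _ _
  · intro k hk
    rw [Finset.mem_coe, Finset.mem_filter] at hk
    rw [Finset.mem_coe, Finset.mem_filter]
    exact ⟨Finset.mem_univ _, MulAction.mem_orbit _ _, hk.2⟩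

/-- The permutation character of `G / H`. -/
private theorem card_fH {G : Type*} [Group G] [Finite G] (H : Subgroup G) (g : G) :
    Nat.card {k : G // k⁻¹ * g * k ∈ H} =
      Nat.card H * Nat.card {x : G ⧸ H // g • x = x} := by
  classical
  have h := card_orb (G := G) (S := G ⧸ H) ((1 : G) : G ⧸ H) (fun x => g • x = x)
  rw [MulAction.stabilizer_quotient] at h
  have e1 : Nat.card {x : G ⧸ H // x ∈ MulAction.orbit G ((1 : G) : G ⧸ H) ∧ g • x = x} =
      Nat.card {x : G ⧸ H // g • x = x} := by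
    apply Nat.card_congr
    refine Equiv.subtypeEquivRight fun x => ?_
    rw [MulAction.orbit_eq_univ]
    exact ⟨fun h => h.2, fun h => ⟨Set.mem_univ _, h⟩⟩
  rw [e1] at h
  rw [← h]
  apply Nat.card_congr
  refine Equiv.subtypeEquivRight fun k => ?_
  show k⁻¹ * g * k ∈ H ↔ g • (k • ((1 : G) : G ⧸ H)) = k • ((1 : G) : G ⧸ H)
  rw [MulAction.Quotient.smul_coe, MulAction.Quotient.smul_coe, smul_eq_mul, smul_eq_mul, mul_one,
    eq_comm, QuotientGroup.eq, mul_assoc]

section cls

variable {G : Type} [Group G] [Finite G] {S : Type} [MulAction G S] [Finite S] {τ : S → S}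

/-- Type (b). -/
private theorem fix_b (comm : ∀ (g : G) (s : S), g • τ s = τ (g • s)) (inv : ∀ s, τ (τ s) = s)
    (s₀ : S) (hb : τ s₀ ∉ MulAction.orbit G s₀) (g : G) :
    Nat.card {s // (s ∈ MulAction.orbit G s₀ ∨ s ∈ MulAction.orbit G (τ s₀)) ∧ g • s = s} =
      2 * Nat.card {x : G ⧸ MulAction.stabilizer G s₀ // g • x = x} := by
  classical
  have hinj : ∀ {a b : S}, τ a = τ b → a = b := fun {a b} e => by
    rw [← inv a, e, inv]
  have hst : MulAction.stabilizer G (τ s₀) = MulAction.stabilizer G s₀ := by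
    ext k
    rw [MulAction.mem_stabilizer_iff, MulAction.mem_stabilizer_iff, comm]
    exact ⟨fun e => hinj e, fun e => by rw [e]⟩
  have hdis : Disjoint (fun s : S => s ∈ MulAction.orbit G s₀ ∧ g • s = s)
      (fun s : S => s ∈ MulAction.orbit G (τ s₀) ∧ g • s = s) := by
    rw [Pi.disjoint_iff]
    intro s
    rw [Prop.disjoint_iff]
    rintro ⟨⟨⟨k, hk⟩, -⟩, ⟨l, hl⟩, -⟩
    apply hb
    refine ⟨l⁻¹ * k, ?_⟩
    have h1 : k • s₀ = l • τ s₀ := hk.trans hl.symm
    show (l⁻¹ * k) • s₀ = τ s₀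
    rw [mul_smul, h1, inv_smul_smul]
  have e0 : Nat.card {s // (s ∈ MulAction.orbit G s₀ ∨ s ∈ MulAction.orbit G (τ s₀)) ∧ g • s = s} =
      Nat.card {s // s ∈ MulAction.orbit G s₀ ∧ g • s = s} +
      Nat.card {s // s ∈ MulAction.orbit G (τ s₀) ∧ g • s = s} := by
    rw [← Nat.card_sum]
    apply Nat.card_congr
    refine (Equiv.subtypeEquivRight fun s => ?_).trans (subtypeOrEquiv _ _ hdis)
    exact or_and_right
  have hpos : 0 < Nat.card (MulAction.stabilizer G s₀) := Nat.card_pos
  have e1 := card_orb (G := G) s₀ (fun s => g • s = s)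
  have e2 := card_orb (G := G) (τ s₀) (fun s => g • s = s)
  rw [hst] at e2
  have e3 := card_fH (MulAction.stabilizer G s₀) g
  have e4 : Nat.card {k : G // g • (k • s₀) = k • s₀} =
      Nat.card {k : G // k⁻¹ * g * k ∈ MulAction.stabilizer G s₀} := by
    apply Nat.card_congr
    refine Equiv.subtypeEquivRight fun k => ?_
    rw [MulAction.mem_stabilizer_iff, mul_smul, mul_smul, inv_smul_eq_iff]
  have e5 : Nat.card {k : G // g • (k • τ s₀) = k • τ s₀} =
      Nat.card {k : G // g • (k • s₀) = k • s₀} := by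
    apply Nat.card_congr
    refine Equiv.subtypeEquivRight fun k => ?_
    rw [comm, comm]
    exact ⟨fun e => hinj e, fun e => by rw [e]⟩
  have e6 : Nat.card (MulAction.stabilizer G s₀) *
      Nat.card {s // s ∈ MulAction.orbit G s₀ ∧ g • s = s} =
      Nat.card (MulAction.stabilizer G s₀) *
        Nat.card {x : G ⧸ MulAction.stabilizer G s₀ // g • x = x} := by
    rw [← e1, ← e3]
    exact e4
  have e7 : Nat.card (MulAction.stabilizer G s₀) *
      Nat.card {s // s ∈ MulAction.orbit G (τ s₀) ∧ g • s = s} =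
      Nat.card (MulAction.stabilizer G s₀) *
        Nat.card {x : G ⧸ MulAction.stabilizer G s₀ // g • x = x} := by
    rw [← e2, ← e3]
    exact e5.trans e4
  rw [e0, Nat.eq_of_mul_eq_mul_left hpos e6, Nat.eq_of_mul_eq_mul_left hpos e7, two_mul]

private theorem anti_b (comm : ∀ (g : G) (s : S), g • τ s = τ (g • s)) (inv : ∀ s, τ (τ s) = s)
    (s₀ : S) (hb : τ s₀ ∉ MulAction.orbit G s₀) (g : G) :
    Nat.card {s // (s ∈ MulAction.orbit G s₀ ∨ s ∈ MulAction.orbit G (τ s₀)) ∧ g • s = τ s} = 0 := by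
  rw [Nat.card_eq_zero]
  left
  refine ⟨?_⟩
  rintro ⟨s, hs, hg⟩
  rcases hs with ⟨k, hk⟩ | ⟨k, hk⟩
  · apply hb
    have hk' : k • s₀ = s := hk
    refine ⟨k⁻¹ * g * k, ?_⟩
    show (k⁻¹ * g * k) • s₀ = τ s₀
    rw [mul_smul, mul_smul, hk', hg, ← hk', ← comm, inv_smul_smul]
  · apply hb
    have hk' : k • τ s₀ = s := hk
    refine ⟨(g * k)⁻¹ * k, ?_⟩
    show ((g * k)⁻¹ * k) • s₀ = τ s₀
    rw [mul_smul, inv_smul_eq_iff, mul_smul, hk', hg, ← hk', ← comm, inv]

/-- The subgroup fixing `{s₀, τ s₀}`. -/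
private def H2 (comm : ∀ (g : G) (s : S), g • τ s = τ (g • s)) (inv : ∀ s, τ (τ s) = s) (s₀ : S) :
    Subgroup G where
  carrier := {g | g • s₀ = s₀ ∨ g • s₀ = τ s₀}
  one_mem' := Or.inl (one_smul _ _)
  mul_mem' := by
    intro a b ha hb
    show (a * b) • s₀ = s₀ ∨ (a * b) • s₀ = τ s₀
    rw [mul_smul]
    rcases hb with hb | hb
    · rw [hb]
      exact ha
    · rw [hb, comm]
      rcases ha with ha | ha
      · right
        rw [ha]
      · left
        rw [ha, inv]
  inv_mem' := by
    intro a ha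
    show a⁻¹ • s₀ = s₀ ∨ a⁻¹ • s₀ = τ s₀
    rw [inv_smul_eq_iff, inv_smul_eq_iff, comm]
    rcases ha with ha | ha
    · left
      exact ha.symm
    · right
      rw [ha, inv]

private theorem mem_H2 (comm : ∀ (g : G) (s : S), g • τ s = τ (g • s)) (inv : ∀ s, τ (τ s) = s)
    (s₀ : S) (g : G) : g ∈ H2 comm inv s₀ ↔ g • s₀ = s₀ ∨ g • s₀ = τ s₀ := Iff.rfl

private theorem rel_H2 (comm : ∀ (g : G) (s : S), g • τ s = τ (g • s)) (inv : ∀ s, τ (τ s) = s)
    (free : ∀ s, τ s ≠ s) (s₀ : S) (ha : τ s₀ ∈ MulAction.orbit G s₀) :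
    MulAction.stabilizer G s₀ ≤ H2 comm inv s₀ ∧
      (MulAction.stabilizer G s₀).relIndex (H2 comm inv s₀) = 2 := by
  refine ⟨fun g hg => Or.inl hg, ?_⟩
  obtain ⟨a, ha⟩ := ha
  have ha' : a • s₀ = τ s₀ := ha
  rw [Subgroup.relIndex, Subgroup.index_eq_two_iff]
  refine ⟨⟨a, Or.inr ha'⟩, ?_⟩
  rintro ⟨b, hb⟩
  rw [Subgroup.mem_subgroupOf, Subgroup.mem_subgroupOf, MulAction.mem_stabilizer_iff,
    MulAction.mem_stabilizer_iff]
  show Xor ((b * a) • s₀ = s₀) (b • s₀ = s₀)
  rw [mul_smul, ha', comm]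
  rcases hb with hb | hb
  · right
    refine ⟨hb, ?_⟩
    rw [hb]
    exact free s₀
  · left
    rw [hb, inv]
    exact ⟨rfl, free s₀⟩

private theorem fix_a (s₀ : S) (g : G) :
    Nat.card {s // s ∈ MulAction.orbit G s₀ ∧ g • s = s} =
      Nat.card {x : G ⧸ MulAction.stabilizer G s₀ // g • x = x} := by
  classical
  have hpos : 0 < Nat.card (MulAction.stabilizer G s₀) := Nat.card_pos
  have e1 := card_orb (G := G) s₀ (fun s => g • s = s)
  have e3 := card_fH (MulAction.stabilizer G s₀) g
  have e4 : Nat.card {k : G // g • (k • s₀) = k • s₀} =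
      Nat.card {k : G // k⁻¹ * g * k ∈ MulAction.stabilizer G s₀} := by
    apply Nat.card_congr
    refine Equiv.subtypeEquivRight fun k => ?_
    rw [MulAction.mem_stabilizer_iff, mul_smul, mul_smul, inv_smul_eq_iff]
  have e6 : Nat.card (MulAction.stabilizer G s₀) *
      Nat.card {s // s ∈ MulAction.orbit G s₀ ∧ g • s = s} =
      Nat.card (MulAction.stabilizer G s₀) *
        Nat.card {x : G ⧸ MulAction.stabilizer G s₀ // g • x = x} := by
    rw [← e1, ← e3]
    exact e4
  exact Nat.eq_of_mul_eq_mul_left hpos e6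

private theorem anti_a (comm : ∀ (g : G) (s : S), g • τ s = τ (g • s)) (inv : ∀ s, τ (τ s) = s)
    (free : ∀ s, τ s ≠ s) (s₀ : S) (ha : τ s₀ ∈ MulAction.orbit G s₀) (g : G) :
    Nat.card {s // s ∈ MulAction.orbit G s₀ ∧ g • s = s} +
      Nat.card {s // s ∈ MulAction.orbit G s₀ ∧ g • s = τ s} =
      2 * Nat.card {x : G ⧸ H2 comm inv s₀ // g • x = x} := by
  classical
  have hpos : 0 < Nat.card (MulAction.stabilizer G s₀) := Nat.card_pos
  have hdis : Disjoint (fun s : S => s ∈ MulAction.orbit G s₀ ∧ g • s = s)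
      (fun s : S => s ∈ MulAction.orbit G s₀ ∧ g • s = τ s) := by
    rw [Pi.disjoint_iff]
    intro s
    rw [Prop.disjoint_iff]
    rintro ⟨⟨-, h1⟩, -, h2⟩
    exact free s (h2.symm.trans h1)
  have e0 : Nat.card {s // s ∈ MulAction.orbit G s₀ ∧ (g • s = s ∨ g • s = τ s)} =
      Nat.card {s // s ∈ MulAction.orbit G s₀ ∧ g • s = s} +
      Nat.card {s // s ∈ MulAction.orbit G s₀ ∧ g • s = τ s} := by
    rw [← Nat.card_sum]
    apply Nat.card_congr
    refine (Equiv.subtypeEquivRight fun s => ?_).trans (subtypeOrEquiv _ _ hdis)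
    exact and_or_left
  have e1 := card_orb (G := G) s₀ (fun s => g • s = s ∨ g • s = τ s)
  have e3 := card_fH (H2 comm inv s₀) g
  have e4 : Nat.card {k : G // g • (k • s₀) = k • s₀ ∨ g • (k • s₀) = τ (k • s₀)} =
      Nat.card {k : G // k⁻¹ * g * k ∈ H2 comm inv s₀} := by
    apply Nat.card_congr
    refine Equiv.subtypeEquivRight fun k => ?_
    rw [mem_H2, mul_smul, mul_smul, inv_smul_eq_iff, inv_smul_eq_iff, comm]
  have e5 : Nat.card (H2 comm inv s₀) = 2 * Nat.card (MulAction.stabilizer G s₀) := by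
    have h := rel_H2 comm inv free s₀ ha
    have h3 := Subgroup.relIndex_mul_relIndex ⊥ _ _ bot_le h.1
    rw [Subgroup.relIndex_bot_left, Subgroup.relIndex_bot_left, h.2] at h3
    rw [← h3, mul_comm]
  rw [← e0]
  have e6 : Nat.card (MulAction.stabilizer G s₀) *
      Nat.card {s // s ∈ MulAction.orbit G s₀ ∧ (g • s = s ∨ g • s = τ s)} =
      Nat.card (MulAction.stabilizer G s₀) *
        (2 * Nat.card {x : G ⧸ H2 comm inv s₀ // g • x = x}) := by
    rw [← e1]
    refine e4.trans ?_
    rw [e3, e5]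
    ring
  exact Nat.eq_of_mul_eq_mul_left hpos e6

end cls

private theorem fH_top {G : Type} [Group G] (g : G) : fH (⊤ : Subgroup G) g = 1 := by
  rw [fH]
  have : Nat.card {x : G ⧸ (⊤ : Subgroup G) // g • x = x} = 1 := by
    rw [Nat.card_eq_one_iff_unique]
    haveI : Subsingleton (G ⧸ (⊤ : Subgroup G)) := QuotientGroup.subsingleton_quotient_top
    exact ⟨inferInstance, ⟨⟨((1 : G) : G ⧸ (⊤ : Subgroup G)), Subsingleton.elim _ _⟩⟩⟩
  rw [this, Nat.cast_one]

theorem orb {G : Type} [Group G] [Finite G] {Λ : Type*} [AddCommGroup Λ] [DistribMulAction G Λ]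
    (S : Type) [MulAction G S] (τ : S → S) (c : ℕ) (h : IsSgn G Λ S τ c) :
    ∃ (J₁ J₂ : Type) (_ : Fintype J₁) (_ : Fintype J₂) (H₁ : J₁ → Subgroup G)
      (H₂ H₃ : J₂ → Subgroup G), (∀ j, H₃ j ≤ H₂ j ∧ (H₃ j).relIndex (H₂ j) = 2) ∧
      ∀ g : G, ((LinearMap.trace ℤ Λ (act Λ g) : ℤ) : ℂ) =
        ∑ j, fH (H₁ j) g + ∑ j, (fH (H₃ j) g - fH (H₂ j) g) := by
  classical
  obtain ⟨hfin, hfree, hinv, hcomm, htr⟩ := h
  -- the equivalence relation
  let r : Setoid S := 
    { r := fun s t => s ∈ MulAction.orbit G t ∨ s ∈ MulAction.orbit G (τ t)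
      iseqv := by
        refine ⟨fun s => Or.inl (MulAction.mem_orbit_self s), ?_, ?_⟩
        · rintro s t (⟨k, hk⟩ | ⟨k, hk⟩)
          · left
            have hk' : k • t = s := hk
            exact ⟨k⁻¹, by show k⁻¹ • s = t; rw [← hk', inv_smul_smul]⟩
          · right
            have hk' : k • τ t = s := hk
            exact ⟨k⁻¹, by show k⁻¹ • τ s = t; rw [← hk', ← hcomm, hinv, inv_smul_smul]⟩
        · rintro s t u (⟨k, hk⟩ | ⟨k, hk⟩) (⟨l, hl⟩ | ⟨l, hl⟩)
          · left
            have hk' : k • t = s := hk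
            have hl' : l • u = t := hl
            exact ⟨k * l, by show (k * l) • u = s; rw [mul_smul, hl', hk']⟩
          · right
            have hk' : k • t = s := hk
            have hl' : l • τ u = t := hl
            exact ⟨k * l, by show (k * l) • τ u = s; rw [mul_smul, hl', hk']⟩
          · right
            have hk' : k • τ t = s := hk
            have hl' : l • u = t := hl
            exact ⟨k * l, by show (k * l) • τ u = s; rw [mul_smul, hcomm, hl', hk']⟩
          · left
            have hk' : k • τ t = s := hk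
            have hl' : l • τ u = t := hl
            exact ⟨k * l, by
              show (k * l) • u = s
              rw [mul_smul, ← hk', ← hl', ← hcomm, hinv]⟩ }
  haveI : Fintype (Quotient r) := Fintype.ofFinite _
  let f : S → Quotient r := Quotient.mk r
  let b : Quotient r → S := Quotient.out
  have hf : ∀ s q, f s = q ↔ (s ∈ MulAction.orbit G (b q) ∨ s ∈ MulAction.orbit G (τ (b q))) := by
    intro s q
    constructor
    · intro e
      have : r s (b q) := Quotient.exact (e.trans (Quotient.out_eq q).symm)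
      exact this
    · intro e
      have : f s = f (b q) := Quotient.sound (show r s (b q) from e)
      rw [this]
      exact Quotient.out_eq q
  let A : Quotient r → Prop := fun q => τ (b q) ∈ MulAction.orbit G (b q)
  have horb : ∀ q, A q → ∀ s, (s ∈ MulAction.orbit G (b q) ∨ s ∈ MulAction.orbit G (τ (b q))) ↔
      s ∈ MulAction.orbit G (b q) := by
    intro q hq s
    refine ⟨?_, Or.inl⟩
    rintro (hs | hs)
    · exact hs
    · rw [MulAction.orbit_eq_iff.2 hq] at hs
      exact hs
  let F : G → Quotient r → ℂ := fun g q =>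
    (Nat.card {s // f s = q ∧ g • s = s} : ℂ) - (Nat.card {s // f s = q ∧ g • s = τ s} : ℂ)
  have hFb : ∀ g q, ¬ A q → F g q = 2 * fH (MulAction.stabilizer G (b q)) g := by
    intro g q hq
    have e1 : Nat.card {s // f s = q ∧ g • s = s} =
        2 * Nat.card {x : G ⧸ MulAction.stabilizer G (b q) // g • x = x} := by
      rw [← fix_b hcomm hinv (b q) hq g]
      apply Nat.card_congr
      exact Equiv.subtypeEquivRight fun s => by rw [hf]
    have e2 : Nat.card {s // f s = q ∧ g • s = τ s} = 0 := by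
      rw [← anti_b hcomm hinv (b q) hq g]
      apply Nat.card_congr
      exact Equiv.subtypeEquivRight fun s => by rw [hf]
    show (Nat.card {s // f s = q ∧ g • s = s} : ℂ) - (Nat.card {s // f s = q ∧ g • s = τ s} : ℂ) = _
    rw [e1, e2, fH]
    push_cast
    ring
  have hFa : ∀ g q, A q → F g q = 2 * (fH (MulAction.stabilizer G (b q)) g -
      fH (H2 hcomm hinv (b q)) g) := by
    intro g q hq
    have e1 : Nat.card {s // f s = q ∧ g • s = s} =
        Nat.card {s // s ∈ MulAction.orbit G (b q) ∧ g • s = s} := by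
      apply Nat.card_congr
      exact Equiv.subtypeEquivRight fun s => by rw [hf, horb q hq]
    have e2 : Nat.card {s // f s = q ∧ g • s = τ s} =
        Nat.card {s // s ∈ MulAction.orbit G (b q) ∧ g • s = τ s} := by
      apply Nat.card_congr
      exact Equiv.subtypeEquivRight fun s => by rw [hf, horb q hq]
    have e3 := fix_a (G := G) (b q) g
    have e4 := anti_a hcomm hinv hfree (b q) hq g
    have e5 : (Nat.card {s // s ∈ MulAction.orbit G (b q) ∧ g • s = s} : ℂ) +
      (Nat.card {s // s ∈ MulAction.orbit G (b q) ∧ g • s = τ s} : ℂ) =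
      2 * (Nat.card {x : G ⧸ H2 hcomm hinv (b q) // g • x = x} : ℂ) := by
      exact_mod_cast e4
    show (Nat.card {s // f s = q ∧ g • s = s} : ℂ) - (Nat.card {s // f s = q ∧ g • s = τ s} : ℂ) = _
    rw [e1, e2, fH, fH, ← e3]
    linear_combination (-1 : ℂ) * e5
  refine ⟨Fin c ⊕ {q : Quotient r // ¬ A q}, {q : Quotient r // A q}, inferInstance, inferInstance,
    Sum.elim (fun _ => ⊤) (fun q => MulAction.stabilizer G (b q)),
    fun q => H2 hcomm hinv (b q), fun q => MulAction.stabilizer G (b q), ?_, ?_⟩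
  · intro q
    exact rel_H2 hcomm hinv hfree (b q) q.2
  · intro g
    have h0 : 2 * ((LinearMap.trace ℤ Λ (act Λ g) : ℤ) : ℂ) = 2 * (c : ℂ) + ∑ q, F g q := by
      have h1 : (2 : ℂ) * ((LinearMap.trace ℤ Λ (act Λ g) : ℤ) : ℂ) =
          2 * (c : ℂ) + (Nat.card {s : S // g • s = s} : ℂ) -
            (Nat.card {s : S // g • s = τ s} : ℂ) := by
        exact_mod_cast congrArg (fun z : ℤ => (z : ℂ)) (htr g)
      rw [h1, card_fib f (fun s => g • s = s), card_fib f (fun s => g • s = τ s)]
      show _ = 2 * (c : ℂ) + ∑ q, ((Nat.card {s // f s = q ∧ g • s = s} : ℂ) -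
        (Nat.card {s // f s = q ∧ g • s = τ s} : ℂ))
      rw [Finset.sum_sub_distrib]
      push_cast
      ring
    have h2 : ∑ q, F g q = ∑ q : {q : Quotient r // A q}, F g q +
        ∑ q : {q : Quotient r // ¬ A q}, F g q :=
      (Fintype.sum_subtype_add_sum_subtype A (F g)).symm
    rw [h2] at h0
    rw [Fintype.sum_sum_type]
    simp only [Sum.elim_inl, Sum.elim_inr, fH_top, Finset.sum_const, Finset.card_univ,
      Fintype.card_fin, nsmul_eq_mul, mul_one]
    have h3 : ∑ q : {q : Quotient r // A q}, F g q =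
        2 * ∑ q : {q : Quotient r // A q}, (fH (MulAction.stabilizer G (b q)) g -
          fH (H2 hcomm hinv (b q)) g) := by
      rw [Finset.mul_sum]
      exact Finset.sum_congr rfl fun q _ => hFa g q q.2
    have h4 : ∑ q : {q : Quotient r // ¬ A q}, F g q =
        2 * ∑ q : {q : Quotient r // ¬ A q}, fH (MulAction.stabilizer G (b q)) g := by
      rw [Finset.mul_sum]
      exact Finset.sum_congr rfl fun q _ => hFb g q q.2
    rw [h3, h4] at h0
    linear_combination (1 / 2 : ℂ) * h0

end Pool.Agent.PGZ
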