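import Pool.Agent.PGZ.HERM

/-! # PGZ, module ROOT: existence of a root in a coinvariant lattice of rank at most five -/

set_option autoImplicit false

noncomputable section

namespace Pool.Agent.PGZ

open Module

private theorem ROOT_eig {n : ℕ} (A : Matrix (Fin n) (Fin n) ℂ) (N : ℕ) (hN : 0 < N)
    (hA : A ^ N = 1) (z : ℂ) (hz : z ∈ A.charpoly.roots) : ‖z‖ = 1 := by
  have h0 : A.charpoly.eval z = 0 := (Polynomial.mem_roots'.1 hz).2
  rw [Matrix.eval_charpoly] at h0
  obtain ⟨v, hv, hv0⟩ := Matrix.exists_mulVec_eq_zero_iff.2 h0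
  have h1 : A.mulVec v = z • v := by
    rw [Matrix.sub_mulVec, sub_eq_zero] at hv0
    rw [← hv0]
    ext i
    simp [Matrix.scalar_apply, Matrix.mulVec_diagonal]
  have h2 : ∀ k : ℕ, (A ^ k).mulVec v = z ^ k • v := by
    intro k
    induction k with
    | zero => simp
    | succ k ih =>
      rw [pow_succ', ← Matrix.mulVec_mulVec, ih, Matrix.mulVec_smul, h1, smul_smul, pow_succ]
  have h3 := h2 N
  rw [hA, Matrix.one_mulVec] at h3
  obtain ⟨i, hi⟩ := Function.ne_iff.1 hv
  have h4 : v i = z ^ N * v i := by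
    have := congrFun h3 i
    simpa using this
  have h5 : z ^ N = 1 := by
    have h6 : (1 - z ^ N) * v i = 0 := by
      rw [sub_mul, one_mul, ← h4, sub_self]
    rcases mul_eq_zero.1 h6 with h | h
    · exact (sub_eq_zero.1 h).symm
    · exact absurd h hi
  have h7 : ‖z‖ ^ N = 1 := by rw [← norm_pow, h5, norm_one]
  exact (pow_eq_one_iff_of_nonneg (norm_nonneg z) hN.ne').1 h7

private theorem ROOT_prod (s : Multiset ℂ) (h : ∀ z ∈ s, ‖z‖ = 1) :
    ‖(s.map (fun z => 1 - z)).prod‖ ≤ 2 ^ (Multiset.card s) := by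
  induction s using Multiset.induction_on with
  | empty => simp
  | cons a s ih =>
    rw [Multiset.map_cons, Multiset.prod_cons, Multiset.card_cons, norm_mul, pow_succ']
    have h1 : ‖1 - a‖ ≤ 2 := by
      have := norm_sub_le (1 : ℂ) a
      rw [h a (Multiset.mem_cons_self a s), norm_one] at this
      linarith
    have h2 := ih (fun z hz => h z (Multiset.mem_cons_of_mem hz))
    exact mul_le_mul h1 h2 (norm_nonneg _) (by norm_num)

private theorem ROOT_det {n : ℕ} (H : Matrix (Fin n) (Fin n) ℤ) (N : ℕ) (hN : 0 < N)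
    (hH : H ^ N = 1) : |(1 - H).det| ≤ 2 ^ n := by
  set A : Matrix (Fin n) (Fin n) ℂ := H.map (Int.castRingHom ℂ) with hAdef
  have hA : A ^ N = 1 := by
    rw [hAdef, ← RingHom.mapMatrix_apply, ← map_pow, hH, map_one]
  have h1 : ((1 - H).det : ℂ) = A.charpoly.eval 1 := by
    rw [Matrix.eval_charpoly, map_one]
    have : (1 - A) = (Int.castRingHom ℂ).mapMatrix (1 - H) := by
      rw [map_sub, map_one, RingHom.mapMatrix_apply]
    rw [this, ← RingHom.map_det]
    rfl
  have h2 : A.charpoly.eval 1 = (A.charpoly.roots.map (fun z => 1 - z)).prod :=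
    (IsAlgClosed.splits A.charpoly).eval_eq_prod_roots_of_monic (Matrix.charpoly_monic A) 1
  have h3 := ROOT_prod A.charpoly.roots (fun z hz => ROOT_eig A N hN hA z hz)
  have h4 : Multiset.card A.charpoly.roots ≤ n := by
    have := Polynomial.card_roots' A.charpoly
    rwa [Matrix.charpoly_natDegree_eq_dim, Fintype.card_fin] at this
  have h5 : ‖((1 - H).det : ℂ)‖ ≤ 2 ^ n := by
    rw [h1, h2]
    exact h3.trans (pow_le_pow_right₀ (by norm_num) h4)
  rw [Complex.norm_intCast] at h5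
  exact_mod_cast h5

/-- `B h - B` has determinant of absolute value at most `2 ^ n`, the Gram determinant divides it
by `Tri`, and Hermite's inequality gives a vector of norm `< 4`. -/
theorem exists_root {L : Type*} [AddCommGroup L] [Module.Free ℤ L] [Module.Finite ℤ L]
    (B : L →ₗ[ℤ] L →ₗ[ℤ] ℤ) (hB : PD B) (h : L ≃ₗ[ℤ] L) (hi : Iso B h) (N : ℕ) (hN : 0 < N)
    (hpow : h ^ N = 1) (hfix : ∀ x, h x = x → x = 0) (ht : Tri B h)
    (h1 : 1 ≤ finrank ℤ L) (h5 : finrank ℤ L ≤ 5) : ∃ x, B x x = 2 := by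
  obtain ⟨m, hm⟩ : ∃ m, finrank ℤ L = m + 1 := ⟨finrank ℤ L - 1, by omega⟩
  have b : Basis (Fin (m + 1)) ℤ L := (Module.finBasis ℤ L).reindex (finCongr hm)
  set H : Matrix (Fin (m + 1)) (Fin (m + 1)) ℤ := LinearMap.toMatrix b b (h : L →ₗ[ℤ] L) with hH
  set Gm : Matrix (Fin (m + 1)) (Fin (m + 1)) ℤ := Matrix.of fun i j => B (b i) (b j) with hGm
  have hHN : H ^ N = 1 := by
    rw [hH, LinearMap.toMatrix_pow]
    have : ((h : L →ₗ[ℤ] L)) ^ N = LinearMap.id := by
      have h2 : ((h ^ N : L ≃ₗ[ℤ] L) : L →ₗ[ℤ] L) = (h : L →ₗ[ℤ] L) ^ N := by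
        ext x
        rw [LinearEquiv.coe_coe, LinearEquiv.coe_pow, Module.End.coe_pow]
        rfl
      rw [← h2, hpow]
      rfl
    rw [this, LinearMap.toMatrix_id]
  choose v hv using fun i => ht (b.coord i)
  set X : Matrix (Fin (m + 1)) (Fin (m + 1)) ℤ := Matrix.of fun i k => b.repr (v i) k with hX
  have hprod : H - 1 = X * Gm := by
    ext i j
    rw [Matrix.sub_apply, Matrix.mul_apply]
    have h2 : H i j - (1 : Matrix (Fin (m + 1)) (Fin (m + 1)) ℤ) i j = B (v i) (b j) := by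
      rw [← hv i (b j), hH, LinearMap.toMatrix_apply, Matrix.one_apply]
      rw [Basis.coord_apply, Basis.coord_apply, Basis.repr_self, Finsupp.single_apply]
      simp only [LinearEquiv.coe_coe, eq_comm]
    rw [h2]
    conv_lhs => rw [← b.sum_repr (v i)]
    rw [map_sum, LinearMap.sum_apply]
    refine Finset.sum_congr rfl fun k _ => ?_
    rw [map_smul, LinearMap.smul_apply, smul_eq_mul]
    rfl
  have hdet0 : (H - 1).det ≠ 0 := by
    intro h0
    obtain ⟨w, hw, hw0⟩ := Matrix.exists_mulVec_eq_zero_iff.2 h0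
    apply hw
    have h2 : H.mulVec w = w := by
      rw [Matrix.sub_mulVec, Matrix.one_mulVec, sub_eq_zero] at hw0
      exact hw0
    have h3 : h (b.equivFun.symm w) = b.equivFun.symm w := by
      apply b.equivFun.injective
      rw [LinearEquiv.apply_symm_apply]
      have h4 := LinearMap.toMatrix_mulVec_repr b b (h : L →ₗ[ℤ] L) (b.equivFun.symm w)
      have h5 : (b.repr (b.equivFun.symm w) : Fin (m + 1) → ℤ) = w := by
        have := b.equivFun.apply_symm_apply w
        rwa [Basis.equivFun_apply] at this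
      rw [h5] at h4
      rw [Basis.equivFun_apply]
      exact h4.symm.trans h2
    have h6 := hfix _ h3
    rwa [LinearEquiv.map_eq_zero_iff] at h6
  have hdetle : |Gm.det| ≤ 2 ^ (m + 1) := by
    have h2 : |(H - 1).det| ≤ 2 ^ (m + 1) := by
      have h3 := ROOT_det H N hN hHN
      have h4 : (H - 1) = -(1 - H) := by rw [neg_sub]
      rw [h4, Matrix.det_neg, abs_mul, abs_pow, abs_neg, abs_one, one_pow, one_mul]
      exact h3
    rw [hprod, Matrix.det_mul, abs_mul] at h2
    rw [hprod, Matrix.det_mul] at hdet0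
    have h3 : 1 ≤ |X.det| := Int.one_le_abs (left_ne_zero_of_mul hdet0)
    nlinarith [abs_nonneg Gm.det]
  obtain ⟨x, hx0, hx⟩ := hermite m b B hB.symm hB.pos
  have hx2 : 4 ^ ((m + 1) * m / 2) * Gm.det ≤ 4 ^ ((m + 1) * m / 2) * 2 ^ (m + 1) :=
    mul_le_mul_of_nonneg_left ((le_abs_self _).trans hdetle) (by positivity)
  have hx3 := hx.trans hx2
  refine ⟨x, ?_⟩
  by_contra hne
  have hpos := hB.pos x hx0
  obtain ⟨c, hc⟩ := hB.even x
  have h4 : 4 ≤ B x x := by omega
  have hm4 : m ≤ 4 := by omega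
  have h6 : (4 : ℤ) ^ (m + 1) ≤ (B x x) ^ (m + 1) := pow_le_pow_left₀ (by norm_num) h4 _
  have h7 : (3 : ℤ) ^ ((m + 1) * m / 2) * 4 ^ (m + 1) ≤ 4 ^ ((m + 1) * m / 2) * 2 ^ (m + 1) :=
    (mul_le_mul_of_nonneg_left h6 (by positivity)).trans hx3
  interval_cases m <;> norm_num at h7

end Pool.Agent.PGZ
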