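import Pool.Agent.PGZ.Defs

/-! # PGZ, module TRD: determinants and traces of powers -/

set_option autoImplicit false

noncomputable section

namespace Pool.Agent.PGZ

open Module

private theorem TRD_basis {V : Type*} [AddCommGroup V] [Module ℂ V] [FiniteDimensional ℂ V]
    (φ : V →ₗ[ℂ] V) (N : ℕ) (hN : 0 < N) (h : φ ^ N = 1) :
    ∃ (I : Type) (_ : Fintype I) (b : Basis I ℂ V) (μ : I → ℂ),
      (∀ i, φ (b i) = μ i • b i) ∧ ∀ i, ‖μ i‖ = 1 := by
  classical
  have hss : Module.End.IsSemisimple (φ : Module.End ℂ V) := by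
    have hsq : Squarefree ((Polynomial.X ^ N - 1 : Polynomial ℂ)) :=
      (Polynomial.X_pow_sub_one_separable_iff.2 (by exact_mod_cast hN.ne')).squarefree
    refine Module.End.isSemisimple_of_squarefree_aeval_eq_zero hsq ?_
    simp [h]
  let eigenDecomp := DirectSum.isInternal_submodule_of_iSupIndep_of_iSup_eq_top
    (Module.End.eigenspaces_iSupIndep φ) hss.iSup_eigenspace_eq_top
  let I := (ν : ℂ) × Fin (finrank ℂ (Module.End.eigenspace φ ν))
  let v : Basis I ℂ V :=
    eigenDecomp.collectedBasis fun μ ↦ finBasis ℂ (Module.End.eigenspace φ μ)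
  have hF : Fintype I := FiniteDimensional.fintypeBasisIndex v
  let μ : I → ℂ := Sigma.fst
  have hsv (i : I) : φ (v i) = μ i • v i :=
    Module.End.mem_eigenspace_iff.mp (eigenDecomp.collectedBasis_mem _ i)
  refine ⟨I, hF, v, μ, hsv, fun i => ?_⟩
  have hpow : ∀ n : ℕ, (φ ^ n) (v i) = μ i ^ n • v i := by
    intro n
    induction n with
    | zero => simp
    | succ n ih => rw [pow_succ', Module.End.mul_apply, ih, map_smul, hsv, smul_smul, pow_succ]
  have h1 := hpow N
  rw [h, Module.End.one_apply] at h1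
  have h2 : (1 - μ i ^ N) • v i = 0 := by rw [sub_smul, one_smul, ← h1, sub_self]
  have h3 : μ i ^ N = 1 := by
    rcases smul_eq_zero.1 h2 with h4 | h4
    · exact (sub_eq_zero.1 h4).symm
    · exact absurd h4 (v.ne_zero i)
  exact Complex.norm_eq_one_of_pow_eq_one h3 hN.ne'

theorem det_exp {V : Type*} [AddCommGroup V] [Module ℂ V] [FiniteDimensional ℂ V]
    (φ : V →ₗ[ℂ] V) (N : ℕ) (hN : 0 < N) (h : φ ^ N = 1) (T : ℂ) (hT : ‖T‖ < 1) :
    (LinearMap.det (LinearMap.id - T • φ))⁻¹ =
      Complex.exp (∑' k : ℕ, LinearMap.trace ℂ V (φ ^ (k + 1)) * T ^ (k + 1) / ((k : ℂ) + 1)) := by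
  classical
  obtain ⟨I, hI, b, μ, hb, hμ⟩ := TRD_basis φ N hN h
  have hpow : ∀ (n : ℕ) (i : I), (φ ^ n) (b i) = μ i ^ n • b i := by
    intro n i
    induction n with
    | zero => simp
    | succ n ih => rw [pow_succ', Module.End.mul_apply, ih, map_smul, hb, smul_smul, pow_succ]
  have htr : ∀ n : ℕ, LinearMap.trace ℂ V (φ ^ n) = ∑ i, μ i ^ n := by
    intro n
    rw [LinearMap.trace_eq_matrix_trace ℂ b, Matrix.trace]
    refine Finset.sum_congr rfl fun i _ => ?_
    rw [Matrix.diag_apply, LinearMap.toMatrix_apply, hpow, map_smul, Finsupp.smul_apply,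
      Basis.repr_self, Finsupp.single_eq_same, smul_eq_mul, mul_one]
  have hdet : LinearMap.det (LinearMap.id - T • φ) = ∏ i, (1 - μ i * T) := by
    rw [← LinearMap.det_toMatrix b]
    have : LinearMap.toMatrix b b (LinearMap.id - T • φ) =
        Matrix.diagonal (fun i => 1 - μ i * T) := by
      ext i j
      rw [LinearMap.toMatrix_apply, LinearMap.sub_apply, LinearMap.id_apply, LinearMap.smul_apply,
        hb, smul_smul, map_sub, map_smul, Finsupp.sub_apply, Finsupp.smul_apply, Basis.repr_self,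
        Matrix.diagonal_apply]
      by_cases hij : i = j
      · subst hij
        rw [Finsupp.single_eq_same, if_pos rfl, smul_eq_mul, mul_one, mul_comm]
      · rw [Finsupp.single_eq_of_ne hij, if_neg hij,
          smul_zero, sub_zero]
    rw [this, Matrix.det_diagonal]
  have hn : ∀ i, ‖μ i * T‖ < 1 := fun i => by rw [norm_mul, hμ, one_mul]; exact hT
  have hs : ∀ i, HasSum (fun k : ℕ => (μ i * T) ^ (k + 1) / ((k : ℂ) + 1))
      (-Complex.log (1 - μ i * T)) := fun i => Complex.hasSum_taylorSeries_neg_log' (hn i)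
  have hsum : HasSum (fun k : ℕ => LinearMap.trace ℂ V (φ ^ (k + 1)) * T ^ (k + 1) / ((k : ℂ) + 1))
      (∑ i, -Complex.log (1 - μ i * T)) := by
    have := hasSum_sum (s := (Finset.univ : Finset I)) (fun i _ => hs i)
    refine this.congr_fun ?_ |> fun h => h
    intro k
    rw [htr, Finset.sum_mul, Finset.sum_div]
    refine Finset.sum_congr rfl fun i _ => ?_
    rw [mul_pow]
  rw [hsum.tsum_eq, Complex.exp_sum, hdet, ← Finset.prod_inv_distrib]
  refine Finset.prod_congr rfl fun i _ => ?_
  have hne : (1 - μ i * T) ≠ 0 := by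
    intro h0
    have : μ i * T = 1 := (sub_eq_zero.1 h0).symm
    have h2 := hn i
    rw [this, norm_one] at h2
    exact lt_irrefl _ h2
  rw [Complex.exp_neg, Complex.exp_log hne]

end Pool.Agent.PGZ
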